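import Mathlib

/-! The linear algebra of the structure theorem. -/

set_option autoImplicit false
set_option linter.unusedSectionVars false
set_option linter.unusedVariables false

namespace Pool.Agent.L7h59.M3.Alg

open Finset

/-- the field with two elements -/
abbrev F := ZMod 2

variable {J A : Type} [Fintype J] [Fintype A] [DecidableEq J] [DecidableEq A] (π : A → J)

/-- coordinates -/
abbrev H (J A : Type) : Type := (A → F) × (J → F)

/-- the form of a functional -/
def bet (l y w : H J A) : F :=
  ∑ a, l.1 a * (y.1 a * w.2 (π a) + y.2 (π a) * w.1 a) + ∑ j, l.2 j * (y.2 j * w.2 j)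

/-- basis vectors -/
def ea (a : A) : H J A := (Pi.single a 1, 0)
/-- basis vectors -/
def ej (j : J) : H J A := (0, Pi.single j 1)

theorem bet_ea (l y : H J A) (a : A) : bet π l y (ea a) = l.1 a * y.2 (π a) := by
  unfold bet ea
  simp [Pi.single_apply]

theorem bet_ej (l y : H J A) (j : J) :
    bet π l y (ej j) = ∑ a ∈ univ.filter (fun a => π a = j), l.1 a * y.1 a + l.2 j * y.2 j := by
  unfold bet ej
  simp only [Pi.single_apply, Pi.zero_apply, mul_zero, add_zero, mul_ite, mul_one, Finset.sum_filter]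
  congr 1
  simp

theorem two (x : F) : x = 0 ∨ x = 1 := by revert x; decide

theorem ne_zero {x : F} (h : x ≠ 0) : x = 1 := (two x).resolve_left h

/-- two independent functionals -/
theorem rank_two (l : H J A) (hl : l ≠ 0) (hs : ∑ j, l.2 j = 0) : ∃ Y : (Fin 2 → F) →ₗ[F] H J A,
    ∀ u, (∀ w, bet π l (Y u) w = 0) → u = 0 := by
  by_cases h1 : l.1 = 0
  · have h2 : l.2 ≠ 0 := fun h => hl (Prod.ext h1 h)
    obtain ⟨i, hi⟩ := Function.ne_iff.1 h2
    obtain ⟨i', hi', hne⟩ : ∃ i', l.2 i' ≠ 0 ∧ i' ≠ i := by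
      by_contra hcon
      push Not at hcon
      have : ∑ j, l.2 j = l.2 i := by
        rw [Finset.sum_eq_single i]
        · intro b _ hb
          by_contra h
          exact hb (hcon b h)
        · intro h; exact absurd (mem_univ i) h
      rw [this] at hs
      exact hi hs
    refine ⟨(LinearMap.toSpanSingleton F _ (ej i)).comp (LinearMap.proj 0) +
      (LinearMap.toSpanSingleton F _ (ej i')).comp (LinearMap.proj 1), ?_⟩
    intro u hu
    have e : ∀ k : J, ((LinearMap.toSpanSingleton F (H J A) (ej i)).comp (LinearMap.proj 0) +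
      (LinearMap.toSpanSingleton F _ (ej i')).comp (LinearMap.proj 1) :
      (Fin 2 → F) →ₗ[F] H J A) u = (0, Pi.single i (u 0) + Pi.single i' (u 1)) := by
      intro k
      simp only [LinearMap.add_apply, LinearMap.comp_apply, LinearMap.proj_apply,
        LinearMap.toSpanSingleton_apply, ej, Prod.smul_mk, smul_zero, Prod.mk_add_mk, add_zero]
      congr 1
      ext j
      simp [Pi.single_apply]
    rw [e i] at hu
    have h3 := hu (ej i)
    have h4 := hu (ej i')
    rw [bet_ej] at h3 h4
    simp only [Pi.zero_apply, mul_zero, Finset.sum_const_zero, zero_add, Pi.add_apply,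
      Pi.single_eq_same, Pi.single_eq_of_ne hne, Pi.single_eq_of_ne hne.symm, add_zero,
      ne_zero hi, ne_zero hi', one_mul] at h3 h4
    ext k
    fin_cases k
    · exact h3
    · exact h4
  · obtain ⟨a, ha⟩ := Function.ne_iff.1 h1
    refine ⟨(LinearMap.toSpanSingleton F _ (ea a)).comp (LinearMap.proj 0) +
      (LinearMap.toSpanSingleton F _ (ej (π a))).comp (LinearMap.proj 1), ?_⟩
    intro u hu
    have e : ((LinearMap.toSpanSingleton F (H J A) (ea a)).comp (LinearMap.proj 0) +
      (LinearMap.toSpanSingleton F _ (ej (π a))).comp (LinearMap.proj 1) :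
      (Fin 2 → F) →ₗ[F] H J A) u = (Pi.single a (u 0), Pi.single (π a) (u 1)) := by
      simp only [LinearMap.add_apply, LinearMap.comp_apply, LinearMap.proj_apply,
        LinearMap.toSpanSingleton_apply, ej, ea, Prod.smul_mk, smul_zero, Prod.mk_add_mk, add_zero,
        zero_add]
      congr 1
      · ext j; simp [Pi.single_apply]
      · ext j; simp [Pi.single_apply]
    rw [e] at hu
    have ha' : l.1 a = 1 := ne_zero ha
    have h3 := hu (ea a)
    rw [bet_ea, ha'] at h3
    simp only [Pi.single_eq_same, one_mul] at h3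
    have h4 := hu (ej (π a))
    rw [bet_ej] at h4
    simp only [h3, Pi.single_zero, Pi.zero_apply, mul_zero, add_zero] at h4
    rw [Finset.sum_eq_single a] at h4
    · rw [ha', Pi.single_eq_same, one_mul] at h4
      ext k
      fin_cases k
      · exact h4
      · exact h3
    · intro b _ hb
      rw [Pi.single_eq_of_ne hb, mul_zero]
    · intro h
      exact absurd (by simp) h

/-- three independent functionals -/
theorem rank_three (l : H J A) (h1 : l.1 ≠ 0) (h2 : l.2 ≠ 0) (hs : ∑ j, l.2 j = 0) :
    ∃ Y : (Fin 3 → F) →ₗ[F] H J A, ∀ u, (∀ w, bet π l (Y u) w = 0) → u = 0 := by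
  obtain ⟨a, ha⟩ := Function.ne_iff.1 h1
  have ha' : l.1 a = 1 := ne_zero ha
  obtain ⟨i, hi, hne⟩ : ∃ i, l.2 i ≠ 0 ∧ i ≠ π a := by
    by_contra hcon
    push Not at hcon
    obtain ⟨i, hi⟩ := Function.ne_iff.1 h2
    have h3 : ∑ j, l.2 j = l.2 i := by
      rw [Finset.sum_eq_single i]
      · intro b _ hb
        by_contra h
        exact hb ((hcon b h).trans (hcon i hi).symm)
      · intro h; exact absurd (mem_univ i) h
    rw [h3] at hs
    exact hi hs
  refine ⟨(LinearMap.toSpanSingleton F _ (ea a)).comp (LinearMap.proj 0) +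
    (LinearMap.toSpanSingleton F _ (ej (π a))).comp (LinearMap.proj 1) +
    (LinearMap.toSpanSingleton F _ (ej i)).comp (LinearMap.proj 2), ?_⟩
  intro u hu
  have e : ((LinearMap.toSpanSingleton F (H J A) (ea a)).comp (LinearMap.proj 0) +
    (LinearMap.toSpanSingleton F _ (ej (π a))).comp (LinearMap.proj 1) +
    (LinearMap.toSpanSingleton F _ (ej i)).comp (LinearMap.proj 2) :
    (Fin 3 → F) →ₗ[F] H J A) u =
      (Pi.single a (u 0), Pi.single (π a) (u 1) + Pi.single i (u 2)) := by
    simp only [LinearMap.add_apply, LinearMap.comp_apply, LinearMap.proj_apply,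
      LinearMap.toSpanSingleton_apply, ej, ea, Prod.smul_mk, smul_zero, Prod.mk_add_mk, add_zero,
      zero_add]
    congr 1
    · ext j; simp [Pi.single_apply]
    · ext j; simp [Pi.single_apply]
  rw [e] at hu
  have h3 := hu (ea a)
  rw [bet_ea, ha'] at h3
  simp only [Pi.add_apply, Pi.single_eq_same, Pi.single_eq_of_ne hne.symm, one_mul,
    add_zero] at h3
  have h4 := hu (ej (π a))
  rw [bet_ej] at h4
  simp only [h3, Pi.single_zero, Pi.zero_apply, mul_zero, add_zero, Pi.add_apply,
    Pi.single_eq_of_ne hne.symm] at h4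
  rw [Finset.sum_eq_single a] at h4
  · rw [ha', Pi.single_eq_same, one_mul] at h4
    have h5 := hu (ej i)
    rw [bet_ej] at h5
    simp only [h3, h4, Pi.single_zero, Pi.zero_apply, mul_zero, Finset.sum_const_zero, zero_add,
      Pi.single_eq_same, ne_zero hi, one_mul, Pi.add_apply] at h5
    ext k
    fin_cases k
    · exact h4
    · exact h3
    · exact h5
  · intro b _ hb
    rw [Pi.single_eq_of_ne hb, mul_zero]
  · intro h
    exact absurd (by simp) h

theorem span_card {V ι : Type*} [AddCommGroup V] [Module F V] [DecidableEq ι]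
    (T : Finset ι) (v : ι → V) (h0 : ∑ i ∈ T, v i = 0) (hT : T.Nonempty) :
    Module.finrank F (Submodule.span F (v '' T)) + 1 ≤ T.card := by
  classical
  obtain ⟨i0, hi0⟩ := hT
  have h1 : Submodule.span F (v '' T) ≤ Submodule.span F (v '' (T.erase i0 : Finset ι)) := by
    rw [Submodule.span_le]
    rintro _ ⟨i, hi, rfl⟩
    by_cases h : i = i0
    · subst h
      have h2 : v i = - ∑ j ∈ T.erase i, v j := by
        rw [← Finset.add_sum_erase T v hi0] at h0
        exact eq_neg_of_add_eq_zero_left h0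
      rw [h2]
      exact Submodule.neg_mem _ (Submodule.sum_mem _ fun j hj =>
        Submodule.subset_span ⟨j, hj, rfl⟩)
    · exact Submodule.subset_span ⟨i, Finset.mem_erase.2 ⟨h, hi⟩, rfl⟩
  have h3 : Module.finrank F (Submodule.span F (v '' (T.erase i0 : Finset ι))) ≤
      (T.erase i0).card := by
    rw [← Finset.coe_image]
    exact (finrank_span_finset_le_card _).trans Finset.card_image_le
  have hfin : Module.Finite F (Submodule.span F (v '' (T.erase i0 : Finset ι))) := by
    rw [← Finset.coe_image]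
    infer_instance
  have h4 := Submodule.finrank_mono h1
  have h5 := Finset.card_erase_add_one hi0
  omega


/-- the data of the structure theorem -/
structure Dat (π : A → J) (P D C : Type) [AddCommGroup P] [Module F P] [AddCommGroup D]
    [Module F D] [Fintype C] where
  ρ : P →ₗ[F] H J A
  j : P →ₗ[F] H J A
  ρ0 : ∀ x, ∑ i, (ρ x).2 i = 0
  ρs : ∀ l : H J A, ∑ i, l.2 i = 0 → ∃ x, ρ x = l
  prod : ∀ (x : P) (y : H J A), (∀ w, bet π (ρ x) y w = 0) →
    (∀ a, (j x).1 a * y.2 (π a) + (j x).2 (π a) * y.1 a = 0) ∧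
      ∀ i i', (j x).2 i * y.2 i = (j x).2 i' * y.2 i'
  swap : ∀ (x x' : P) (w : H J A), bet π (ρ x) (j x') w = bet π (ρ x') (j x) w
  z : C → P
  jz : ∀ S, j (z S) = 0
  zs : ∑ S, z S = 0
  ker : ∀ x, j x = 0 → x ∈ Submodule.span F (Set.range z)
  Φ : (C → H J A) →ₗ[F] D
  Φz : ∀ y, Φ y = 0 → ∀ S w, bet π (ρ (z S)) (y S) w = 0
  K : ∀ y : H J A, Φ (fun _ => y) = 0 ↔ ∃ x, j x = y
  dim : Module.finrank F D =
    2 * Module.finrank F (LinearMap.range (Φ.comp (LinearMap.pi fun _ : C => LinearMap.id)))

namespace Dat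

variable {π} {P D C : Type} [AddCommGroup P] [Module F P] [AddCommGroup D] [Module F D]
  [Fintype C] (Q : Dat π P D C)

/-- two elements in every fibre, two pieces -/
def Big (π : A → J) : Prop :=
  (∃ i i' : J, i ≠ i') ∧ ∀ i, ∃ a b, a ≠ b ∧ π a = i ∧ π b = i

theorem inj (hπ : Big π) {x : P} (h : Q.ρ x = 0) : Q.j x = 0 := by
  have h0 : ∀ y, (∀ w, bet π (Q.ρ x) y w = 0) := by
    intro y w
    rw [h]
    unfold bet
    simp
  obtain ⟨i0, i1, hne⟩ := hπ.1
  have h2 : ∀ i, (Q.j x).2 i = 0 := by
    intro i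
    obtain ⟨i', hi'⟩ : ∃ i', i' ≠ i := by
      by_cases h : i0 = i
      · exact ⟨i1, fun h' => hne (h.trans h'.symm)⟩
      · exact ⟨i0, h⟩
    have h3 := (Q.prod x (ej i) (h0 _)).2 i i'
    unfold ej at h3
    simp only [Pi.single_eq_same, mul_one, Pi.single_eq_of_ne hi', mul_zero] at h3
    exact h3
  apply Prod.ext
  · funext a
    have h3 := (Q.prod x (ej (π a)) (h0 _)).1 a
    unfold ej at h3
    simpa using h3
  · funext i
    exact h2 i

/-- the dual of a torus -/
theorem tor (hπ : Big π) {x : P} {a : A} (h : Q.ρ x = (Pi.single a 1, 0)) :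
    (∀ i, (Q.j x).2 i = 0) ∧ ∀ b, π b ≠ π a → (Q.j x).1 b = 0 := by
  have h0 : ∀ y : H J A, y.1 a = 0 → y.2 (π a) = 0 → ∀ w, bet π (Q.ρ x) y w = 0 := by
    intro y h1 h2 w
    rw [h]
    unfold bet
    simp only [Pi.zero_apply, zero_mul, Finset.sum_const_zero, add_zero]
    rw [Finset.sum_eq_single a]
    · rw [h1, h2]; simp
    · intro b _ hb
      rw [Pi.single_eq_of_ne hb, zero_mul]
    · intro h; exact absurd (mem_univ a) h
  have h1 : ∀ i, (Q.j x).2 i = 0 := by
    intro i
    obtain ⟨b, hb, hbi⟩ : ∃ b, b ≠ a ∧ π b = i := by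
      obtain ⟨b, b', hne, h1, h2⟩ := hπ.2 i
      by_cases h : b = a
      · exact ⟨b', fun h' => hne (h.trans h'.symm), h2⟩
      · exact ⟨b, h, h1⟩
    have h3 := (Q.prod x (ea b) (h0 _ (by simp [ea, Pi.single_eq_of_ne hb.symm])
      (by simp [ea]))).1 b
    unfold ea at h3
    simpa [hbi] using h3
  refine ⟨h1, fun b hb => ?_⟩
  have h3 := (Q.prod x (ej (π b)) (h0 _ (by simp [ej]) (by
    simp [ej, Pi.single_eq_of_ne hb.symm]))).1 b
  unfold ej at h3
  simpa using h3

theorem K_sub (hπ : Big π) (x : P) (i : J) : (Q.j x).2 i = 0 := by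
  obtain ⟨a, b, hne, ha, hb⟩ := hπ.2 i
  obtain ⟨T, hT⟩ := Q.ρs (Pi.single a 1, 0) (by simp)
  obtain ⟨h1, h2⟩ := Q.tor hπ hT
  have h3 := Q.swap T x (ea a)
  rw [bet_ea, bet_ea, hT, h1, mul_zero] at h3
  simpa [ha] using h3

theorem mu (hπ : Big π) {x : P} (h : (Q.ρ x).1 = 0) : Q.j x = 0 := by
  apply Prod.ext
  · funext a
    obtain ⟨T, hT⟩ := Q.ρs (Pi.single a 1, 0) (by simp)
    have h3 := Q.swap T x (ej (π a))
    rw [bet_ej, bet_ej, hT, h] at h3
    simp only [Pi.zero_apply, zero_mul, Finset.sum_const_zero, zero_add, add_zero,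
      (Q.tor hπ hT).1, mul_zero] at h3
    rw [Finset.sum_eq_single a] at h3
    · simpa using h3
    · intro b _ hb
      rw [Pi.single_eq_of_ne hb, zero_mul]
    · intro h
      exact absurd (by simp) h
  · funext i
    exact Q.K_sub hπ x i

/-- functionals with zero sum -/
def Lam (J A : Type) [Fintype J] : Submodule F (H J A) where
  carrier := {l | ∑ i, l.2 i = 0}
  add_mem' := by
    intro a b ha hb
    simp only [Set.mem_ofPred_eq] at ha hb ⊢
    simp [Finset.sum_add_distrib, ha, hb]
  zero_mem' := by simp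
  smul_mem' := by
    intro c a ha
    simp only [Set.mem_ofPred_eq] at ha ⊢
    simp [← Finset.mul_sum, ha]

theorem finrank_Lam [Nonempty J] :
    Module.finrank F (Lam J A) + 1 = Fintype.card A + Fintype.card J := by
  let s : H J A →ₗ[F] F :=
    (∑ i : J, LinearMap.proj i).comp (LinearMap.snd F (A → F) (J → F))
  have hs : ∀ l, s l = ∑ i, l.2 i := by
    intro l
    simp [s]
  have hk : Lam J A = LinearMap.ker s := by
    ext l
    rw [LinearMap.mem_ker, hs]
    exact Iff.rfl
  have h1 := LinearMap.finrank_range_add_finrank_ker s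
  have hsurj : LinearMap.range s = ⊤ := by
    rw [LinearMap.range_eq_top]
    intro c
    obtain ⟨i⟩ := ‹Nonempty J›
    refine ⟨(0, Pi.single i c), ?_⟩
    rw [hs]
    simp
  rw [hsurj, finrank_top, Module.finrank_self, ← hk] at h1
  have h2 : Module.finrank F (H J A) = Fintype.card A + Fintype.card J := by
    rw [Module.finrank_prod, Module.finrank_pi, Module.finrank_pi]
  omega

theorem range_rho : LinearMap.range Q.ρ = Lam J A := by
  ext l
  constructor
  · rintro ⟨x, rfl⟩
    exact Q.ρ0 x
  · intro h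
    obtain ⟨x, hx⟩ := Q.ρs l h
    exact ⟨x, hx⟩

/-- the span of the functionals of the components -/
noncomputable def E : Submodule F (H J A) := (LinearMap.ker Q.j).map Q.ρ

theorem E_eq : Q.E = Submodule.span F (Set.range fun S => Q.ρ (Q.z S)) := by
  have h : LinearMap.ker Q.j = Submodule.span F (Set.range Q.z) := by
    apply le_antisymm
    · intro x hx
      exact Q.ker x hx
    · rw [Submodule.span_le]
      rintro _ ⟨S, rfl⟩
      exact Q.jz S
  rw [E, h, Submodule.map_span, ← Set.range_comp]
  rfl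

theorem dim_j [Nonempty J] [Module.Finite F P] (hπ : Big π) :
    Module.finrank F (LinearMap.range Q.j) + Module.finrank F Q.E + 1 =
      Fintype.card A + Fintype.card J := by
  have h1 := LinearMap.finrank_range_add_finrank_ker Q.ρ
  rw [range_rho] at h1
  have h2 := LinearMap.finrank_range_add_finrank_ker Q.j
  have h4 : Module.finrank F ((LinearMap.ker Q.ρ).submoduleOf (LinearMap.ker Q.j)) =
      Module.finrank F (LinearMap.ker Q.ρ) :=
    (Submodule.submoduleOfEquivOfLe (fun x hx => Q.inj hπ hx)).finrank_eq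
  have h5 : Module.finrank F (LinearMap.ker (Q.ρ.domRestrict (LinearMap.ker Q.j))) =
      Module.finrank F (LinearMap.ker Q.ρ) := by
    rw [LinearMap.ker_domRestrict]
    exact h4
  have h6 : Module.finrank F (Submodule.map Q.ρ (LinearMap.ker Q.j)) +
      Module.finrank F (LinearMap.ker Q.ρ) = Module.finrank F (LinearMap.ker Q.j) := by
    rw [← h5, ← LinearMap.range_domRestrict]
    exact LinearMap.finrank_range_add_finrank_ker (Q.ρ.domRestrict (LinearMap.ker Q.j))
  have h7 := finrank_Lam (J := J) (A := A)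
  have h8 : Module.finrank F Q.E = Module.finrank F (Submodule.map Q.ρ (LinearMap.ker Q.j)) := rfl
  omega

theorem dim_D [Nonempty J] [Module.Finite F P] (hπ : Big π) :
    Module.finrank F D = 2 * (Module.finrank F Q.E + 1) := by
  have h1 := Q.dim_j hπ
  have h2 := LinearMap.finrank_range_add_finrank_ker
    (Q.Φ.comp (LinearMap.pi fun _ : C => LinearMap.id))
  have h3 : LinearMap.ker (Q.Φ.comp (LinearMap.pi fun _ : C => LinearMap.id)) =
      LinearMap.range Q.j := by
    ext y
    rw [LinearMap.mem_ker]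
    exact Q.K y
  rw [h3] at h2
  have h4 : Module.finrank F (H J A) = Fintype.card A + Fintype.card J := by
    rw [Module.finrank_prod, Module.finrank_pi, Module.finrank_pi]
  rw [Q.dim]
  omega

/-- the rank inequality -/
theorem rank_le [Module.Finite F D] (n : C → ℕ)
    (h : ∀ S, ∃ Y : (Fin (n S) → F) →ₗ[F] H J A, ∀ u,
      (∀ w, bet π (Q.ρ (Q.z S)) (Y u) w = 0) → u = 0) : ∑ S, n S ≤ Module.finrank F D := by
  choose Y hY using h
  let Ψ : (∀ S, Fin (n S) → F) →ₗ[F] D :=
    Q.Φ.comp (LinearMap.pi fun S => (Y S).comp (LinearMap.proj S))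
  have hinj : Function.Injective Ψ := by
    rw [← LinearMap.ker_eq_bot, LinearMap.ker_eq_bot']
    intro u hu
    funext S
    exact hY S (u S) (Q.Φz _ hu S)
  have h1 := LinearMap.finrank_le_finrank_of_injective hinj
  rw [Module.finrank_pi_fintype] at h1
  simpa using h1

open Classical in
/-- only relations with vanishing torus part -/
theorem no_torus [Module.Finite F P] [Module.Finite F D] (hπ : Big π) (S : C) :
    (Q.ρ (Q.z S)).1 = 0 := by
  obtain ⟨i0, i1, hne⟩ := hπ.1
  have hJ : Nonempty J := ⟨i0⟩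
  set e : C → H J A := fun S => Q.ρ (Q.z S) with he
  have hes : ∑ S, e S = 0 := by
    rw [he, ← map_sum, Q.zs, map_zero]
  have hsum : ∀ S, ∑ i, (e S).2 i = 0 := fun S => Q.ρ0 _
  set CA : Finset C := univ.filter (fun S => (e S).1 ≠ 0) with hCA
  set CK : Finset C := univ.filter (fun S => (e S).1 = 0 ∧ (e S).2 ≠ 0) with hCK
  set C3 : Finset C := univ.filter (fun S => (e S).1 ≠ 0 ∧ (e S).2 ≠ 0) with hC3
  have hE : Q.E = Submodule.span F (Set.range e) := Q.E_eq
  have hD := Q.dim_D hπ
  -- the special element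
  have hmu : ((0, Pi.single i0 1 + Pi.single i1 1) : H J A) ∈ Q.E := by
    obtain ⟨x, hx⟩ := Q.ρs (0, Pi.single i0 1 + Pi.single i1 1) (by
      simp only [Pi.add_apply, Finset.sum_add_distrib, Finset.sum_pi_single', Finset.mem_univ,
        if_true]
      decide)
    exact ⟨x, Q.mu hπ (by rw [hx]), hx⟩
  have hmu0 : (0 : J → F) ≠ Pi.single i0 1 + Pi.single i1 1 := by
    intro h
    have := congrFun h i0
    simp [Pi.single_eq_of_ne hne] at this
  -- rank count
  have hrank : 2 * (CA.card + CK.card) + C3.card ≤ Module.finrank F D := by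
    have h1 := Q.rank_le (fun S => if (e S).1 ≠ 0 ∧ (e S).2 ≠ 0 then 3 else
      if e S = 0 then 0 else 2) (by
      intro S
      by_cases h1 : (e S).1 ≠ 0 ∧ (e S).2 ≠ 0
      · rw [if_pos h1]
        exact rank_three π _ h1.1 h1.2 (hsum S)
      · by_cases h2 : e S = 0
        · rw [if_neg h1, if_pos h2]
          exact ⟨0, fun u _ => by ext i; exact i.elim0⟩
        · rw [if_neg h1, if_neg h2]
          exact rank_two π _ h2 (hsum S))
    refine le_trans (le_of_eq ?_) h1
    rw [hCA, hCK, hC3, Finset.card_filter, Finset.card_filter, Finset.card_filter,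
      ← Finset.sum_add_distrib, Finset.mul_sum, ← Finset.sum_add_distrib]
    refine Finset.sum_congr rfl fun S _ => ?_
    by_cases h1 : (e S).1 = 0 <;> by_cases h2 : (e S).2 = 0
    · have : e S = 0 := Prod.ext h1 h2
      simp [this]
    · have : e S ≠ 0 := fun h => h2 (by rw [h]; rfl)
      simp [h1, h2, this]
    · have : e S ≠ 0 := fun h => h1 (by rw [h]; rfl)
      simp [h1, h2, this]
    · have : e S ≠ 0 := fun h => h1 (by rw [h]; rfl)
      simp [h1, h2]
  -- the nonzero ones
  have hspan : Q.E ≤ Submodule.span F (e '' (CA ∪ CK : Finset C)) := by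
    rw [hE, Submodule.span_le]
    rintro _ ⟨S, rfl⟩
    by_cases h0 : e S = 0
    · rw [h0]; exact Submodule.zero_mem _
    · refine Submodule.subset_span ⟨S, ?_, rfl⟩
      rw [Finset.mem_coe, Finset.mem_union, hCA, hCK, Finset.mem_filter, Finset.mem_filter]
      by_cases h1 : (e S).1 = 0
      · right
        exact ⟨mem_univ _, h1, fun h2 => h0 (Prod.ext h1 h2)⟩
      · left
        exact ⟨mem_univ _, h1⟩
  have hdisj : Disjoint CA CK := by
    rw [Finset.disjoint_left]
    intro S h1 h2
    rw [hCA, mem_filter] at h1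
    rw [hCK, mem_filter] at h2
    exact h1.2 h2.2.1
  have hsumU : ∑ S ∈ CA ∪ CK, e S = 0 := by
    rw [← hes]
    refine Finset.sum_subset (subset_univ _) ?_
    intro S _ hS
    by_contra h0
    apply hS
    rw [Finset.mem_union, hCA, hCK, Finset.mem_filter, Finset.mem_filter]
    by_cases h1 : (e S).1 = 0
    · right
      exact ⟨mem_univ _, h1, fun h2 => h0 (Prod.ext h1 h2)⟩
    · left
      exact ⟨mem_univ _, h1⟩
  have hE0 : Q.E ≠ ⊥ := by
    intro h
    rw [h, Submodule.mem_bot] at hmu
    exact hmu0 (congrArg Prod.snd hmu).symm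
  have hUne : (CA ∪ CK).Nonempty := by
    by_contra h
    rw [Finset.not_nonempty_iff_eq_empty] at h
    apply hE0
    rw [eq_bot_iff]
    refine hspan.trans ?_
    rw [h]
    simp
  have hfinspan : ∀ T : Finset C, Module.Finite F (Submodule.span F (e '' T)) := by
    intro T
    rw [← Finset.coe_image]
    infer_instance
  have hfU := hfinspan (CA ∪ CK)
  have hcard := span_card (CA ∪ CK) e hsumU hUne
  have hle := Submodule.finrank_mono hspan
  rw [Finset.card_union_of_disjoint hdisj] at hcard
  have hC30 : C3.card = 0 := by omega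
  have hno : ∀ S, (e S).1 = 0 ∨ (e S).2 = 0 := by
    intro S
    by_contra h
    push Not at h
    rw [Finset.card_eq_zero] at hC30
    have : S ∈ C3 := by
      rw [hC3, mem_filter]
      exact ⟨mem_univ _, h⟩
    rw [hC30] at this
    simp at this
  -- now CA is empty
  by_contra hS
  have hSA : S ∈ CA := by
    rw [hCA, mem_filter]
    exact ⟨mem_univ _, hS⟩
  have hsumA : ∑ S ∈ CA, e S = 0 := by
    apply Prod.ext
    · rw [Prod.fst_sum]
      have h1 : ∑ S, (e S).1 = 0 := by
        have := congrArg Prod.fst hes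
        rwa [Prod.fst_sum] at this
      refine Eq.trans ?_ h1
      refine Finset.sum_subset (subset_univ _) ?_
      intro T _ hT
      by_contra h
      exact hT (by rw [hCA, mem_filter]; exact ⟨mem_univ _, h⟩)
    · rw [Prod.snd_sum]
      refine Finset.sum_eq_zero fun T hT => ?_
      rw [hCA, mem_filter] at hT
      exact (hno T).resolve_left hT.2
  have hsumK : ∑ S ∈ CK, e S = 0 := by
    rw [Finset.sum_union hdisj, hsumA, zero_add] at hsumU
    exact hsumU
  have hKne : CK.Nonempty := by
    by_contra h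
    rw [Finset.not_nonempty_iff_eq_empty] at h
    have h2 : Q.E ≤ LinearMap.ker (LinearMap.snd F (A → F) (J → F)) := by
      rw [hE, Submodule.span_le]
      rintro _ ⟨T, rfl⟩
      change (e T).2 = 0
      rcases hno T with h3 | h3
      · by_contra h4
        have : T ∈ CK := by
          rw [hCK, mem_filter]
          exact ⟨mem_univ _, h3, h4⟩
        rw [h] at this
        simp at this
      · exact h3
    exact hmu0 (LinearMap.mem_ker.1 (h2 hmu)).symm
  have hA := span_card CA e hsumA ⟨S, hSA⟩
  have hK := span_card CK e hsumK hKne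
  have hfA := hfinspan CA
  have hfK := hfinspan CK
  have h5 : Submodule.span F (e '' (CA ∪ CK : Finset C)) =
      Submodule.span F (e '' CA) ⊔ Submodule.span F (e '' CK) := by
    rw [Finset.coe_union, Set.image_union, Submodule.span_union]
  rw [h5] at hle
  have h6 := Submodule.finrank_add_le_finrank_add_finrank
    (Submodule.span F (e '' (CA : Set C))) (Submodule.span F (e '' (CK : Set C)))
  omega

/-- **the conclusion of the structure theorem** -/
theorem concl [Module.Finite F P] [Module.Finite F D] (hπ : Big π) :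
    Module.finrank F D = 2 * Fintype.card J ∧ ∀ y : H J A, y.2 = 0 → Q.Φ (fun _ => y) = 0 := by
  obtain ⟨i0, i1, hne⟩ := hπ.1
  have hJ : Nonempty J := ⟨i0⟩
  have hE : Q.E = (LinearMap.ker (LinearMap.fst F (A → F) (J → F))) ⊓ Lam J A := by
    apply le_antisymm
    · rw [E_eq, Submodule.span_le]
      rintro _ ⟨S, rfl⟩
      exact ⟨Q.no_torus hπ S, Q.ρ0 _⟩
    · rintro l ⟨h1, h2⟩
      obtain ⟨x, hx⟩ := Q.ρs l h2
      exact ⟨x, Q.mu hπ (by rw [hx]; exact h1), hx⟩
  have hdE : Module.finrank F Q.E + 1 = Fintype.card J := by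
    let s : (J → F) →ₗ[F] F := ∑ i : J, LinearMap.proj i
    have hs : ∀ l, s l = ∑ i, l i := by
      intro l
      simp [s]
    have h1 := LinearMap.finrank_range_add_finrank_ker s
    have hsurj : LinearMap.range s = ⊤ := by
      rw [LinearMap.range_eq_top]
      intro c
      refine ⟨Pi.single i0 c, ?_⟩
      rw [hs]
      simp
    rw [hsurj, finrank_top, Module.finrank_self, Module.finrank_pi] at h1
    have h2 : Module.finrank F (LinearMap.ker s) = Module.finrank F Q.E := by
      have h3 : Q.E = (LinearMap.ker s).map (LinearMap.inr F (A → F) (J → F)) := by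
        rw [hE]
        ext l
        constructor
        · rintro ⟨h1, h2⟩
          refine ⟨l.2, ?_, ?_⟩
          · change s l.2 = 0
            rw [hs]; exact h2
          · exact Prod.ext (LinearMap.mem_ker.1 h1).symm rfl
        · rintro ⟨m, hm, rfl⟩
          refine ⟨rfl, ?_⟩
          change ∑ i, m i = 0
          rw [← hs]; exact hm
      rw [h3]
      exact (Submodule.equivMapOfInjective _ LinearMap.inr_injective _).finrank_eq
    omega
  refine ⟨by rw [Q.dim_D hπ, hdE], ?_⟩
  intro y hy
  rw [Q.K y]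
  have h1 := Q.dim_j hπ
  have h2 : LinearMap.range Q.j ≤ LinearMap.ker (LinearMap.snd F (A → F) (J → F)) := by
    rintro _ ⟨x, rfl⟩
    rw [LinearMap.mem_ker]
    funext i
    exact Q.K_sub hπ x i
  have h3 : Module.finrank F (LinearMap.ker (LinearMap.snd F (A → F) (J → F))) =
      Module.finrank F (LinearMap.range Q.j) := by
    have h3 := LinearMap.finrank_range_add_finrank_ker (LinearMap.snd F (A → F) (J → F))
    rw [LinearMap.range_eq_top.2 LinearMap.snd_surjective, finrank_top, Module.finrank_prod,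
      Module.finrank_pi, Module.finrank_pi] at h3
    omega
  have h4 : LinearMap.range Q.j = LinearMap.ker (LinearMap.snd F (A → F) (J → F)) :=
    Submodule.eq_of_le_of_finrank_eq h2 h3.symm
  have h5 : y ∈ LinearMap.range Q.j := by
    rw [h4, LinearMap.mem_ker]
    exact hy
  exact h5

end Dat

end Pool.Agent.L7h59.M3.Alg
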