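import Mathlib
import Pool.Agent.H815.HF.InvDom

/-! The boundary of a topological 3-manifold with boundary. -/

set_option autoImplicit false
set_option linter.unusedVariables false
set_option linter.unusedSectionVars false

namespace Pool.Agent.L7h59.M3

open Set Topology

/-- space -/
abbrev E3 : Type := EuclideanSpace ℝ (Fin 3)
/-- half space -/
abbrev Hf : Type := EuclideanHalfSpace 3

/-- change of the first coordinate -/
noncomputable def upd (u : E3) (c : ℝ) : E3 := WithLp.toLp 2 (Function.update u.ofLp 0 c)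

theorem upd_zero (u : E3) (c : ℝ) : upd u c 0 = c := by
  simp [upd]

theorem upd_ne (u : E3) (c : ℝ) {i : Fin 3} (h : i ≠ 0) : upd u c i = u i := by
  simp [upd, h]

theorem upd_self (u : E3) : upd u (u 0) = u := by
  ext i
  by_cases h : i = 0
  · subst h; rw [upd_zero]
  · rw [upd_ne _ _ h]

theorem upd_upd (u : E3) (c d : ℝ) : upd (upd u c) d = upd u d := by
  ext i
  by_cases h : i = 0
  · subst h; rw [upd_zero, upd_zero]
  · rw [upd_ne _ _ h, upd_ne _ _ h, upd_ne _ _ h]

theorem continuous_upd {A : Type*} [TopologicalSpace A] {f : A → E3} {g : A → ℝ}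
    (hf : Continuous f) (hg : Continuous g) : Continuous fun a => upd (f a) (g a) := by
  unfold upd
  refine (PiLp.continuous_toLp 2 _).comp ?_
  refine Continuous.update ?_ 0 hg
  exact (PiLp.continuous_ofLp 2 _).comp hf

/-- retraction onto the half space -/
noncomputable def rho (u : E3) : Hf := ⟨upd u (max (u 0) 0), by rw [upd_zero]; exact le_max_right _ _⟩

theorem continuous_rho : Continuous rho := by
  refine Continuous.subtype_mk (continuous_upd continuous_id ?_) _
  exact ((PiLp.continuous_apply 2 _ 0)).max continuous_const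

theorem rho_coe (y : Hf) : rho y.1 = y := by
  apply Subtype.ext
  change upd y.1 (max (y.1 0) 0) = y.1
  rw [max_eq_left y.2, upd_self]

theorem rho_val {u : E3} (h : 0 ≤ u 0) : (rho u).1 = u := by
  change upd u (max (u 0) 0) = u
  rw [max_eq_left h, upd_self]

variable {M : Type} [TopologicalSpace M]

/-- interior points stay interior -/
theorem int_inv (e e' : OpenPartialHomeomorph M Hf) {x : M} (hx : x ∈ e.source)
    (hx' : x ∈ e'.source) (h : 0 < (e x).1 0) : 0 < (e' x).1 0 := by
  by_contra hcon
  have h0 : (e' x).1 0 = 0 := le_antisymm (not_lt.1 hcon) (e' x).2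
  set g := e.symm.trans e' with hg
  have hgx : e x ∈ g.source := by
    rw [hg, OpenPartialHomeomorph.trans_source]
    refine ⟨e.map_source hx, ?_⟩
    change e.symm (e x) ∈ e'.source
    rwa [e.left_inv hx]
  have hT : {u : E3 | 0 < u 0 ∧ rho u ∈ g.source} ∈ 𝓝 ((e x).1) := by
    refine Filter.inter_mem ?_ ?_
    · exact (isOpen_lt continuous_const (PiLp.continuous_apply 2 _ 0)).mem_nhds h
    · refine (g.open_source.preimage continuous_rho).mem_nhds ?_
      change rho (e x).1 ∈ g.source
      rwa [rho_coe]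
  obtain ⟨r, hr, hball⟩ := Metric.nhds_basis_closedBall.mem_iff.1 hT
  have hmem := Pool.Agent.H815.HF.InvDom.image_mem_nhds (fun u : E3 => (g (rho u)).1) (e x).1 r hr (by
    refine continuous_subtype_val.comp_continuousOn ?_
    refine g.continuousOn.comp continuous_rho.continuousOn ?_
    exact fun u hu => (hball hu).2) (by
    intro u hu v hv huv
    have h1 : g (rho u) = g (rho v) := Subtype.ext huv
    have h2 := g.injOn (hball hu).2 (hball hv).2 h1
    have h3 := congrArg Subtype.val h2
    rwa [rho_val (hball hu).1.le, rho_val (hball hv).1.le] at h3)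
  have hge : (g (rho (e x).1)).1 = (e' x).1 := by
    rw [rho_coe]
    change (e' (e.symm (e x))).1 = _
    rw [e.left_inv hx]
  rw [hge] at hmem
  have h3 : {y : E3 | 0 ≤ y 0} ∈ 𝓝 (e' x).1 := by
    refine Filter.mem_of_superset hmem ?_
    rintro _ ⟨u, -, rfl⟩
    exact (g (rho u)).2
  have h4 : Filter.Tendsto (fun t : ℝ => upd (e' x).1 t) (𝓝 0) (𝓝 (e' x).1) := by
    have h5 := (continuous_upd (f := fun _ : ℝ => (e' x).1) (g := fun t => t) continuous_const
      continuous_id).tendsto 0
    have h6 : upd (e' x).1 0 = (e' x).1 := by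
      have h7 := upd_self (e' x).1
      rwa [h0] at h7
    rwa [h6] at h5
  have h7 := h4 h3
  obtain ⟨s, hs, hs2⟩ := Metric.mem_nhds_iff.1 h7
  have h8 : (-(s / 2)) ∈ Metric.ball (0 : ℝ) s := by
    rw [Metric.mem_ball, Real.dist_eq, sub_zero, abs_neg, abs_of_pos (by linarith)]
    linarith
  have h9 : (0 : ℝ) ≤ upd (e' x).1 (-(s / 2)) 0 := hs2 h8
  rw [upd_zero] at h9
  linarith

/-- independence of the chart -/
theorem bd_inv (e e' : OpenPartialHomeomorph M Hf) {x : M} (hx : x ∈ e.source)
    (hx' : x ∈ e'.source) : (e x).1 0 = 0 ↔ (e' x).1 0 = 0 := by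
  constructor
  · intro h
    by_contra h'
    exact (int_inv e' e hx' hx (lt_of_le_of_ne (e' x).2 (Ne.symm h'))).ne' h
  · intro h
    by_contra h'
    exact (int_inv e e' hx hx' (lt_of_le_of_ne (e x).2 (Ne.symm h'))).ne' h

section

variable (M) [ChartedSpace Hf M]

/-- the boundary -/
def bd : Set M := {x | (chartAt Hf x x).1 0 = 0}

variable {M}

theorem mem_bd {x : M} (e : OpenPartialHomeomorph M Hf) (hx : x ∈ e.source) :
    x ∈ bd M ↔ (e x).1 0 = 0 := bd_inv _ _ (mem_chart_source Hf x) hx

theorem isClosed_bd : IsClosed (bd M) := by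
  rw [← isOpen_compl_iff, isOpen_iff_mem_nhds]
  intro x hx
  have h1 : 0 < (chartAt Hf x x).1 0 := lt_of_le_of_ne (chartAt Hf x x).2 (Ne.symm hx)
  have h2 : ContinuousOn (fun y => (chartAt Hf x y).1 0) (chartAt Hf x).source := by
    have h3 : Continuous (fun u : Hf => u.1 0) :=
      (PiLp.continuous_apply 2 _ 0).comp continuous_subtype_val
    exact h3.comp_continuousOn (chartAt Hf x).continuousOn
  have h3 := h2.isOpen_inter_preimage (chartAt Hf x).open_source (isOpen_Ioi (a := (0 : ℝ)))
  refine Filter.mem_of_superset (h3.mem_nhds ⟨mem_chart_source Hf x, h1⟩) ?_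
  rintro y ⟨hy1, hy2⟩ hy
  rw [mem_bd _ hy1] at hy
  exact absurd hy (ne_of_gt hy2)

end

end Pool.Agent.L7h59.M3
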