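import Pool.Agent.L7h59.M3.Iso

/-! The closed case. -/

set_option autoImplicit false
set_option linter.unusedVariables false
set_option linter.unusedSectionVars false

namespace Pool.Agent.L7h59.M3

open Set Topology
open Pool.Agent.Helper158.PD Pool.Agent.Helper158.TC
open Pool.Agent.Helper922.HB.Sc (Sing sface altd vert)
open Alg (H ea ej bet)

/-- duality data on a closed manifold -/
structure Clo (M : Type) [TopologicalSpace M] where
  I : Hc M 3 →ₗ[F2] F2
  nd12 : ∀ x : Hc M 1, (∀ b : Hc M 2, I (cupH h12 x b) = 0) → x = 0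
  nd21 : ∀ x : Hc M 2, (∀ b : Hc M 1, I (cupH h21 x b) = 0) → x = 0
  fin : ∀ p, Module.Finite F2 (Hc M p)

theorem exists_clo (M : Type) [TopologicalSpace M] [CompactSpace M] [T2Space M]
    [ChartedSpace (EuclideanSpace ℝ (Fin 3)) M] [CompletelyNormalSpace M] [T4Space M] :
    Nonempty (Clo M) := by
  obtain ⟨I, hI, hnd, hfin, hR⟩ := fund M 2
  let J : Hc M 3 →ₗ[F2] F2 := Submodule.liftQ _ (I.1.comp (Cy M 3).subtype) (by
    rintro a ⟨b, hb⟩
    change I.1 a.1 = 0
    have h1 : dl 2 b = a.1 := hb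
    rw [← h1, hI])
  have hJ : ∀ (u : Co M 3) (hu : u ∈ Cy M 3), J (cls u hu) = I.1 u := fun u hu => rfl
  refine ⟨⟨J, ?_, ?_, hfin⟩⟩
  · intro y h
    obtain ⟨a, ha, rfl⟩ := cls_surj y
    rw [cls_eq_zero]
    apply hnd 1 2 rfl a ha
    intro b hb
    have h1 := h (cls b hb)
    rwa [cupH_cls, hJ] at h1
  · intro y h
    obtain ⟨a, ha, rfl⟩ := cls_surj y
    rw [cls_eq_zero]
    apply hnd 2 1 rfl a ha
    intro b hb
    have h1 := h (cls b hb)
    rwa [cupH_cls, hJ] at h1

namespace Clo

variable {M : Type} [TopologicalSpace M] (Q : Clo M)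

/-- pairing -/
noncomputable def B12 : Hc M 1 →ₗ[F2] Hc M 2 →ₗ[F2] F2 := (cupH h12).compr₂ Q.I

/-- pairing -/
noncomputable def B21 : Hc M 2 →ₗ[F2] Hc M 1 →ₗ[F2] F2 := (cupH h21).compr₂ Q.I

include Q in
theorem finrank_eq : Module.finrank F2 (Hc M 1) = Module.finrank F2 (Hc M 2) := by
  have := Q.fin 1
  have := Q.fin 2
  apply le_antisymm
  · have h1 : Function.Injective Q.B12 := by
      rw [← LinearMap.ker_eq_bot, LinearMap.ker_eq_bot']
      intro x hx
      exact Q.nd12 x (fun b => LinearMap.congr_fun hx b)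
    have h2 := LinearMap.finrank_le_finrank_of_injective h1
    rwa [Subspace.dual_finrank_eq (K := F2) (V := Hc M 2)] at h2
  · have h1 : Function.Injective Q.B21 := by
      rw [← LinearMap.ker_eq_bot, LinearMap.ker_eq_bot']
      intro x hx
      exact Q.nd21 x (fun b => LinearMap.congr_fun hx b)
    have h2 := LinearMap.finrank_le_finrank_of_injective h1
    rwa [Subspace.dual_finrank_eq (K := F2) (V := Hc M 1)] at h2

theorem B21_surj : Function.Surjective Q.B21 := by
  have := Q.fin 1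
  have := Q.fin 2
  have h1 : Function.Injective Q.B21 := by
    rw [← LinearMap.ker_eq_bot, LinearMap.ker_eq_bot']
    intro x hx
    exact Q.nd21 x (fun b => LinearMap.congr_fun hx b)
  refine (LinearMap.injective_iff_surjective_of_finrank_eq_finrank ?_).1 h1
  rw [← Q.finrank_eq]
  exact (Subspace.dual_finrank_eq (K := F2) (V := Hc M 1)).symm

theorem nd_right {x : Hc M 1} (h : ∀ b : Hc M 2, Q.I (cupH h21 b x) = 0) : x = 0 := by
  rw [← Module.forall_dual_apply_eq_zero_iff F2 x]
  intro f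
  obtain ⟨b, rfl⟩ := Q.B21_surj f
  exact h b

theorem surj_right (l : Hc M 2 →ₗ[F2] F2) : ∃ x : Hc M 1, ∀ b : Hc M 2,
    Q.I (cupH h21 b x) = l b := by
  have := Q.fin 1
  have := Q.fin 2
  have h1 : Function.Injective Q.B21.flip := by
    rw [← LinearMap.ker_eq_bot, LinearMap.ker_eq_bot']
    intro x hx
    exact Q.nd_right (fun b => LinearMap.congr_fun hx b)
  have h2 : Function.Surjective Q.B21.flip := by
    refine (LinearMap.injective_iff_surjective_of_finrank_eq_finrank ?_).1 h1
    rw [Q.finrank_eq]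
    exact (Subspace.dual_finrank_eq (K := F2) (V := Hc M 2)).symm
  obtain ⟨x, hx⟩ := h2 l
  exact ⟨x, fun b => LinearMap.congr_fun hx b⟩

variable [PathConnectedSpace M] {x₀ : M} {Γ : Type} [Group Γ]
  {J A : Type} [Fintype J] [Fintype A] [DecidableEq J] [DecidableEq A] {π : A → J}
  (L : Lab M x₀ Γ) (R : Pres Γ π)

/-- the functional on `H²(M)` of a class -/
noncomputable def fl : Hc M 1 →ₗ[F2] Hc M 2 →ₗ[F2] F2 := (Q.B21).flip

theorem fl_apply (x : Hc M 1) (h : Hc M 2) : Q.fl x h = Q.I (cupH h21 h x) := rfl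

/-- coordinates of the functional -/
noncomputable def rhoL : Hc M 1 →ₗ[F2] H J A :=
  (LinearMap.pi fun a => ((Q.fl).flip (Ta L R a))).prod
    (LinearMap.pi fun j => ((Q.fl).flip (Sj L R j)))

theorem rhoL_fst (x : Hc M 1) (a : A) : (Q.rhoL L R x).1 a = Q.fl x (Ta L R a) := rfl
theorem rhoL_snd (x : Hc M 1) (j : J) : (Q.rhoL L R x).2 j = Q.fl x (Sj L R j) := rfl

theorem bet_rho (x : Hc M 1) (y w : H J A) :
    bet π (Q.rhoL L R x) y w = Q.fl x (pr L R y w) := (bet_functional L R (Q.fl x) y w).symm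

/-- symmetry of triple products -/
theorem triple (a b c : Hc M 1) : Q.I (cupH h21 (cupH h11 a b) c) =
    Q.I (cupH h21 (cupH h11 a c) b) := by
  rw [cupH_assoc h11 h21 h11 h12, cupH_comm b c, ← cupH_assoc h11 h21 h11 h12]

theorem rho_zero_sum (x : Hc M 1) : ∑ i, (Q.rhoL L R x).2 i = 0 := by
  simp only [rhoL_snd]
  rw [← map_sum, sum_Sj, map_zero]

theorem rho_surj (l : H J A) (hl : ∑ i, l.2 i = 0) : ∃ x : Hc M 1, Q.rhoL L R x = l := by
  classical
  let Θ : H J A →ₗ[F2] Hc M 2 :=
    (Fintype.linearCombination F2 (Ta L R)).coprod (Fintype.linearCombination F2 (Sj L R))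
  have hΘ : ∀ y : H J A, Θ y = ∑ a, y.1 a • Ta L R a + ∑ j, y.2 j • Sj L R j := by
    intro y
    simp only [Θ, LinearMap.coprod_apply, Fintype.linearCombination_apply]
  let g : H J A →ₗ[F2] F2 :=
    (Fintype.linearCombination F2 l.1).coprod (Fintype.linearCombination F2 l.2)
  have hg : ∀ y : H J A, g y = ∑ a, y.1 a * l.1 a + ∑ j, y.2 j * l.2 j := by
    intro y
    simp only [g, LinearMap.coprod_apply, Fintype.linearCombination_apply, smul_eq_mul]
  have h1 : g ∈ (LinearMap.ker Θ).dualAnnihilator := by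
    rw [Submodule.mem_dualAnnihilator]
    intro y hy
    rw [LinearMap.mem_ker, hΘ] at hy
    obtain ⟨h1, h2⟩ := indep_prod L R hy
    rw [hg]
    simp only [h1, zero_mul, Finset.sum_const_zero, zero_add]
    by_cases hJ : Nonempty J
    · obtain ⟨i⟩ := hJ
      have : ∀ j, y.2 j * l.2 j = y.2 i * l.2 j := fun j => by rw [h2 j i]
      simp only [this]
      rw [← Finset.mul_sum, hl, mul_zero]
    · rw [not_nonempty_iff] at hJ
      exact Finset.sum_of_isEmpty _
  rw [← LinearMap.range_dualMap_eq_dualAnnihilator_ker] at h1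
  obtain ⟨φ, hφ⟩ := h1
  obtain ⟨x, hx2⟩ := Q.surj_right φ
  refine ⟨x, ?_⟩
  have h2 : ∀ y, φ (Θ y) = g y := fun y => LinearMap.congr_fun hφ y
  apply Prod.ext
  · funext a
    rw [rhoL_fst, fl_apply, hx2]
    have h3 := h2 (ea a)
    rw [hΘ, hg] at h3
    simpa [ea, Pi.single_apply] using h3
  · funext j
    rw [rhoL_snd, fl_apply, hx2]
    have h3 := h2 (ej j)
    rw [hΘ, hg] at h3
    simpa [ej, Pi.single_apply] using h3

/-- the data of the structure theorem -/
noncomputable def dat : Alg.Dat π (Hc M 1) (Fin 0 → F2) Empty where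
  ρ := Q.rhoL L R
  j := co L R
  ρ0 x := Q.rho_zero_sum L R x
  ρs l hl := Q.rho_surj L R l hl
  prod x y h := by
    have h1 : cupH h11 (El L R y) x = 0 := by
      apply Q.nd21
      intro b
      rw [triple]
      have h2 := h (co L R b)
      rw [bet_rho] at h2
      unfold pr at h2
      rwa [El_co] at h2
    have h3 : pr L R y (co L R x) = 0 := by
      unfold pr
      rw [El_co]
      exact h1
    rw [pr_comm, pr_formula] at h3
    exact indep_prod L R h3
  swap x x' w := by
    rw [bet_rho, bet_rho]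
    unfold pr
    rw [El_co, El_co, fl_apply, fl_apply]
    rw [triple, cupH_comm x' x, triple]
  z S := S.elim
  jz S := S.elim
  zs := rfl
  ker x hx := by
    rw [co_inj L R hx]
    exact zero_mem _
  Φ := 0
  Φz y hy S := S.elim
  K y := by
    constructor
    · intro _
      exact co_surj L R y
    · intro _
      rfl
  dim := by
    rw [Module.finrank_fin_fun, LinearMap.zero_comp, LinearMap.range_zero, finrank_bot]

include Q in
/-- no closed manifold -/
theorem absurd_closed (L : Lab M x₀ Γ) (R : Pres Γ π) (hπ : Alg.Dat.Big π) : False := by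
  have := Q.fin 1
  obtain ⟨h1, -⟩ := (dat Q L R).concl hπ
  rw [Module.finrank_fin_fun] at h1
  obtain ⟨i, i', h⟩ := hπ.1
  have : 0 < Fintype.card J := Fintype.card_pos_iff.2 ⟨i⟩
  omega

end Clo

end Pool.Agent.L7h59.M3
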