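import Pool.Agent.Helper158.TC.Lib

/-! Cochain utilities: pullback, extension from small simplices, Mayer-Vietoris. -/

set_option autoImplicit false
set_option linter.unusedVariables false

namespace Pool.Agent.L7h59.M3

open Set Topology
open Pool.Agent.Helper158.PD Pool.Agent.Helper158.TC
open Pool.Agent.Helper922.HB.Sc (Sing sface altd vert)

section pull

variable {A B D : Type} [TopologicalSpace A] [TopologicalSpace B] [TopologicalSpace D]

/-- pullback of cochains -/
def pull (f : C(A, B)) (n : ℕ) : Co B n →ₗ[F2] Co A n where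
  toFun u σ := u (f.comp σ)
  map_add' _ _ := rfl
  map_smul' _ _ := rfl

theorem pull_apply (f : C(A, B)) (n : ℕ) (u : Co B n) (σ : Sing A n) :
    pull f n u σ = u (f.comp σ) := rfl

theorem dl_pull (f : C(A, B)) (n : ℕ) (u : Co B n) :
    dl n (pull f n u) = pull f (n + 1) (dl n u) := by
  funext σ
  rw [pull_apply, dl_apply, dl_apply]
  rfl

theorem pull_cup (f : C(A, B)) {p q r : ℕ} (h : p + q = r) (a : Co B p) (b : Co B q) :
    pull f r (cup h a b) = cup h (pull f p a) (pull f q b) := rfl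

theorem pull_pull (f : C(A, B)) (g : C(B, D)) (n : ℕ) (u : Co D n) :
    pull f n (pull g n u) = pull (g.comp f) n u := rfl

theorem pull_id (n : ℕ) (u : Co A n) : pull (ContinuousMap.id A) n u = u := rfl

theorem pull_Cy (f : C(A, B)) {n : ℕ} {u : Co B n} (hu : u ∈ Cy B n) : pull f n u ∈ Cy A n := by
  change dl n (pull f n u) = 0
  have h : dl n u = 0 := hu
  rw [dl_pull, h, map_zero]

theorem pull_Bd (f : C(A, B)) {n : ℕ} {u : Co B n} (hu : u ∈ Bd B n) : pull f n u ∈ Bd A n := by
  cases n with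
  | zero =>
    have h : u = 0 := hu
    rw [h, map_zero]
    exact zero_mem _
  | succ n =>
    obtain ⟨v, rfl⟩ := hu
    exact ⟨pull f n v, dl_pull f n v⟩

end pull

theorem mem_Cy {X : Type} [TopologicalSpace X] {n : ℕ} {u : Co X n} : u ∈ Cy X n ↔ dl n u = 0 := Iff.rfl

theorem mem_Bd_succ {X : Type} [TopologicalSpace X] {n : ℕ} {u : Co X (n + 1)} :
    u ∈ Bd X (n + 1) ↔ ∃ v, dl n v = u := Iff.rfl

theorem Bd_le_Cy {X : Type} [TopologicalSpace X] (n : ℕ) : Bd X n ≤ Cy X n := by
  intro u hu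
  cases n with
  | zero =>
    have h : u = 0 := hu
    rw [h]; exact zero_mem _
  | succ n =>
    obtain ⟨v, rfl⟩ := hu
    exact dl_dl n v

/-- extension of cocycles defined on small simplices -/
theorem ext_small {B : Type} [TopologicalSpace B] {n : ℕ} (W : Set (Set B))
    (hW : ∀ V ∈ W, IsOpen V) (hc : ∀ b : B, ∃ V ∈ W, b ∈ V) (u : Co B n)
    (hu : ∀ σ : Sing B (n + 1), (∃ V ∈ W, range σ ⊆ V) → dl n u σ = 0) :
    ∃ u' : Co B n, dl n u' = 0 ∧ ∀ σ : Sing B n, (∃ V ∈ W, range σ ⊆ V) → u' σ = u σ := by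
  refine ⟨fun σ => Pool.Agent.Helper922.HB.Sc.evc u
    (Pool.Agent.Helper922.HB.Sc.rho W n (Finsupp.single σ 1)), ?_, ?_⟩
  · funext τ
    change altd F2 (sface (X := B)) n (fun σ => Pool.Agent.Helper922.HB.Sc.evc u
      (Pool.Agent.Helper922.HB.Sc.rho W n (Finsupp.single σ 1))) τ = 0
    rw [Pool.Agent.Helper922.HB.Sc.altd_eq_ev]
    have h1 : Finsupp.linearCombination ℤ (fun σ => Pool.Agent.Helper922.HB.Sc.evc u
      (Pool.Agent.Helper922.HB.Sc.rho W n (Finsupp.single σ 1))) =
        (Pool.Agent.Helper922.HB.Sc.evc u).comp (Pool.Agent.Helper922.HB.Sc.rho W n) := by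
      apply Finsupp.lhom_ext'
      intro σ
      apply LinearMap.ext_ring
      simp only [LinearMap.comp_apply, Finsupp.lsingle_apply, Finsupp.linearCombination_single,
        one_smul]
    rw [h1, LinearMap.comp_apply, ← Pool.Agent.Helper922.HB.Sc.sbd_rho,
      ← Pool.Agent.Helper922.HB.Sc.ev_altd]
    have h2 := Pool.Agent.Helper922.HB.Sc.evc_congr
      (Pool.Agent.Helper922.HB.Sc.smallSet W (n + 1)) (altd F2 (sface (X := B)) n u) 0
        (fun σ hσ => hu σ hσ) _
        (Pool.Agent.Helper922.HB.Sc.rho_small W hW hc (n + 1) (Finsupp.single τ 1))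
    refine h2.trans ?_
    simp [Pool.Agent.Helper922.HB.Sc.evc]
  · intro σ hσ
    change Pool.Agent.Helper922.HB.Sc.evc u
      (Pool.Agent.Helper922.HB.Sc.rho W n (Finsupp.single σ 1)) = _
    rw [Pool.Agent.Helper922.HB.Sc.rho_id W n _
      (Pool.Agent.Helper922.HB.Sc.single_mem_supported' (s :=
        Pool.Agent.Helper922.HB.Sc.smallSet W n) hσ),
      Pool.Agent.Helper922.HB.Sc.evc_single]

end Pool.Agent.L7h59.M3
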