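import Pool.Agent.L7h59.M3.MV

/-! The mod 2 cohomology ring. -/

set_option autoImplicit false
set_option linter.unusedVariables false

namespace Pool.Agent.L7h59.M3

open Set Topology
open Pool.Agent.Helper158.PD Pool.Agent.Helper158.TC
open Pool.Agent.Helper922.HB.Sc (Sing sface altd vert)

section

variable {X : Type} [TopologicalSpace X]

/-- the class of a cocycle -/
noncomputable def cls {p : ℕ} (u : Co X p) (hu : u ∈ Cy X p) : Hc X p := Submodule.Quotient.mk ⟨u, hu⟩

theorem cls_surj {p : ℕ} (x : Hc X p) : ∃ (u : Co X p) (hu : u ∈ Cy X p), cls u hu = x := by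
  obtain ⟨⟨u, hu⟩, rfl⟩ := Submodule.Quotient.mk_surjective _ x
  exact ⟨u, hu, rfl⟩

theorem cls_eq_zero {p : ℕ} {u : Co X p} (hu : u ∈ Cy X p) : cls u hu = 0 ↔ u ∈ Bd X p := by
  rw [cls, Submodule.Quotient.mk_eq_zero]
  exact Iff.rfl

theorem cls_add {p : ℕ} {u v : Co X p} (hu : u ∈ Cy X p) (hv : v ∈ Cy X p) :
    cls (u + v) (Submodule.add_mem _ hu hv) = cls u hu + cls v hv := rfl

theorem cls_smul {p : ℕ} (r : F2) {u : Co X p} (hu : u ∈ Cy X p) :
    cls (r • u) (Submodule.smul_mem _ r hu) = r • cls u hu := rfl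

theorem hc_add_self {p : ℕ} (x : Hc X p) : x + x = 0 := by
  have h : (2 : F2) • x = x + x := two_smul F2 x
  have h2 : (2 : F2) = 0 := by decide
  rw [← h, h2, zero_smul]

theorem hc_eq_of_add {p : ℕ} {x y : Hc X p} (h : x + y = 0) : x = y := by
  have h1 : x + y + y = y := by rw [h, zero_add]
  rwa [add_assoc, hc_add_self, add_zero] at h1

theorem cls_eq {p : ℕ} {u v : Co X p} (hu : u ∈ Cy X p) (hv : v ∈ Cy X p) :
    cls u hu = cls v hv ↔ u + v ∈ Bd X p := by
  rw [← cls_eq_zero (Submodule.add_mem _ hu hv), cls_add]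
  constructor
  · intro h
    rw [h, hc_add_self]
  · exact hc_eq_of_add

/-- a representative -/
noncomputable def rep {p : ℕ} (x : Hc X p) : Co X p := (cls_surj x).choose

theorem rep_mem {p : ℕ} (x : Hc X p) : rep x ∈ Cy X p := (cls_surj x).choose_spec.choose

theorem cls_rep {p : ℕ} (x : Hc X p) : cls (rep x) (rep_mem x) = x :=
  (cls_surj x).choose_spec.choose_spec

theorem rep_cls {p : ℕ} {u : Co X p} (hu : u ∈ Cy X p) : rep (cls u hu) + u ∈ Bd X p :=
  (cls_eq (rep_mem _) hu).1 (cls_rep _)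

theorem cupf {p q r : ℕ} (h : p + q = r) {u u' : Co X p} {v v' : Co X q} (hu : u ∈ Cy X p)
    (hu' : u' ∈ Cy X p) (hv : v ∈ Cy X q) (hv' : v' ∈ Cy X q) (h1 : u + u' ∈ Bd X p)
    (h2 : v + v' ∈ Bd X q) : cup h u v + cup h u' v' ∈ Bd X r := by
  have e : cup h u v + cup h u' v' = cup h (u + u') v + cup h u' (v + v') := by
    simp only [map_add, LinearMap.add_apply]
    have e1 : ∀ a b c : Co X r, a + b = a + c + (c + b) := by
      intro a b c
      have e2 : a + c + (c + b) = a + b + (c + c) := by abel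
      rw [e2, co_add_self, add_zero]
    exact e1 _ _ _
  rw [e]
  exact Submodule.add_mem _ (cup_Bd_left h h1 hv) (cup_Bd_right h hu' h2)

/-- cup product of classes -/
noncomputable def cupH {p q r : ℕ} (h : p + q = r) : Hc X p →ₗ[F2] Hc X q →ₗ[F2] Hc X r :=
  LinearMap.mk₂ F2 (fun x y => cls (cup h (rep x) (rep y)) (cup_Cy h (rep_mem x) (rep_mem y)))
    (fun x x' y => by
      rw [← cls_add, cls_eq]
      have h1 : rep (x + x') + (rep x + rep x') ∈ Bd X p := by
        rw [← cls_eq (rep_mem _) (Submodule.add_mem _ (rep_mem x) (rep_mem x')),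
          cls_add (rep_mem x) (rep_mem x'), cls_rep, cls_rep, cls_rep]
      have h2 := cupf h (rep_mem _) (Submodule.add_mem _ (rep_mem x) (rep_mem x')) (rep_mem y)
        (rep_mem y) h1 (by rw [co_add_self]; exact zero_mem _)
      rwa [map_add, LinearMap.add_apply] at h2)
    (fun c x y => by
      rw [← cls_smul, cls_eq]
      have h1 : rep (c • x) + c • rep x ∈ Bd X p := by
        rw [← cls_eq (rep_mem _) (Submodule.smul_mem _ c (rep_mem x)),
          cls_smul c (rep_mem x), cls_rep, cls_rep]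
      have h2 := cupf h (rep_mem _) (Submodule.smul_mem _ c (rep_mem x)) (rep_mem y)
        (rep_mem y) h1 (by rw [co_add_self]; exact zero_mem _)
      rwa [map_smul, LinearMap.smul_apply] at h2)
    (fun x y y' => by
      rw [← cls_add, cls_eq]
      have h1 : rep (y + y') + (rep y + rep y') ∈ Bd X q := by
        rw [← cls_eq (rep_mem _) (Submodule.add_mem _ (rep_mem y) (rep_mem y')),
          cls_add (rep_mem y) (rep_mem y'), cls_rep, cls_rep, cls_rep]
      have h2 := cupf h (rep_mem x) (rep_mem x) (rep_mem _)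
        (Submodule.add_mem _ (rep_mem y) (rep_mem y')) (by rw [co_add_self]; exact zero_mem _) h1
      rwa [map_add] at h2)
    (fun c x y => by
      rw [← cls_smul, cls_eq]
      have h1 : rep (c • y) + c • rep y ∈ Bd X q := by
        rw [← cls_eq (rep_mem _) (Submodule.smul_mem _ c (rep_mem y)),
          cls_smul c (rep_mem y), cls_rep, cls_rep]
      have h2 := cupf h (rep_mem x) (rep_mem x) (rep_mem _)
        (Submodule.smul_mem _ c (rep_mem y)) (by rw [co_add_self]; exact zero_mem _) h1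
      rwa [map_smul] at h2)

theorem cupH_cls {p q r : ℕ} (h : p + q = r) {u : Co X p} {v : Co X q} (hu : u ∈ Cy X p)
    (hv : v ∈ Cy X q) : cupH h (cls u hu) (cls v hv) = cls (cup h u v) (cup_Cy h hu hv) := by
  change cls _ _ = _
  rw [cls_eq]
  exact cupf h (rep_mem _) hu (rep_mem _) hv (rep_cls hu) (rep_cls hv)

theorem cupH_assoc {p q s t u' r : ℕ} (h1 : p + q = t) (h2 : t + s = r) (h3 : q + s = u')
    (h4 : p + u' = r) (a : Hc X p) (b : Hc X q) (d : Hc X s) :
    cupH h2 (cupH h1 a b) d = cupH h4 a (cupH h3 b d) := by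
  obtain ⟨a, ha, rfl⟩ := cls_surj a
  obtain ⟨b, hb, rfl⟩ := cls_surj b
  obtain ⟨d, hd, rfl⟩ := cls_surj d
  rw [cupH_cls, cupH_cls, cupH_cls, cupH_cls, cls_eq, cup_assoc h1 h2 h3 h4, co_add_self]
  exact zero_mem _

/-- commutativity in degree one -/
theorem cup_comm_one {a b : Co X 1} (ha : a ∈ Cy X 1) (hb : b ∈ Cy X 1) :
    cup (show 1 + 1 = 2 from rfl) a b + cup (show 1 + 1 = 2 from rfl) b a ∈ Bd X 2 := by
  refine ⟨fun σ => a σ * b σ, ?_⟩
  funext τ
  rw [dl_apply, Fin.sum_univ_three, Pi.add_apply, cup_one_one, cup_one_one]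
  have h1 : ∀ u : Co X 1, u ∈ Cy X 1 → u (sface 1 1 τ) = u (sface 1 2 τ) + u (sface 1 0 τ) := by
    intro u hu
    have h0 : dl 1 u = 0 := hu
    have h : ∑ i : Fin 3, u (sface 1 i τ) = 0 := (dl_apply 1 u τ).symm.trans (congrFun h0 τ)
    rw [Fin.sum_univ_three] at h
    have key : ∀ p q r : F2, p + q + r = 0 → q = r + p := by decide
    exact key _ _ _ h
  rw [h1 a ha, h1 b hb]
  generalize a (sface 1 2 τ) = x
  generalize a (sface 1 0 τ) = y
  generalize b (sface 1 2 τ) = z
  generalize b (sface 1 0 τ) = w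
  revert x y z w
  decide

theorem cupH_comm (a b : Hc X 1) : cupH (show 1 + 1 = 2 from rfl) a b =
    cupH (show 1 + 1 = 2 from rfl) b a := by
  obtain ⟨a, ha, rfl⟩ := cls_surj a
  obtain ⟨b, hb, rfl⟩ := cls_surj b
  rw [cupH_cls, cupH_cls, cls_eq]
  exact cup_comm_one ha hb

end

section

variable {A B D : Type} [TopologicalSpace A] [TopologicalSpace B] [TopologicalSpace D]

/-- pullback of classes -/
noncomputable def pullH (f : C(A, B)) (p : ℕ) : Hc B p →ₗ[F2] Hc A p where
  toFun x := cls (pull f p (rep x)) (pull_Cy f (rep_mem x))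
  map_add' x y := by
    rw [← cls_add, cls_eq, ← map_add, ← map_add]
    apply pull_Bd
    rw [← cls_eq (rep_mem _) (Submodule.add_mem _ (rep_mem x) (rep_mem y)),
      cls_add (rep_mem x) (rep_mem y), cls_rep, cls_rep, cls_rep]
  map_smul' c x := by
    rw [RingHom.id_apply, ← cls_smul, cls_eq, ← map_smul, ← map_add]
    apply pull_Bd
    rw [← cls_eq (rep_mem _) (Submodule.smul_mem _ c (rep_mem x)),
          cls_smul c (rep_mem x), cls_rep, cls_rep]

theorem pullH_cls (f : C(A, B)) {p : ℕ} {u : Co B p} (hu : u ∈ Cy B p) :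
    pullH f p (cls u hu) = cls (pull f p u) (pull_Cy f hu) := by
  change cls _ _ = _
  rw [cls_eq, ← map_add]
  exact pull_Bd f (rep_cls hu)

theorem pullH_cupH (f : C(A, B)) {p q r : ℕ} (h : p + q = r) (a : Hc B p) (b : Hc B q) :
    pullH f r (cupH h a b) = cupH h (pullH f p a) (pullH f q b) := by
  obtain ⟨a, ha, rfl⟩ := cls_surj a
  obtain ⟨b, hb, rfl⟩ := cls_surj b
  rw [cupH_cls, pullH_cls, pullH_cls, pullH_cls, cupH_cls]
  rfl

theorem pullH_pullH (f : C(A, B)) (g : C(B, D)) (p : ℕ) (a : Hc D p) :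
    pullH f p (pullH g p a) = pullH (g.comp f) p a := by
  obtain ⟨a, ha, rfl⟩ := cls_surj a
  rw [pullH_cls, pullH_cls, pullH_cls]
  rfl

theorem pullH_id (p : ℕ) (a : Hc A p) : pullH (ContinuousMap.id A) p a = a := by
  obtain ⟨a, ha, rfl⟩ := cls_surj a
  rw [pullH_cls]
  rfl

theorem pullH_eq_zero (f : C(A, B)) {p : ℕ} {u : Co B p} (hu : u ∈ Cy B p) :
    pullH f p (cls u hu) = 0 ↔ pull f p u ∈ Bd A p := by
  rw [pullH_cls, cls_eq_zero]

end

end Pool.Agent.L7h59.M3
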