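import Pool.Agent.L7h59.M3.Cover2

/-! Comparison of the cover and the base: the contradiction. -/

set_option autoImplicit false
set_option linter.unusedVariables false
set_option linter.unusedSectionVars false

namespace Pool.Agent.L7h59.M3

open Set Topology
open Pool.Agent.Helper158.PD Pool.Agent.Helper158.TC
open Pool.Agent.Helper922.HB.Sc (Sing sface altd vert)

/-- two disjoint sections -/
theorem two_sheets {A B : Type} [TopologicalSpace A] [TopologicalSpace B] (p : C(B, A))
    (σ : F2 → C(A, B)) (hσ : ∀ i, p.comp (σ i) = ContinuousMap.id A) {s : Co B 0}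
    (hs : s ∈ Cy B 0) (h : ∀ i, pull (σ i) 0 s = fun _ => i) [Module.Finite F2 (Hc B 1)] :
    2 * Module.finrank F2 (Hc A 1) ≤ Module.finrank F2 (Hc B 1) := by
  have h01 : 0 + 1 = 1 := rfl
  have h1 : ∀ (i : F2) (v : Hc A 1), pullH (σ i) 1 (pullH p 1 v) = v := by
    intro i v
    rw [pullH_pullH, hσ, pullH_id]
  have h2 : ∀ (i : F2) (v : Hc A 1), pullH (σ i) 1 (cupH h01 (cls s hs) (pullH p 1 v)) =
      i • v := by
    intro i v
    rw [pullH_cupH, h1, pullH_cls]
    have h3 : cls (pull (σ i) 0 s) (pull_Cy _ hs) = i • cls (fun _ => 1) one_mem := by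
      rw [← cls_smul]
      apply Dbl.cls_congr
      rw [h i]
      funext τ
      rw [Pi.smul_apply, smul_eq_mul, mul_one]
    rw [h3, map_smul, LinearMap.smul_apply, one_cup]
  let F : (Hc A 1 × Hc A 1) →ₗ[F2] Hc B 1 :=
    (pullH p 1 + (cupH h01 (cls s hs)).comp (pullH p 1)).coprod
      ((cupH h01 (cls s hs)).comp (pullH p 1))
  have hF : ∀ (i : F2) (y z : Hc A 1), pullH (σ i) 1 (F (y, z)) = y + i • y + i • z := by
    intro i y z
    rw [LinearMap.coprod_apply, LinearMap.add_apply, LinearMap.comp_apply, LinearMap.comp_apply,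
      map_add, map_add, h1, h2, h2]
  have hinj : Function.Injective F := by
    rw [← LinearMap.ker_eq_bot, LinearMap.ker_eq_bot']
    rintro ⟨y, z⟩ hyz
    have h4 := hF 0 y z
    have h5 := hF 1 y z
    rw [hyz, map_zero, zero_smul, zero_smul, add_zero, add_zero] at h4
    rw [hyz, map_zero, one_smul, one_smul, hc_add_self, zero_add] at h5
    rw [← h4, ← h5]
    rfl
  have hfin : Module.Finite F2 (Hc A 1) := by
    refine Module.Finite.of_injective (pullH p 1) ?_
    intro a b hab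
    rw [← h1 0 a, hab, h1]
  have h6 := LinearMap.finrank_le_finrank_of_injective hinj
  rw [Module.finrank_prod] at h6
  omega

section

variable {M : Type} [TopologicalSpace M] [ChartedSpace Hf M] [LocallyPathConnectedSpace M]
  {u : Co M 1} (P : Prim u)

/-- the projection of the collars -/
noncomputable def pV : C(@Dbl.V _ _ _ _ (@dbl (CE P) _ (ce_cs P)), (dbl M).V) :=
  ⟨fun p => ⟨⟨(pr' P p.1.1.1, p.1.1.2), p.1.2.1,
    Or.inl ((mem_bd_cover P _).1 (@mem_V (CE P) _ (ce_cs P) _ p.2))⟩, p.2⟩, by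
    refine Continuous.subtype_mk (Continuous.subtype_mk ?_ _) _
    refine Continuous.prodMk ?_ ?_
    · exact (pr' P).continuous.comp
        (continuous_fst.comp (continuous_subtype_val.comp continuous_subtype_val))
    · exact continuous_snd.comp (continuous_subtype_val.comp continuous_subtype_val)⟩

theorem loc_V : LocallyPathConnectedSpace (dbl M).V := by
  have h : LocallyPathConnectedSpace (DX M) :=
    ChartedSpace.locallyPathConnectedSpace E3 (DX M)
  exact IsOpen.locallyPathConnectedSpace (((dbl M).op true).inter ((dbl M).op false))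

/-- the sections -/
noncomputable def sV (φ : Co (dbl M).V 0) (hφ : pull (dbl M).rV 1 u = dl 0 φ) (i : F2) :
    C((dbl M).V, @Dbl.V _ _ _ _ (@dbl (CE P) _ (ce_cs P))) :=
  ⟨fun q => ⟨⟨(mk P q.1.1.1 (i + φ (pt q)), q.1.1.2), q.1.2.1,
    Or.inl ((mem_bd_cover P _).2 (mem_V q.2))⟩, q.2⟩, by
    refine Continuous.subtype_mk (Continuous.subtype_mk ?_ _) _
    refine Continuous.prodMk ?_ ?_
    · have := loc_V (M := M)
      refine cont_section P (dbl M).rV (fun q => i + φ (pt q)) ?_
      intro a b γ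
      have h1 : pull (dbl M).rV 1 u (pathSx γ) = u (pathSx (γ.map (dbl M).rV.continuous)) := by
        change u ((dbl M).rV.comp (pathSx γ)) = _
        rw [comp_pathSx (dbl M).rV γ (γ.map (dbl M).rV.continuous) (fun t => rfl)]
      rw [← h1, hφ, dl_apply, Fin.sum_univ_two]
      change φ (sface 0 0 (pathSx γ)) + φ (sface 0 1 (pathSx γ)) = _
      rw [face_zero, face_one]
      have key : ∀ i a b : F2, b + a = i + a + (i + b) := by decide
      exact key _ _ _
    · exact continuous_snd.comp (continuous_subtype_val.comp continuous_subtype_val)⟩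

theorem pV_sV (φ : Co (dbl M).V 0) (hφ : pull (dbl M).rV 1 u = dl 0 φ) (i : F2) :
    (pV P).comp (sV P φ hφ i) = ContinuousMap.id _ := by
  ext1 q
  rfl

/-- the sheet cocycle on the collar -/
noncomputable def sE (φ : Co (dbl M).V 0) :
    Co (@Dbl.V _ _ _ _ (@dbl (CE P) _ (ce_cs P))) 0 :=
  pull (@Dbl.rV _ _ _ _ (@dbl (CE P) _ (ce_cs P))) 0 (shc P) + pull (pV P) 0 φ

theorem sE_mem (hu : u ∈ Cy M 1) (φ : Co (dbl M).V 0) (hφ : pull (dbl M).rV 1 u = dl 0 φ) :
    sE P φ ∈ Cy (@Dbl.V _ _ _ _ (@dbl (CE P) _ (ce_cs P))) 0 := by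
  change dl 0 (sE P φ) = 0
  rw [sE, map_add, dl_pull, dl_pull, ← hφ, ← pull_eq P hu]
  exact co_add_self _

theorem sV_sE (φ : Co (dbl M).V 0) (hφ : pull (dbl M).rV 1 u = dl 0 φ) (i : F2) :
    pull (sV P φ hφ i) 0 (sE P φ) = fun _ => i := by
  funext τ
  change (i + φ (pt (τ (vert 0 0)))) + φ ((pV P).comp ((sV P φ hφ i).comp τ)) = i
  have h1 : (pV P).comp ((sV P φ hφ i).comp τ) = τ := by
    rw [← ContinuousMap.comp_assoc, pV_sV]
    rfl
  rw [h1]
  have h2 : pt (τ (vert 0 0)) = τ := (eq_pt τ).symm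
  rw [h2]
  have key : ∀ i a : F2, i + a + a = i := by decide
  exact key _ _

end

/-- **no compact three-manifold** -/
theorem no_manifold {M : Type} [TopologicalSpace M] [T2Space M] [CompactSpace M]
    [PathConnectedSpace M] [ChartedSpace Hf M] {x₀ : M} {Γ : Type} [Group Γ] (L : Lab M x₀ Γ)
    {J A : Type} [Fintype J] [Fintype A] [DecidableEq J] [DecidableEq A] {π : A → J}
    (R : Pres Γ π) (hπ : Alg.Dat.Big π) (f : Γ →* Hs) (hf : ∀ j, (f (R.t j)).p = 0) (g₁ : Γ)
    (hg : (f g₁).p = 1) {J' A' : Type} [Fintype J'] [Fintype A'] [DecidableEq J']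
    [DecidableEq A'] {π' : A' → J'} (R' : Pres (Nf f) π') (hπ' : Alg.Dat.Big π')
    (hc' : Fintype.card J' < 2 * Fintype.card J) : False := by
  have hloc : LocallyPathConnectedSpace M := ChartedSpace.locallyPathConnectedSpace Hf M
  obtain ⟨P⟩ := exists_prim (hc_mem L f)
  obtain ⟨-, h1, h2⟩ := main_struct L R hπ
  have h3 : (dbl M).res 1 (cls (hc L f) (hc_mem L f)) = 0 := by
    apply h2
    rw [co_hc]
    funext j
    exact hf j
  obtain ⟨φ, hφ⟩ : ∃ φ, dl 0 φ = pull (dbl M).rV 1 (hc L f) := by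
    rw [pullH_eq_zero] at h3
    exact h3
  have i1 : T2Space (CE P) := ce_t2 P
  have i2 : CompactSpace (CE P) := ce_compact P
  have i3 : PathConnectedSpace (CE P) := by
    obtain ⟨ω, hω⟩ := L.h2 g₁
    refine pconn P (hc_mem L f) ω ?_
    change (f (L.c (pathSx ω))).p = 1
    rw [hω, hg]
  obtain ⟨h4, h5, -⟩ := @main_struct (CE P) _ (ce_cs P) i2 i1 i3 _ _ _ _ _ _ _ _ _ _
    (labE L f P g₁ hg) R' hπ'
  have h6 := two_sheets (pV P) (sV P φ hφ.symm) (pV_sV P φ hφ.symm)
    (sE_mem P (hc_mem L f) φ hφ.symm) (sV_sE P φ hφ.symm)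
  rw [h1, h5] at h6
  omega

end Pool.Agent.L7h59.M3
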