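import Pool.Agent.L7h59.M3.Dual

/-! Connecting homomorphisms, idempotents of the intersection. -/

set_option autoImplicit false
set_option linter.unusedVariables false

namespace Pool.Agent.L7h59.M3

open Set Topology
open Pool.Agent.Helper158.PD Pool.Agent.Helper158.TC
open Pool.Agent.Helper922.HB.Sc (Sing sface altd vert)

namespace Dbl

variable {X M : Type} [TopologicalSpace X] [TopologicalSpace M] (D : Dbl X M)

/-- chosen connecting cocycle -/
noncomputable def dc {n : ℕ} (v : Hc D.V n) : Co X (n + 1) := (Del.exists D (rep v) (rep_mem v)).choose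

theorem dc_mem {n : ℕ} (v : Hc D.V n) : D.dc v ∈ Cy X (n + 1) :=
  (Del.exists D (rep v) (rep_mem v)).choose_spec.1

theorem dc_del {n : ℕ} (v : Hc D.V n) : D.Del (rep v) (D.dc v) :=
  Del.of_exists D (Del.exists D (rep v) (rep_mem v)).choose_spec.2.1
    (Del.exists D (rep v) (rep_mem v)).choose_spec.2.2

theorem Del.cls_eq {n : ℕ} {v v' : Co D.V n} {c c' : Co X (n + 1)} (hc : c ∈ Cy X (n + 1))
    (hc' : c' ∈ Cy X (n + 1)) (h : D.Del v c) (h' : D.Del v' c') (hv : v + v' ∈ Bd D.V n) :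
    cls c hc = cls c' hc' := by
  rw [Pool.Agent.L7h59.M3.cls_eq]
  exact Del.uniq D (Submodule.add_mem _ hc hc') hv (Del.add D h h')

theorem Del.smul {n : ℕ} {v : Co D.V n} {c : Co X (n + 1)} (r : F2) (h : D.Del v c) :
    D.Del (r • v) (r • c) := by
  obtain ⟨φ, h1, h2⟩ := h
  refine ⟨r • φ, fun j => ?_, ?_⟩
  · intro σ hσ
    have := h1 j σ hσ
    rw [Pi.smul_apply, Pi.smul_apply, map_smul, Pi.smul_apply, this]
  · rw [← h2, Pi.smul_apply, Pi.smul_apply, ← smul_add, map_smul]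

/-- the connecting homomorphism -/
noncomputable def dH (n : ℕ) : Hc D.V n →ₗ[F2] Hc X (n + 1) where
  toFun v := cls (D.dc v) (D.dc_mem v)
  map_add' v w := by
    rw [← cls_add]
    refine Del.cls_eq D _ _ (D.dc_del _) (Del.add D (D.dc_del v) (D.dc_del w)) ?_
    rw [← cls_eq (rep_mem _) (Submodule.add_mem _ (rep_mem v) (rep_mem w)),
      cls_add (rep_mem v) (rep_mem w), cls_rep, cls_rep, cls_rep]
  map_smul' r v := by
    rw [RingHom.id_apply, ← cls_smul]
    refine Del.cls_eq D _ _ (D.dc_del _) (Del.smul D r (D.dc_del v)) ?_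
    rw [← cls_eq (rep_mem _) (Submodule.smul_mem _ r (rep_mem v)),
      cls_smul r (rep_mem v), cls_rep, cls_rep]

theorem dH_cls {n : ℕ} {v : Co D.V n} {c : Co X (n + 1)} (hv : v ∈ Cy D.V n)
    (hc : c ∈ Cy X (n + 1)) (h : D.Del v c) : D.dH n (cls v hv) = cls c hc :=
  Del.cls_eq D _ _ (D.dc_del _) h (rep_cls hv)

theorem iH_dH (j : Bool) (n : ℕ) (v : Hc D.V n) : D.iH j (n + 1) (D.dH n v) = 0 := by
  change pullH (D.i j) (n + 1) (cls _ _) = 0
  rw [pullH_eq_zero]
  exact Del.im D (D.dc_del v) j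

theorem dH_surj {n : ℕ} (c : Hc X (n + 1)) (h : ∀ j, D.iH j (n + 1) c = 0) :
    ∃ v, D.dH n v = c := by
  obtain ⟨c, hc, rfl⟩ := cls_surj c
  obtain ⟨v, hv, h1⟩ := Del.of_im D hc (fun j => (pullH_eq_zero _ hc).1 (h j))
  exact ⟨cls v hv, D.dH_cls hv hc h1⟩

/-- restriction of classes of `M` to the intersection -/
noncomputable abbrev res (n : ℕ) : Hc M n →ₗ[F2] Hc D.V n := pullH D.rV n

theorem dH_res (n : ℕ) (y : Hc M (n + 1)) : D.dH (n + 1) (D.res (n + 1) y) = 0 := by
  obtain ⟨y, hy, rfl⟩ := cls_surj y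
  rw [pullH_cls]
  have h : D.Del (pull D.rV (n + 1) y) (0 : Co X (n + 2)) := by
    refine ⟨fun j => if j then pull D.r (n + 1) y else 0, ?_, ?_⟩
    · intro j
      have h1 : dl (n + 1) y = 0 := hy
      cases j
      · simp only [Bool.false_eq_true, if_false, map_zero]
        exact On.refl 0
      · simp only [if_true]
        rw [dl_pull, h1, map_zero]
        exact On.refl 0
    · simp only [if_true, Bool.false_eq_true, if_false, add_zero]
      rfl
  rw [D.dH_cls _ (zero_mem _) h]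
  rfl

theorem ker_dH (n : ℕ) (v : Hc D.V (n + 1)) (h : D.dH (n + 1) v = 0) :
    ∃ y, D.res (n + 1) y = v := by
  have h1 : D.dc v ∈ Bd X (n + 2) := (cls_eq_zero (D.dc_mem v)).1 h
  obtain ⟨y, hy, h2⟩ := Del.ker D h1 (D.dc_del v)
  refine ⟨cls y hy, ?_⟩
  rw [pullH_cls]
  conv_rhs => rw [← cls_rep v]
  rw [cls_eq]
  have h3 : pull D.rV (n + 1) y + rep v = rep v + pull D.rV (n + 1) y := add_comm _ _
  rw [h3]
  exact h2

theorem res_eq_zero (y : Hc M 1) : D.res 1 y = 0 ↔ y ∈ D.K1 := by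
  constructor
  · intro h
    obtain ⟨y, hy, rfl⟩ := cls_surj y
    obtain ⟨x, hx, h1, h2⟩ := D.ker_res hy ((pullH_eq_zero _ hy).1 h)
    refine ⟨cls x hx, (pullH_eq_zero _ hx).2 h1, ?_⟩
    rw [pullH_cls, cls_eq]
    exact h2
  · rintro ⟨x, hx, rfl⟩
    obtain ⟨x, hx', rfl⟩ := cls_surj x
    have h1 := (pullH_eq_zero _ hx').1 hx
    rw [pullH_cls, pullH_eq_zero]
    exact D.ker_res' hx' h1

variable {D}

theorem Dua.finrank_V (Q : D.Dua) : Module.Finite F2 (Hc D.V 1) ∧
    Module.finrank F2 (Hc D.V 1) = 2 * Module.finrank F2 (LinearMap.range (D.res 1)) := by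
  have := Q.fin 1
  have := Q.fin 2
  have := fin_M Q 1
  have hk : LinearMap.ker (D.dH 1) = LinearMap.range (D.res 1) := by
    ext v
    rw [LinearMap.mem_ker]
    constructor
    · intro h
      obtain ⟨y, hy⟩ := D.ker_dH 0 v h
      exact ⟨y, hy⟩
    · rintro ⟨y, rfl⟩
      exact D.dH_res 0 y
  have hr : LinearMap.range (D.dH 1) = D.Z2 := by
    ext c
    constructor
    · rintro ⟨v, rfl⟩
      exact ⟨D.iH_dH true 1 v, D.iH_dH false 1 v⟩
    · rintro ⟨h1, h2⟩
      obtain ⟨v, hv⟩ := D.dH_surj (n := 1) c (by rintro (_ | _); exacts [h2, h1])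
      exact ⟨v, hv⟩
  have hfin : Module.Finite F2 (Hc D.V 1) := by
    have h1 : Module.Finite F2 (LinearMap.ker (D.dH 1)) := by
      rw [hk]
      infer_instance
    have h2 : Module.Finite F2 (Hc D.V 1 ⧸ LinearMap.ker (D.dH 1)) :=
      Module.Finite.equiv (LinearMap.quotKerEquivRange (D.dH 1)).symm
    exact Module.Finite.of_submodule_quotient (LinearMap.ker (D.dH 1))
  refine ⟨hfin, ?_⟩
  have h1 : Module.finrank F2 D.Z2 + Module.finrank F2 (LinearMap.range (D.res 1)) =
      Module.finrank F2 (Hc D.V 1) := by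
    have h0 := LinearMap.finrank_range_add_finrank_ker (D.dH 1)
    rw [hk, hr] at h0
    exact h0
  have h2 := LinearMap.finrank_range_add_finrank_ker (D.res 1)
  have h3 : LinearMap.ker (D.res 1) = D.K1 := by
    ext y
    exact D.res_eq_zero y
  rw [h3] at h2
  have h4 := Q.finrank_Z2
  omega

variable (D)

/-! ### degree zero -/

/-- evaluation of all zero-cocycles at a point -/
noncomputable def kap (x : D.V) : Cy D.V 0 → F2 := fun f => f.1 (pt x)

open Classical in
/-- indicators -/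
noncomputable def ind (S : Cy D.V 0 → F2) : Co D.V 0 := fun σ => if D.kap (σ (vert 0 0)) = S then 1 else 0

open Classical in
theorem ind_mem (S : Cy D.V 0 → F2) : D.ind S ∈ Cy D.V 0 := by
  change dl 0 (D.ind S) = 0
  funext τ
  rw [dl_apply, Fin.sum_univ_two]
  have h : D.kap (sface 0 0 τ (vert 0 0)) = D.kap (sface 0 1 τ (vert 0 0)) := by
    funext f
    change f.1 (pt (sface 0 0 τ (vert 0 0))) = f.1 (pt (sface 0 1 τ (vert 0 0)))
    rw [← eq_pt, ← eq_pt]
    have h1 : dl 0 f.1 = 0 := f.2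
    have h2 := congrFun h1 τ
    rw [dl_apply, Fin.sum_univ_two] at h2
    have h3 : ∀ a b : F2, a + b = 0 → a = b := by decide
    exact h3 _ _ h2
  change (if D.kap (sface 0 0 τ (vert 0 0)) = S then (1 : F2) else 0) +
    (if D.kap (sface 0 1 τ (vert 0 0)) = S then (1 : F2) else 0) = 0
  rw [h]
  exact CharTwo.add_self_eq_zero _

/-- idempotent classes -/
noncomputable def idm (S : Cy D.V 0 → F2) : Hc D.V 0 := cls (D.ind S) (D.ind_mem S)

/-- the relative class of a component -/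
noncomputable def zz (S : Cy D.V 0 → F2) : Hc X 1 := D.dH 0 (D.idm S)

theorem sub_zero_simplex {A : Type} [TopologicalSpace A] (f : Fin (0 + 1) → Fin (0 + 1))
    (σ : Sing A 0) : sub f σ = σ := by
  ext x
  change σ _ = σ x
  congr 1
  exact Subsingleton.elim (α := stdSimplex ℝ (Fin 1)) _ _

open Classical in
theorem cup_ind (S T : Cy D.V 0 → F2) : cup (show 0 + 0 = 0 from rfl) (D.ind S) (D.ind T) =
    if S = T then D.ind S else 0 := by
  funext σ
  rw [cup_apply, sub_zero_simplex, sub_zero_simplex]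
  change (if D.kap (σ (vert 0 0)) = S then (1 : F2) else 0) *
    (if D.kap (σ (vert 0 0)) = T then (1 : F2) else 0) = _
  by_cases h : S = T
  · subst h
    rw [if_pos rfl]
    change _ = if D.kap (σ (vert 0 0)) = S then (1 : F2) else 0
    split_ifs <;> simp
  · rw [if_neg h]
    change _ = (0 : F2)
    split_ifs with h1 h2
    · exact absurd (h1.symm.trans h2) h
    all_goals simp

theorem idm_mul {S T : Cy D.V 0 → F2} (h : S ≠ T) :
    cupH (show 0 + 0 = 0 from rfl) (D.idm S) (D.idm T) = 0 := by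
  rw [idm, idm, cupH_cls, cls_eq_zero, cup_ind, if_neg h]
  exact zero_mem _

theorem idm_sq (S : Cy D.V 0 → F2) :
    cupH (show 0 + 0 = 0 from rfl) (D.idm S) (D.idm S) = D.idm S := by
  rw [idm, cupH_cls, cls_eq, cup_ind, if_pos rfl, co_add_self]
  exact zero_mem _

/-- products with the relative class of a component -/
theorem zz_cup (S : Cy D.V 0 → F2) (y : Hc X 1)
    (h : cupH (show 0 + 1 = 1 from rfl) (D.idm S) (pullH D.iV 1 y) = 0) :
    cupH h11 (D.zz S) y = 0 := by
  obtain ⟨y, hy, rfl⟩ := cls_surj y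
  obtain ⟨c, hc, h1, h2⟩ := Del.exists D (D.ind S) (D.ind_mem S)
  have h3 : D.zz S = cls c hc := D.dH_cls _ hc (Del.of_exists D h1 h2)
  rw [h3, cupH_cls, cls_eq_zero]
  rw [idm, pullH_cls, cupH_cls, cls_eq_zero] at h
  exact Del.cup D hc h1 h2 hy h

open Classical in
/-- decomposition of zero-cocycles -/
theorem zero_decomp [Fintype (Cy D.V 0 → F2)] (f : Co D.V 0) (hf : f ∈ Cy D.V 0) :
    f = ∑ S : Cy D.V 0 → F2, S ⟨f, hf⟩ • D.ind S := by
  funext σ
  rw [Finset.sum_apply, Finset.sum_eq_single (D.kap (σ (vert 0 0)))]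
  · rw [Pi.smul_apply]
    change f σ = (f (pt (σ (vert 0 0)))) • (if D.kap (σ (vert 0 0)) = D.kap (σ (vert 0 0))
      then (1 : F2) else 0)
    rw [if_pos rfl, smul_eq_mul, mul_one, ← eq_pt]
  · intro S _ hS
    rw [Pi.smul_apply]
    change S ⟨f, hf⟩ • (if D.kap (σ (vert 0 0)) = S then (1 : F2) else 0) = 0
    rw [if_neg (Ne.symm hS), smul_zero]
  · intro h
    exact absurd (Finset.mem_univ _) h

theorem cls_congr {A : Type} [TopologicalSpace A] {p : ℕ} {u v : Co A p} (h : u = v)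
    (hu : u ∈ Cy A p) (hv : v ∈ Cy A p) : cls u hu = cls v hv := by
  subst h
  rfl

theorem cls_sum {A : Type} [TopologicalSpace A] {p : ℕ} {ι : Type*} (s : Finset ι)
    (u : ι → Co A p) (hu : ∀ i, u i ∈ Cy A p) :
    cls (∑ i ∈ s, u i) (Submodule.sum_mem _ fun i _ => hu i) = ∑ i ∈ s, cls (u i) (hu i) := by
  classical
  induction s using Finset.induction_on with
  | empty => simp only [Finset.sum_empty]; rfl
  | insert a s ha ih =>
    rw [cls_congr (Finset.sum_insert ha) _ (Submodule.add_mem _ (hu a)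
      (Submodule.sum_mem _ fun i _ => hu i)), cls_add (hu a) (Submodule.sum_mem _ fun i _ => hu i), ih]
    exact (Finset.sum_insert (f := fun i => cls (u i) (hu i)) ha).symm

theorem dH_const : D.dH 0 (cls (fun _ => 1) (by
    change dl 0 (fun _ => (1 : F2)) = 0
    funext τ
    rw [dl_apply, Fin.sum_univ_two]
    rfl)) = 0 := by
  have h : D.Del (fun _ => 1 : Co D.V 0) (0 : Co X 1) := by
    refine ⟨fun j => if j then fun _ => 1 else 0, ?_, ?_⟩
    · intro j
      cases j
      · simp only [Bool.false_eq_true, if_false, map_zero]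
        exact On.refl 0
      · simp only [if_true]
        intro σ _
        rw [dl_apply, Fin.sum_univ_two]
        rfl
    · simp only [if_true, Bool.false_eq_true, if_false, add_zero]
      rfl
  rw [D.dH_cls _ (zero_mem _) h]
  rfl

theorem sum_zz [Fintype (Cy D.V 0 → F2)] : ∑ S : Cy D.V 0 → F2, D.zz S = 0 := by
  have h1 : ∑ S : Cy D.V 0 → F2, D.zz S = D.dH 0 (∑ S : Cy D.V 0 → F2, D.idm S) := by
    rw [map_sum]; rfl
  rw [h1]
  have h2 : (fun _ => 1 : Co D.V 0) = ∑ S : Cy D.V 0 → F2, D.ind S := by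
    funext σ
    rw [Finset.sum_apply, Finset.sum_eq_single (D.kap (σ (vert 0 0)))]
    · exact (if_pos rfl).symm
    · intro S _ hS
      exact if_neg (Ne.symm hS)
    · intro h
      exact absurd (Finset.mem_univ _) h
  have h3 := cls_sum Finset.univ (fun S => D.ind S) (fun S => D.ind_mem S)
  have h4 := D.dH_const
  rw [cls_congr h2 _ (Submodule.sum_mem _ fun S _ => D.ind_mem S), h3] at h4
  exact h4

theorem span_zz [Fintype (Cy D.V 0 → F2)] (x : Hc X 1) (h : ∀ j, D.iH j 1 x = 0) :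
    x ∈ Submodule.span F2 (range D.zz) := by
  obtain ⟨v, rfl⟩ := D.dH_surj (n := 0) x h
  obtain ⟨f, hf, rfl⟩ := cls_surj v
  have h1 := D.zero_decomp f hf
  have h3 := cls_sum Finset.univ (fun S => S ⟨f, hf⟩ • D.ind S)
    (fun S => Submodule.smul_mem _ _ (D.ind_mem S))
  have h2 : cls f hf = ∑ S : Cy D.V 0 → F2, S ⟨f, hf⟩ • D.idm S :=
    (cls_congr h1 _ (Submodule.sum_mem _ fun S _ => Submodule.smul_mem _ _ (D.ind_mem S))).trans h3
  rw [h2, map_sum]
  refine Submodule.sum_mem _ fun S _ => ?_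
  rw [map_smul]
  exact Submodule.smul_mem _ _ (Submodule.subset_span ⟨S, rfl⟩)

/-- zero-cocycles with exact connecting class are constant -/
theorem zero_const [PathConnectedSpace M] {v : Co D.V 0} (hv : v ∈ Cy D.V 0) {c : Co X 1}
    (h : D.Del v c) (hc : c ∈ Bd X 1) : ∃ k : F2, ∀ σ, v σ = k := by
  obtain ⟨φ, h1, h2⟩ := h
  obtain ⟨ψ, hψ⟩ := hc
  have h3 : ∀ j, pull (io (D.U j)) 0 (φ j + ψ) ∈ Cy (D.U j) 0 := by
    intro j
    change dl 0 (pull (io (D.U j)) 0 (φ j + ψ)) = 0
    rw [dl_pull, map_add, map_add, hψ, ← on_iff.1 (h1 j), co_add_self]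
  have hne : Nonempty M := PathConnectedSpace.nonempty
  obtain ⟨m₀⟩ := hne
  have key : ∀ (j : Bool) (x : X), x ∈ D.U j → (φ j + ψ) (pt x) = (φ j + ψ) (pt (D.i j m₀)) := by
    intro j x hx
    let γ : Path (⟨x, hx⟩ : D.U j) ((D.iu j) (D.r x)) :=
      { toFun := fun t => D.F j (⟨x, hx⟩, t)
        continuous_toFun := by fun_prop
        source' := D.F0 j _
        target' := Subtype.ext (D.F1 j _) }
    have e1 := zero_path (h3 j) γ
    let γ' : Path ((D.iu j) (D.r x)) ((D.iu j) m₀) :=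
      (PathConnectedSpace.somePath (D.r x) m₀).map (D.iu j).continuous
    have e2 := zero_path (h3 j) γ'
    exact e1.trans e2
  refine ⟨(φ true + ψ) (pt (D.i true m₀)) + (φ false + ψ) (pt (D.i false m₀)), ?_⟩
  intro σ
  have hσ : σ = pt (σ (vert 0 0)) := eq_pt σ
  set x : D.V := σ (vert 0 0) with hx
  rw [← key true x.1 x.2.1, ← key false x.1 x.2.2, hσ]
  have e3 : v (pt x) = (φ true + φ false) (pt x.1) := (congrFun h2 (pt x)).symm
  rw [e3]
  change φ true (pt x.1) + φ false (pt x.1) =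
    φ true (pt x.1) + ψ (pt x.1) + (φ false (pt x.1) + ψ (pt x.1))
  generalize φ true (pt x.1) = p
  generalize φ false (pt x.1) = q
  generalize ψ (pt x.1) = s
  revert p q s
  decide

theorem finite_zero [PathConnectedSpace M] [Module.Finite F2 (Hc X 1)] : Finite (Cy D.V 0) := by
  have hX : Finite (Hc X 1) := Module.finite_of_finite F2
  let f : Cy D.V 0 → Hc X 1 := fun v => D.dH 0 (cls v.1 v.2)
  let S : Set (Cy D.V 0) := {v | ∃ k : F2, ∀ σ, v.1 σ = k}
  have hS : S.Finite := by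
    by_cases hne : Nonempty (Sing D.V 0)
    · obtain ⟨σ₀⟩ := hne
      have hinj : Set.InjOn (fun v : Cy D.V 0 => v.1 σ₀) S := by
        rintro v ⟨k, hk⟩ w ⟨l, hl⟩ h
        apply Subtype.ext
        funext σ
        have h' : v.1 σ₀ = w.1 σ₀ := h
        rw [hk, hl, ← hk σ₀, h', hl]
      exact Set.Finite.of_finite_image (Set.toFinite _) hinj
    · have : Subsingleton (Cy D.V 0) := ⟨fun v w => by
        apply Subtype.ext
        funext σ
        exact absurd ⟨σ⟩ hne⟩
      exact Set.toFinite _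
  have hker : ∀ v w : Cy D.V 0, f v = f w → v + w ∈ S := by
    intro v w h
    have h1 : D.dH 0 (cls (v + w).1 (v + w).2) = 0 := by
      have : cls (v + w).1 (v + w).2 = cls v.1 v.2 + cls w.1 w.2 := rfl
      rw [this, map_add]
      change f v + f w = 0
      rw [h]
      exact hc_add_self _
    obtain ⟨c, hc, h2, h3⟩ := Del.exists D (v + w).1 (v + w).2
    have h4 := Del.of_exists D h2 h3
    rw [D.dH_cls _ hc h4, cls_eq_zero] at h1
    exact D.zero_const (v + w).2 h4 h1
  apply Set.finite_univ_iff.1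
  refine Set.Finite.subset (Set.finite_iUnion (ι := range f) (fun y : range f =>
    (hS.image (fun s => s + y.2.choose)))) ?_
  intro v _
  rw [Set.mem_iUnion]
  refine ⟨⟨f v, v, rfl⟩, v + (⟨v, rfl⟩ : ∃ y, f y = f v).choose, ?_, ?_⟩
  · exact hker _ _ (⟨v, rfl⟩ : ∃ y, f y = f v).choose_spec.symm
  · change v + _ + _ = v
    rw [add_assoc]
    have : ∀ w : Cy D.V 0, w + w = 0 := fun w => Subtype.ext (co_add_self _)
    rw [this, add_zero]

end Dbl

end Pool.Agent.L7h59.M3
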