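import Pool.Agent.L7h59.M3.Prim

/-! The double cover of a one-cocycle. -/

set_option autoImplicit false
set_option linter.unusedVariables false
set_option linter.unusedSectionVars false

namespace Pool.Agent.L7h59.M3

open Set Topology
open Pool.Agent.Helper158.PD Pool.Agent.Helper158.TC
open Pool.Agent.Helper922.HB.Sc (Sing sface altd vert)

section

variable {M : Type} [TopologicalSpace M] {u : Co M 1} (P : Prim u)

theorem Prim.loc {i j x y : M} (γ : Path x y) (h : ∀ t, γ t ∈ P.W i ∩ P.W j) :
    P.f i x + P.f j x = P.f i y + P.f j y := by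
  have h1 := P.ex i γ (fun t => (h t).1)
  have h2 := P.ex j γ (fun t => (h t).2)
  rw [h1] at h2
  have key : ∀ a b c d : F2, a + b = c + d → a + c = b + d := by decide
  exact key _ _ _ _ h2

variable [LocallyPathConnectedSpace M]

/-- the bundle core -/
noncomputable def core : FiberBundleCore M M F2 where
  baseSet := P.W
  isOpen_baseSet := P.op
  indexAt := id
  mem_baseSet_at := P.mem
  coordChange i j x v := v + (P.f i x + P.f j x)
  coordChange_self i x _ v := by
    rw [CharTwo.add_self_eq_zero, add_zero]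
  continuousOn_coordChange i j := by
    rw [continuousOn_prod_of_discrete_right]
    intro v
    have hset : {a : M | (a, v) ∈ (P.W i ∩ P.W j) ×ˢ (univ : Set F2)} = P.W i ∩ P.W j := by
      ext a
      simp
    rw [hset]
    have hopen : IsOpen (P.W i ∩ P.W j) := (P.op i).inter (P.op j)
    rw [hopen.continuousOn_iff]
    intro x hx
    have hW : pathComponentIn (P.W i ∩ P.W j) x ∈ 𝓝 x :=
      (hopen.pathComponentIn x).mem_nhds (mem_pathComponentIn_self hx)
    apply ContinuousAt.congr (f := fun _ => v + (P.f i x + P.f j x)) continuousAt_const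
    filter_upwards [hW] with y hy
    have hw := fun t => JoinedIn.somePath_mem hy t
    have h1 := P.loc (JoinedIn.somePath hy) hw
    rw [h1]
  coordChange_comp i j k x _ v := by
    have key : ∀ v a b c : F2, v + (a + b) + (b + c) = v + (a + c) := by decide
    exact key _ _ _ _

/-- the cover -/
abbrev CE : Type := (core P).TotalSpace

/-- points of the cover -/
def mk (x : M) (v : F2) : CE P := ⟨x, v⟩

/-- the projection -/
noncomputable def pr' : C(CE P, M) := ⟨(core P).proj, (core P).continuous_proj⟩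

/-- the sheet -/
def sh (e : CE P) : F2 := e.2

theorem mk_eta (e : CE P) : mk P (pr' P e) (sh P e) = e := rfl
theorem pr_mk (x : M) (v : F2) : pr' P (mk P x v) = x := rfl
theorem sh_mk (x : M) (v : F2) : sh P (mk P x v) = v := rfl

theorem cov : IsCoveringMap (pr' P) :=
  FiberBundle.isCoveringMap (F := F2) (E := (core P).Fiber)

theorem triv_snd (i : M) (e : CE P) : ((core P).localTriv i e).2 = sh P e + P.f i (pr' P e) := by
  rw [FiberBundleCore.localTriv_apply]
  change sh P e + (P.f (pr' P e) (pr' P e) + P.f i (pr' P e)) = _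
  rw [P.ff, zero_add]

/-- continuity of sections -/
theorem cont_section {Y : Type} [TopologicalSpace Y] [LocallyPathConnectedSpace Y] (g : C(Y, M))
    (ψ : Y → F2) (hψ : ∀ {a b : Y} (γ : Path a b),
      u (pathSx (γ.map g.continuous)) = ψ a + ψ b) : Continuous fun y => mk P (g y) (ψ y) := by
  rw [continuous_iff_continuousAt]
  intro y₀
  rw [FiberBundle.continuousAt_totalSpace (F := F2) (E := (core P).Fiber)]
  constructor
  · exact g.continuous.continuousAt
  · have hO : IsOpen (g ⁻¹' (P.W (g y₀))) := (P.op _).preimage g.continuous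
    have hy₀ : y₀ ∈ g ⁻¹' (P.W (g y₀)) := P.mem _
    have hW : pathComponentIn (g ⁻¹' (P.W (g y₀))) y₀ ∈ 𝓝 y₀ :=
      (hO.pathComponentIn y₀).mem_nhds (mem_pathComponentIn_self hy₀)
    apply ContinuousAt.congr (f := fun _ => ψ y₀ + P.f (g y₀) (g y₀)) continuousAt_const
    filter_upwards [hW] with y hy
    have h1 := hψ (JoinedIn.somePath hy)
    have h2 := P.ex (g y₀) ((JoinedIn.somePath hy).map g.continuous)
      (fun t => JoinedIn.somePath_mem hy t)
    rw [h1] at h2
    change _ = ((core P).localTriv (g y₀) (mk P (g y) (ψ y))).2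
    rw [triv_snd, sh_mk, pr_mk]
    have key : ∀ a b c d : F2, a + b = c + d → a + c = b + d := by decide
    exact key _ _ _ _ h2

/-- the sheet cochain -/
noncomputable def shc : Co (CE P) 0 := fun σ => sh P (σ (vert 0 0))

end

/-- locally zero one-cocycles vanish -/
theorem loc_zero_one {A : Type} [TopologicalSpace A] {c : Co A 1} (hc : c ∈ Cy A 1)
    (h : c ∈ (Gr A).N 1 univ) : c = 0 := by
  obtain ⟨b', hb, hb'⟩ := nt_univ_acyclic (inc 1 c) (inc_mem_N h) (pc_inc_cy hc)
  have h1 : c = cp 1 (tdl b') := by rw [← hb', cp_inc]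
  rw [cp_tdl_succ] at h1
  have h2 : cp 0 b' = 0 := by
    funext σ
    obtain ⟨U, hU, hx, h3⟩ := cp_mem_N (p := 0) hb (σ (vert 0 0)) (mem_univ _)
    apply h3
    rw [eq_pt σ]
    rintro _ ⟨y, rfl⟩
    exact hx
  rw [h1, h2, map_zero]

section

variable {M : Type} [TopologicalSpace M] {u : Co M 1} (P : Prim u)
  [LocallyPathConnectedSpace M]

theorem small_path {e e' : CE P} (Γ : Path e e') (i : M) (h : ∀ t, pr' P (Γ t) ∈ P.W i) :
    u (pathSx (Γ.map (pr' P).continuous)) = sh P e + sh P e' := by
  have h1 := P.ex i (Γ.map (pr' P).continuous) h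
  have h2 : Continuous fun t => ((core P).localTriv i (Γ t)).2 := by
    refine continuous_snd.comp ?_
    refine ((core P).localTriv i).continuousOn.comp_continuous Γ.continuous ?_
    intro t
    rw [FiberBundleCore.mem_localTriv_source]
    exact h t
  have h3 : ((core P).localTriv i (Γ 0)).2 = ((core P).localTriv i (Γ 1)).2 :=
    PreconnectedSpace.constant inferInstance h2
  rw [triv_snd, triv_snd, Γ.source, Γ.target] at h3
  rw [h1]
  have key : ∀ a b c d : F2, a + b = c + d → b + d = a + c := by decide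
  exact key _ _ _ _ h3

/-- the pulled back cocycle is the coboundary of the sheet -/
theorem pull_eq (hu : u ∈ Cy M 1) : pull (pr' P) 1 u = dl 0 (shc P) := by
  apply co_eq_of_add
  apply loc_zero_one
  · refine Submodule.add_mem _ (pull_Cy _ hu) ?_
    change dl 1 (dl 0 (shc P)) = 0
    exact dl_dl 0 _
  · intro e _
    refine ⟨pr' P ⁻¹' (P.W (pr' P e)), (P.op _).preimage (pr' P).continuous, P.mem _, ?_⟩
    intro σ hσ
    obtain ⟨x, y, Γ, rfl⟩ := exists_path σ
    have h1 := small_path P Γ (pr' P e) (by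
      intro t
      apply hσ
      exact ⟨xpPt t, xp_apply Γ t⟩)
    have h2 : pull (pr' P) 1 u (pathSx Γ) = sh P x + sh P y := by
      rw [← h1]
      change u ((pr' P).comp (pathSx Γ)) = _
      rw [comp_pathSx (pr' P) Γ (Γ.map (pr' P).continuous) (fun t => rfl)]
    rw [Pi.add_apply, h2, dl_apply, Fin.sum_univ_two]
    change sh P x + sh P y + (shc P (sface 0 0 (pathSx Γ)) + shc P (sface 0 1 (pathSx Γ))) = 0
    rw [face_zero, face_one]
    change sh P x + sh P y + (sh P y + sh P x) = 0
    have key : ∀ a b : F2, a + b + (b + a) = 0 := by decide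
    exact key _ _

theorem path_sh (hu : u ∈ Cy M 1) {e e' : CE P} (Γ : Path e e') :
    u (pathSx (Γ.map (pr' P).continuous)) = sh P e + sh P e' := by
  have h1 : u (pathSx (Γ.map (pr' P).continuous)) = pull (pr' P) 1 u (pathSx Γ) := by
    change _ = u ((pr' P).comp (pathSx Γ))
    rw [comp_pathSx (pr' P) Γ (Γ.map (pr' P).continuous) (fun t => rfl)]
  rw [h1, pull_eq P hu, dl_apply, Fin.sum_univ_two]
  change shc P (sface 0 0 (pathSx Γ)) + shc P (sface 0 1 (pathSx Γ)) = _
  rw [face_zero, face_one]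
  exact add_comm _ _

/-- path lifting -/
theorem lift_path (hu : u ∈ Cy M 1) {x y : M} (γ : Path x y) (v : F2) :
    ∃ Γ : Path (mk P x v) (mk P y (v + u (pathSx γ))), ∀ t, pr' P (Γ t) = γ t := by
  obtain ⟨Γ, h1, h2⟩ := (cov P).exists_path_lifts ⟨γ, γ.continuous⟩ (mk P x v) (by
    change γ 0 = x
    exact γ.source)
  have h3 : ∀ t, pr' P (Γ t) = γ t := fun t => congrFun h1 t
  have h4 : pr' P (Γ 1) = y := (h3 1).trans γ.target
  let Γ' : Path (mk P x v) (Γ 1) := ⟨Γ, h2, rfl⟩
  have h5 := path_sh P hu Γ'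
  have h6 : pathSx (Γ'.map (pr' P).continuous) = pathSx γ := by
    refine ContinuousMap.ext fun s => ?_
    have hu : s.1 1 ∈ Icc (0 : ℝ) 1 := mem_Icc_of_mem_stdSimplex s.2 1
    change (Γ'.map (pr' P).continuous).extend (s.1 1) = γ.extend (s.1 1)
    rw [Path.extend_apply _ hu, Path.extend_apply γ hu]
    exact h3 _
  rw [h6, sh_mk] at h5
  have h7 : sh P (Γ 1) = v + u (pathSx γ) := by
    rw [h5]
    have key : ∀ a b : F2, b = a + (a + b) := by decide
    exact key _ _
  have h8 : Γ 1 = mk P y (v + u (pathSx γ)) := by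
    rw [← mk_eta P (Γ 1), h4, h7]
  exact ⟨⟨Γ, h2, h8⟩, h3⟩

theorem pconn [PathConnectedSpace M] (hu : u ∈ Cy M 1) {x₀ : M} (ω : Path x₀ x₀)
    (hω : u (pathSx ω) = 1) : PathConnectedSpace (CE P) := by
  have h : ∀ e : CE P, Joined (mk P x₀ 0) e := by
    intro e
    obtain ⟨Γ, -⟩ := lift_path P hu (PathConnectedSpace.somePath x₀ (pr' P e)) 0
    obtain ⟨Γ', -⟩ := lift_path P hu (PathConnectedSpace.somePath x₀ (pr' P e)) 1
    obtain ⟨Γ₀, -⟩ := lift_path P hu ω 0
    rw [hω] at Γ₀
    rw [← mk_eta P e]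
    by_cases hs : sh P e = 0 + u (pathSx (PathConnectedSpace.somePath x₀ (pr' P e)))
    · rw [hs]
      exact ⟨Γ⟩
    · have h2 : sh P e = 1 + u (pathSx (PathConnectedSpace.somePath x₀ (pr' P e))) := by
        revert hs
        generalize sh P e = a
        generalize u (pathSx (PathConnectedSpace.somePath x₀ (pr' P e))) = b
        revert a b
        decide
      rw [h2]
      exact ⟨Path.trans Γ₀ Γ'⟩
  exact ⟨⟨mk P x₀ 0⟩, fun x y => (h x).symm.trans (h y)⟩

theorem lift_hom {e e' : CE P} {Γ Γ' : Path e e'}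
    (h : (Γ.map (pr' P).continuous).Homotopic (Γ'.map (pr' P).continuous)) : Γ.Homotopic Γ' := by
  apply Path.Homotopic.Quotient.exact
  apply (cov P).injective_path_homotopic_map e e'
  exact Path.Homotopic.Quotient.eq.2 h

end

end Pool.Agent.L7h59.M3
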