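import Pool.Agent.L7h59.M3.Cover

/-! The double cover as a compact manifold, and its label. -/

set_option autoImplicit false
set_option linter.unusedVariables false
set_option linter.unusedSectionVars false

namespace Pool.Agent.L7h59.M3

open Set Topology
open Pool.Agent.Helper158.PD Pool.Agent.Helper158.TC
open Pool.Agent.Helper922.HB.Sc (Sing sface altd vert)

section

variable {M : Type} [TopologicalSpace M] {u : Co M 1} (P : Prim u)
  [LocallyPathConnectedSpace M]

theorem ce_t2 [T2Space M] : T2Space (CE P) := by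
  refine ⟨fun x y hxy => ?_⟩
  by_cases h : pr' P x = pr' P y
  · exact (cov P).isSeparatedMap x y h hxy
  · obtain ⟨U, V, hU, hV, hx, hy, hd⟩ := t2_separation h
    exact ⟨_, _, hU.preimage (pr' P).continuous, hV.preimage (pr' P).continuous, hx, hy,
      hd.preimage _⟩

theorem ce_compact [CompactSpace M] [T2Space M] : CompactSpace (CE P) := by
  have h1 : ∀ i : M, ∃ K : Set M, IsCompact K ∧ i ∈ interior K ∧ K ⊆ P.W i :=
    fun i => exists_compact_subset (P.op i) (P.mem i)
  choose K hK hiK hKW using h1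
  obtain ⟨t, ht⟩ := isCompact_univ.elim_finite_subcover (fun i => interior (K i))
    (fun i => isOpen_interior) (fun i _ => mem_iUnion.2 ⟨i, hiK i⟩)
  have h2 : ∀ i, IsCompact (pr' P ⁻¹' (K i)) := by
    intro i
    have h3 : IsCompact (K i ×ˢ (univ : Set F2)) := (hK i).prod isCompact_univ
    have h4 : ContinuousOn ((core P).localTriv i).toOpenPartialHomeomorph.symm
        (K i ×ˢ (univ : Set F2)) := by
      refine ((core P).localTriv i).toOpenPartialHomeomorph.symm.continuousOn.mono ?_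
      rintro ⟨x, v⟩ ⟨hx, -⟩
      rw [OpenPartialHomeomorph.symm_source, ((core P).localTriv i).target_eq]
      exact ⟨hKW i hx, mem_univ _⟩
    have h5 := h3.image_of_continuousOn h4
    convert h5 using 1
    ext e
    constructor
    · intro he
      refine ⟨(core P).localTriv i e, ⟨?_, mem_univ _⟩, ?_⟩
      · rw [FiberBundleCore.localTriv_apply]
        exact he
      · refine ((core P).localTriv i).toOpenPartialHomeomorph.left_inv ?_
        change e ∈ ((core P).localTriv i).source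
        rw [FiberBundleCore.mem_localTriv_source]
        exact hKW i he
    · rintro ⟨⟨x, v⟩, ⟨hx, -⟩, rfl⟩
      exact hx
  refine ⟨?_⟩
  have h3 : (univ : Set (CE P)) = ⋃ i ∈ t, pr' P ⁻¹' (K i) := by
    symm
    rw [eq_univ_iff_forall]
    intro e
    obtain ⟨i, hi⟩ := mem_iUnion.1 (ht (mem_univ (pr' P e)))
    obtain ⟨hi1, hi2⟩ := mem_iUnion.1 hi
    have hi3 : pr' P e ∈ K i := interior_subset hi2
    exact mem_iUnion.2 ⟨i, mem_iUnion.2 ⟨hi1, hi3⟩⟩
  rw [h3]
  exact t.finite_toSet.isCompact_biUnion (fun i _ => h2 i)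

theorem loc_homeo (e : CE P) : ∃ φ : OpenPartialHomeomorph (CE P) M, e ∈ φ.source ∧
    ∀ x, φ x = pr' P x := by
  obtain ⟨φ, h1, h2⟩ := (cov P).isLocalHomeomorph e
  exact ⟨φ, h1, fun x => by rw [← h2]⟩

/-- local inverses of the projection -/
noncomputable def lh (e : CE P) : OpenPartialHomeomorph (CE P) M := (loc_homeo P e).choose

theorem lh_mem (e : CE P) : e ∈ (lh P e).source := (loc_homeo P e).choose_spec.1
theorem lh_eq (e x : CE P) : lh P e x = pr' P x := (loc_homeo P e).choose_spec.2 x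

/-- charts of the cover -/
@[reducible] noncomputable def ce_cs [ChartedSpace Hf M] : ChartedSpace Hf (CE P) where
  atlas := range fun e : CE P => (lh P e).trans (chartAt Hf (pr' P e))
  chartAt e := (lh P e).trans (chartAt Hf (pr' P e))
  mem_chart_source e := by
    rw [OpenPartialHomeomorph.trans_source]
    refine ⟨lh_mem P e, ?_⟩
    change lh P e e ∈ (chartAt Hf (pr' P e)).source
    rw [lh_eq]
    exact mem_chart_source Hf _
  chart_mem_atlas e := ⟨e, rfl⟩

theorem mem_bd_cover [ChartedSpace Hf M] (e : CE P) :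
    e ∈ @bd (CE P) _ (ce_cs P) ↔ pr' P e ∈ bd M := by
  change (chartAt Hf (pr' P e) (lh P e e)).1 0 = 0 ↔ (chartAt Hf (pr' P e) (pr' P e)).1 0 = 0
  rw [lh_eq]

end

/-! ### the label -/

/-- the kernel of the first coordinate -/
def Nf {Γ : Type} [Group Γ] (f : Γ →* Hs) : Subgroup Γ where
  carrier := {g | (f g).p = 0}
  mul_mem' := by
    intro a b ha hb
    change (f (a * b)).p = 0
    change (f a).p = 0 at ha
    change (f b).p = 0 at hb
    rw [map_mul, Hs.mul_p, ha, hb, add_zero]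
  one_mem' := by
    change (f 1).p = 0
    rw [map_one]; rfl
  inv_mem' := by
    intro a ha
    change (f a⁻¹).p = 0
    rw [map_inv]
    exact ha

theorem mem_Nf {Γ : Type} [Group Γ] (f : Γ →* Hs) (g : Γ) : g ∈ Nf f ↔ (f g).p = 0 := Iff.rfl

section

variable {M : Type} [TopologicalSpace M] [LocallyPathConnectedSpace M] {x₀ : M} {Γ : Type}
  [Group Γ] (L : Lab M x₀ Γ) (f : Γ →* Hs) (P : Prim (hc L f)) (g₁ : Γ)

/-- powers -/
def tw (a : F2) : Γ := if a = 0 then 1 else g₁

theorem f_tw (h : (f g₁).p = 1) (a : F2) : (f (tw g₁ a)).p = a := by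
  unfold tw
  split_ifs with h0
  · rw [map_one, h0]; rfl
  · rw [h]
    revert h0 a
    decide

/-- the label of the cover, in the big group -/
noncomputable def lab0 (σ : Sing (CE P) 1) : Γ :=
  tw g₁ (shc P (sface 0 1 σ)) * L.c ((pr' P).comp σ) * (tw g₁ (shc P (sface 0 0 σ)))⁻¹

theorem lab0_mem (h : (f g₁).p = 1) (σ : Sing (CE P) 1) : lab0 L f P g₁ σ ∈ Nf f := by
  rw [mem_Nf, lab0, map_mul, map_mul, map_inv, Hs.mul_p, Hs.mul_p]
  change (f (tw g₁ (shc P (sface 0 1 σ)))).p + (f (L.c ((pr' P).comp σ))).p +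
    (f (tw g₁ (shc P (sface 0 0 σ)))).p = 0
  rw [f_tw f g₁ h, f_tw f g₁ h]
  have h1 : (f (L.c ((pr' P).comp σ))).p = pull (pr' P) 1 (hc L f) σ := rfl
  rw [h1, pull_eq P (hc_mem L f), dl_apply, Fin.sum_univ_two]
  have key : ∀ a b : F2, a + (b + a) + b = 0 := by decide
  exact key _ _

theorem face_a {A : Type} [TopologicalSpace A] (τ : Sing A 2) :
    sface 0 1 (sface 1 1 τ) = sface 0 1 (sface 1 2 τ) := sface_sface_swap 0 2 1 τ
theorem face_b {A : Type} [TopologicalSpace A] (τ : Sing A 2) :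
    sface 0 1 (sface 1 0 τ) = sface 0 0 (sface 1 2 τ) := sface_sface_swap 0 2 0 τ
theorem face_c {A : Type} [TopologicalSpace A] (τ : Sing A 2) :
    sface 0 0 (sface 1 0 τ) = sface 0 0 (sface 1 1 τ) := sface_sface_swap 0 1 0 τ

theorem lab0_h1 (τ : Sing (CE P) 2) : lab0 L f P g₁ (sface 1 1 τ) =
    lab0 L f P g₁ (sface 1 2 τ) * lab0 L f P g₁ (sface 1 0 τ) := by
  unfold lab0
  rw [face_a, face_b, face_c]
  have h1 := L.h1 ((pr' P).comp τ)
  have h2 : ∀ i, sface 1 i ((pr' P).comp τ) = (pr' P).comp (sface 1 i τ) := fun i => rfl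
  rw [h2, h2, h2] at h1
  rw [h1]
  group

/-- the label of the cover -/
noncomputable def labE (h : (f g₁).p = 1) : Lab (CE P) (mk P x₀ 0) (Nf f) where
  c σ := ⟨lab0 L f P g₁ σ, lab0_mem L f P g₁ h σ⟩
  h1 τ := Subtype.ext (lab0_h1 L f P g₁ τ)
  h2 g := by
    obtain ⟨γ, hγ⟩ := L.h2 g.1
    have h2 : hc L f (pathSx γ) = 0 := by
      change (f (L.c (pathSx γ))).p = 0
      rw [hγ]
      exact g.2
    obtain ⟨Γ₀, h1⟩ : ∃ Γ₀ : Path (mk P x₀ 0) (mk P x₀ 0), ∀ t, pr' P (Γ₀ t) = γ t := by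
      have h3 := lift_path P (hc_mem L f) γ 0
      rwa [h2, add_zero] at h3
    refine ⟨Γ₀, ?_⟩
    apply Subtype.ext
    change lab0 L f P g₁ (pathSx Γ₀) = g.1
    unfold lab0
    rw [face_zero, face_one, comp_pathSx (pr' P) Γ₀ γ h1, hγ]
    change tw g₁ 0 * g.1 * (tw g₁ 0)⁻¹ = g.1
    rw [tw, if_pos rfl, one_mul, inv_one, mul_one]
  h3 γ γ' hγ := by
    apply lift_hom P
    apply L.h3
    have h1 := congrArg Subtype.val hγ
    change lab0 L f P g₁ (pathSx γ) = lab0 L f P g₁ (pathSx γ') at h1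
    unfold lab0 at h1
    rw [face_zero, face_one, face_zero, face_one] at h1
    have h2 := mul_right_cancel h1
    have h3 := mul_left_cancel h2
    rw [comp_pathSx (pr' P) γ (γ.map (pr' P).continuous) (fun t => rfl),
      comp_pathSx (pr' P) γ' (γ'.map (pr' P).continuous) (fun t => rfl)] at h3
    exact h3

end

end Pool.Agent.L7h59.M3
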