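import Pool.Agent.L7h59.M3.Struct

/-! Duality data on the double from Poincare duality. -/

set_option autoImplicit false
set_option linter.unusedVariables false
set_option linter.unusedSectionVars false

namespace Pool.Agent.L7h59.M3

open Set Topology
open Pool.Agent.Helper158.PD Pool.Agent.Helper158.TC
open Pool.Agent.Helper922.HB.Sc (Sing sface altd vert)

/-- Poincare duality with the germ property of the functional -/
theorem fund (X : Type) [TopologicalSpace X] [CompactSpace X] [T2Space X] (m : ℕ)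
    [ChartedSpace (EuclideanSpace ℝ (Fin (m + 1))) X] [CompletelyNormalSpace X] [T4Space X] :
    ∃ I : (Gr X).D (m + 1), (∀ c : Co X m, I.1 (dl m c) = 0) ∧
      (∀ (p q : ℕ) (h : p + q = m + 1) (a : Co X p), a ∈ Cy X p →
        (∀ b ∈ Cy X q, I.1 (cup h a b) = 0) → a ∈ Bd X p) ∧
      (∀ p, Module.Finite F2 (Hc X p)) ∧ ∀ x : X, I ∈ Rset m x := by
  obtain ⟨I, hI, hR⟩ := exists_fund (X := X) m
  refine ⟨I, hI, ?_, ?_, hR⟩
  · intro p q h a ha hb
    obtain ⟨a', ha'⟩ := total_inj I hI hR (inc p a) (pc_inc_cy ha) (fun b hbb => by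
      rw [pc_inc_pair h]
      exact hb _ (pc_cp_cy hbb))
    exact pc_bd_of ha'
  · intro p
    exact pc_finite_Hc p (pc_finiteQ I.1 hI (fun φ hφ => total_surj I hI hR φ hφ))

/-- locally zero cocycles are exact -/
theorem loc_zero {A : Type} [TopologicalSpace A] {p : ℕ} {u : Co A p} (hu : u ∈ Cy A p)
    (h : u ∈ (Gr A).N p univ) : u ∈ Bd A p := by
  obtain ⟨b', -, hb'⟩ := nt_univ_acyclic (inc p u) (inc_mem_N h) (pc_inc_cy hu)
  exact pc_bd_of hb'

/-- a local generator -/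
theorem exists_gen {X : Type} [TopologicalSpace X] [CompactSpace X] [T2Space X] (m : ℕ)
    [ChartedSpace (EuclideanSpace ℝ (Fin (m + 1))) X] [CompletelyNormalSpace X] [T4Space X]
    (I : (Gr X).D (m + 1)) {x : X} (hR : I ∈ Rset m x) {W : Set X} (hW : IsOpen W) (hx : x ∈ W) :
    ∃ w ∈ Cy X (m + 1), I.1 w = 1 ∧ w ∈ (Gr X).N (m + 1) Wᶜ := by
  obtain ⟨V, hVW, hV, hxV, -, h1⟩ := Rset_small (hasBoxes (X := X) (m + 1)) hR hW hx
  obtain ⟨w, hw⟩ := box_gen (X := X) hV
  obtain ⟨h2, h3, -⟩ := box_top_ne hw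
  obtain ⟨ν, hν, h4⟩ := nt_univ_acyclic (tdl (inc (m + 1) w)) (by
    rw [tdl_inc]; exact inc_mem_N h3) (tdl_tdl _)
  have hν' : cp (m + 1) ν ∈ (Gr X).N (m + 1) univ := cp_mem_N hν
  refine ⟨w - cp (m + 1) ν, ?_, ?_, ?_⟩
  · have h5 := pc_cp_cy (q := m + 1) (b := inc (m + 1) w - ν) (by rw [map_sub, h4, sub_self])
    rwa [map_sub, cp_inc] at h5
  · rw [map_sub, h1 w hw, I.2 _ hν', sub_zero]
  · refine Submodule.sub_mem _ ?_ ?_
    · exact (Gr X).N_mono (compl_subset_compl.2 hVW) h2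
    · exact (Gr X).N_mono (subset_univ _) hν'

theorem const_of_pathConnected {A : Type} [TopologicalSpace A] [PathConnectedSpace A] {u : Co A 0}
    (hu : u ∈ Cy A 0) : ∃ k : F2, u = fun _ => k := by
  obtain ⟨a₀⟩ := PathConnectedSpace.nonempty (X := A)
  refine ⟨u (pt a₀), ?_⟩
  funext σ
  rw [eq_pt σ]
  exact zero_path hu (PathConnectedSpace.somePath _ _)

/-- **duality data on the double** -/
theorem Dbl.exists_dua {X M : Type} [TopologicalSpace X] [TopologicalSpace M] (D : Dbl X M)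
    [CompactSpace X] [T2Space X] [ChartedSpace (EuclideanSpace ℝ (Fin 3)) X]
    [PathConnectedSpace X] [CompletelyNormalSpace X] [T4Space X] (x : X) (W : Set X)
    (hW : IsOpen W) (hx : x ∈ W) (hi : ∀ m, D.i true m ∉ W) : Nonempty D.Dua := by
  obtain ⟨I, hI, hnd, hfin, hR⟩ := fund X 2
  let J : Hc X 3 →ₗ[F2] F2 := Submodule.liftQ _ (I.1.comp (Cy X 3).subtype) (by
    rintro a ⟨b, hb⟩
    change I.1 a.1 = 0
    have h1 : dl 2 b = a.1 := hb
    rw [← h1, hI])
  have hJ : ∀ (u : Co X 3) (hu : u ∈ Cy X 3), J (cls u hu) = I.1 u := fun u hu => rfl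
  refine ⟨⟨J, ?_, ?_, hfin, ?_⟩⟩
  · intro y h
    obtain ⟨a, ha, rfl⟩ := cls_surj y
    rw [cls_eq_zero]
    apply hnd 1 2 rfl a ha
    intro b hb
    have h1 := h (cls b hb)
    rwa [cupH_cls, hJ] at h1
  · intro y h
    obtain ⟨a, ha, rfl⟩ := cls_surj y
    rw [cls_eq_zero]
    apply hnd 2 1 rfl a ha
    intro b hb
    have h1 := h (cls b hb)
    rwa [cupH_cls, hJ] at h1
  · intro z
    obtain ⟨w, hw, hIw, hwN⟩ := exists_gen 2 I (hR x) hW hx
    have hiw : pull (D.i true) 3 w ∈ Bd M 3 := by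
      apply loc_zero (pull_Cy _ hw)
      intro m _
      obtain ⟨U, hU, hmU, h1⟩ := hwN (D.i true m) (hi m)
      refine ⟨D.i true ⁻¹' U, hU.preimage (D.i true).continuous, hmU, fun σ hσ => ?_⟩
      apply h1
      rintro _ ⟨y, rfl⟩
      exact hσ ⟨y, rfl⟩
    set u : Hc X 3 := D.rH 3 z + J (D.rH 3 z) • cls w hw with hu
    have hJu : J u = 0 := by
      rw [hu, map_add, map_smul, hJ, hIw, smul_eq_mul, mul_one]
      exact CharTwo.add_self_eq_zero _
    have hu0 : u = 0 := by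
      obtain ⟨a, ha, h1⟩ := cls_surj u
      rw [← h1, cls_eq_zero]
      apply hnd 3 0 rfl a ha
      intro b hb
      obtain ⟨k, rfl⟩ := const_of_pathConnected hb
      have h2 : cup (show 3 + 0 = 3 from rfl) a (fun _ => k) = k • a := by
        funext σ
        rw [cup_apply, sub_id (front (show 3 + 0 = 3 from rfl)) (fun i => rfl), Pi.smul_apply,
          smul_eq_mul, mul_comm]
      rw [h2, map_smul, ← hJ a ha, h1, hJu, smul_zero]
    have h3 := congrArg (D.iH true 3) hu0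
    rw [hu, map_add, map_smul, D.iH_rH true, (pullH_eq_zero _ hw).2 hiw, smul_zero, add_zero,
      map_zero] at h3
    rw [h3, map_zero, map_zero]

end Pool.Agent.L7h59.M3
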