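import Pool.Agent.L7h59.M3.Bdy
import Pool.Agent.L7h59.M3.Iso

/-! The collared double of a 3-manifold with boundary. -/

set_option autoImplicit false
set_option linter.unusedVariables false
set_option linter.unusedSectionVars false

namespace Pool.Agent.L7h59.M3

open Set Topology

/-- signs -/
def sg (j : Bool) : ℝ := if j then 1 else -1

theorem sg_sq (j : Bool) : sg j * sg j = 1 := by cases j <;> simp [sg]
theorem abs_sg (j : Bool) : |sg j| = 1 := by cases j <;> simp [sg]
theorem sg_not (j : Bool) : sg (!j) = - sg j := by cases j <;> simp [sg]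
theorem abs_sg_mul (j : Bool) (c : ℝ) : |sg j * c| = |c| := by rw [abs_mul, abs_sg, one_mul]
theorem sg_sg_mul (j : Bool) (c : ℝ) : sg j * (sg j * c) = c := by rw [← mul_assoc, sg_sq, one_mul]

variable (M : Type) [TopologicalSpace M] [ChartedSpace Hf M]

/-- the points of the collared double -/
def DS : Set (M × ℝ) := {p | |p.2| ≤ 1 ∧ (p.1 ∈ bd M ∨ |p.2| = 1)}

/-- the collared double -/
abbrev DX : Type := DS M

variable {M}

theorem isClosed_DS : IsClosed (DS M) := by
  have h1 : IsClosed {p : M × ℝ | |p.2| ≤ 1} :=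
    isClosed_le (continuous_abs.comp continuous_snd) continuous_const
  have h2 : IsClosed {p : M × ℝ | p.1 ∈ bd M} := isClosed_bd.preimage continuous_fst
  have h3 : IsClosed {p : M × ℝ | |p.2| = 1} :=
    isClosed_eq (continuous_abs.comp continuous_snd) continuous_const
  exact h1.inter (h2.union h3)

instance [CompactSpace M] : CompactSpace (DX M) := by
  rw [← isCompact_iff_compactSpace]
  have h : IsCompact ((univ : Set M) ×ˢ Icc (-1 : ℝ) 1) := isCompact_univ.prod isCompact_Icc
  refine h.of_isClosed_subset isClosed_DS ?_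
  rintro p ⟨h1, -⟩
  exact ⟨mem_univ _, abs_le.1 h1⟩

/-- membership of the inverse chart -/
theorem inv_mem (j : Bool) (e : OpenPartialHomeomorph M Hf) {u : E3} (h1 : -2 < u 0)
    (h2 : rho u ∈ e.target) : (e.symm (rho u), sg j * (1 + min (u 0) 0)) ∈ DS M := by
  constructor
  · change |sg j * (1 + min (u 0) 0)| ≤ 1
    rw [abs_sg_mul, abs_le]
    constructor
    · rcases min_choice (u 0) 0 with h | h <;> rw [h] <;> linarith
    · linarith [min_le_right (u 0) 0]
  · change e.symm (rho u) ∈ bd M ∨ |sg j * (1 + min (u 0) 0)| = 1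
    rcases le_or_gt 0 (u 0) with h | h
    · right
      rw [abs_sg_mul, min_eq_right h, add_zero, abs_one]
    · left
      rw [mem_bd e (e.map_target h2), e.right_inv h2]
      change upd u (max (u 0) 0) 0 = 0
      rw [upd_zero, max_eq_right h.le]

open Classical in
/-- the charts of the double -/
noncomputable def ch (j : Bool) (e : OpenPartialHomeomorph M Hf) (p₀ : DX M) :
    OpenPartialHomeomorph (DX M) E3 where
  toFun p := upd (e p.1.1).1 ((e p.1.1).1 0 + sg j * p.1.2 - 1)
  invFun u := if h : (e.symm (rho u), sg j * (1 + min (u 0) 0)) ∈ DS M then ⟨_, h⟩ else p₀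
  source := {p | p.1.1 ∈ e.source ∧ -1 < sg j * p.1.2}
  target := {u | -2 < u 0 ∧ rho u ∈ e.target}
  map_source' := by
    rintro ⟨⟨m, s⟩, hs1, hs2⟩ ⟨h1, h2⟩
    change m ∈ e.source at h1
    change -1 < sg j * s at h2
    change |s| ≤ 1 at hs1
    change m ∈ bd M ∨ |s| = 1 at hs2
    have hy := (e m).2
    constructor
    · change -2 < upd (e m).1 ((e m).1 0 + sg j * s - 1) 0
      rw [upd_zero]
      linarith
    · change rho (upd (e m).1 ((e m).1 0 + sg j * s - 1)) ∈ e.target
      have h3 : rho (upd (e m).1 ((e m).1 0 + sg j * s - 1)) = e m := by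
        apply Subtype.ext
        change upd (upd (e m).1 ((e m).1 0 + sg j * s - 1))
          (max (upd (e m).1 ((e m).1 0 + sg j * s - 1) 0) 0) = (e m).1
        rw [upd_upd, upd_zero]
        have h4 : max ((e m).1 0 + sg j * s - 1) 0 = (e m).1 0 := by
          by_cases hs : sg j * s = 1
          · rw [hs, add_sub_cancel_right, max_eq_left hy]
          · have h5 : |s| ≠ 1 := by
              intro h
              rw [← abs_sg_mul j] at h
              rcases abs_eq (zero_le_one' ℝ) |>.1 h with h | h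
              · exact hs h
              · linarith
            have h6 := (mem_bd e h1).1 (hs2.resolve_right h5)
            have h7 : sg j * s ≤ 1 := by
              rw [← abs_sg_mul j] at hs1
              exact (abs_le.1 hs1).2
            rw [h6, max_eq_right (by linarith)]
        rw [h4, upd_self]
      rw [h3]
      exact e.map_source h1
  map_target' := by
    rintro u ⟨h1, h2⟩
    beta_reduce
    rw [dif_pos (inv_mem j e h1 h2)]
    constructor
    · exact e.map_target h2
    · change -1 < sg j * (sg j * (1 + min (u 0) 0))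
      rw [sg_sg_mul]
      rcases min_choice (u 0) 0 with h | h <;> rw [h] <;> linarith
  left_inv' := by
    rintro ⟨⟨m, s⟩, hs1, hs2⟩ ⟨h1, h2⟩
    change m ∈ e.source at h1
    change -1 < sg j * s at h2
    change |s| ≤ 1 at hs1
    change m ∈ bd M ∨ |s| = 1 at hs2
    have hy := (e m).2
    have h7 : sg j * s ≤ 1 := by
      have h8 := hs1
      rw [← abs_sg_mul j] at h8
      exact (abs_le.1 h8).2
    have h4 : max ((e m).1 0 + sg j * s - 1) 0 = (e m).1 0 ∧
        1 + min ((e m).1 0 + sg j * s - 1) 0 = sg j * s := by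
      by_cases hs : sg j * s = 1
      · rw [hs, add_sub_cancel_right, max_eq_left hy, min_eq_right hy, add_zero]
        exact ⟨rfl, rfl⟩
      · have h5 : |s| ≠ 1 := by
          intro h
          rw [← abs_sg_mul j] at h
          rcases abs_eq (zero_le_one' ℝ) |>.1 h with h | h
          · exact hs h
          · linarith
        have h6 := (mem_bd e h1).1 (hs2.resolve_right h5)
        rw [h6, max_eq_right (by linarith), min_eq_left (by linarith)]
        exact ⟨rfl, by ring⟩
    have h3 : rho (upd (e m).1 ((e m).1 0 + sg j * s - 1)) = e m := by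
      apply Subtype.ext
      change upd (upd (e m).1 ((e m).1 0 + sg j * s - 1))
        (max (upd (e m).1 ((e m).1 0 + sg j * s - 1) 0) 0) = (e m).1
      rw [upd_upd, upd_zero, h4.1, upd_self]
    have h5 : (e.symm (rho (upd (e m).1 ((e m).1 0 + sg j * s - 1))),
        sg j * (1 + min (upd (e m).1 ((e m).1 0 + sg j * s - 1) 0) 0)) = (m, s) := by
      rw [h3, upd_zero, h4.2, sg_sg_mul, e.left_inv h1]
    beta_reduce
    rw [dif_pos (by
      change (e.symm (rho (upd (e m).1 ((e m).1 0 + sg j * s - 1))),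
        sg j * (1 + min (upd (e m).1 ((e m).1 0 + sg j * s - 1) 0) 0)) ∈ DS M
      rw [h5]
      exact ⟨hs1, hs2⟩)]
    exact Subtype.ext h5
  right_inv' := by
    rintro u ⟨h1, h2⟩
    beta_reduce
    rw [dif_pos (inv_mem j e h1 h2)]
    change upd (e (e.symm (rho u))).1 ((e (e.symm (rho u))).1 0 +
      sg j * (sg j * (1 + min (u 0) 0)) - 1) = u
    rw [sg_sg_mul, e.right_inv h2]
    change upd (upd u (max (u 0) 0)) (upd u (max (u 0) 0) 0 + (1 + min (u 0) 0) - 1) = u
    rw [upd_upd, upd_zero]
    have h3 : max (u 0) 0 + (1 + min (u 0) 0) - 1 = u 0 := by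
      have := max_add_min (u 0) 0
      linarith
    rw [h3, upd_self]
  open_source := by
    have h1 : Continuous fun p : DX M => p.1.1 := by fun_prop
    have h2 : Continuous fun p : DX M => sg j * p.1.2 := by fun_prop
    exact (e.open_source.preimage h1).inter (isOpen_lt continuous_const h2)
  open_target := by
    have h2 : Continuous fun u : E3 => u 0 := PiLp.continuous_apply 2 _ 0
    exact (isOpen_lt continuous_const h2).inter (e.open_target.preimage continuous_rho)
  continuousOn_toFun := by
    rw [continuousOn_iff_continuous_domRestrict]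
    have h1 : Continuous fun p : {p : DX M | p.1.1 ∈ e.source ∧ -1 < sg j * p.1.2} =>
        e p.1.1.1 := by
      have h2 : Continuous fun p : {p : DX M | p.1.1 ∈ e.source ∧ -1 < sg j * p.1.2} =>
          p.1.1.1 := by fun_prop
      exact e.continuousOn.comp_continuous h2 (fun p => p.2.1)
    have h3 : Continuous fun p : {p : DX M | p.1.1 ∈ e.source ∧ -1 < sg j * p.1.2} =>
        (e p.1.1.1).1 := continuous_subtype_val.comp h1
    have h4 : Continuous fun p : {p : DX M | p.1.1 ∈ e.source ∧ -1 < sg j * p.1.2} =>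
        (e p.1.1.1).1 0 := (PiLp.continuous_apply 2 _ 0).comp h3
    have h5 : Continuous fun p : {p : DX M | p.1.1 ∈ e.source ∧ -1 < sg j * p.1.2} =>
        p.1.1.2 := by fun_prop
    exact continuous_upd h3 (by fun_prop)
  continuousOn_invFun := by
    rw [Topology.IsInducing.subtypeVal.continuousOn_iff]
    have h2 : Continuous fun u : E3 => u 0 := PiLp.continuous_apply 2 _ 0
    have h1 : ContinuousOn (fun u : E3 => (e.symm (rho u), sg j * (1 + min (u 0) 0)))
        {u | -2 < u 0 ∧ rho u ∈ e.target} := by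
      refine ContinuousOn.prodMk ?_ ?_
      · exact e.symm.continuousOn.comp continuous_rho.continuousOn (fun u hu => hu.2)
      · exact (continuous_const.mul (continuous_const.add (h2.min continuous_const))).continuousOn
    refine h1.congr ?_
    rintro u ⟨h3, h4⟩
    change (if h : (e.symm (rho u), sg j * (1 + min (u 0) 0)) ∈ DS M then
      (⟨_, h⟩ : DX M) else p₀).1 = _
    rw [dif_pos (inv_mem j e h3 h4)]

theorem mem_ch_source {j : Bool} {e : OpenPartialHomeomorph M Hf} {p₀ p : DX M}
    (h1 : p.1.1 ∈ e.source) (h2 : -1 < sg j * p.1.2) : p ∈ (ch j e p₀).source := ⟨h1, h2⟩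

open Classical in
noncomputable instance : ChartedSpace E3 (DX M) where
  atlas := range fun x : Bool × M × DX M => ch x.1 (chartAt Hf x.2.1) x.2.2
  chartAt p := ch (if 0 ≤ p.1.2 then true else false) (chartAt Hf p.1.1) p
  mem_chart_source p := by
    refine mem_ch_source (mem_chart_source Hf p.1.1) ?_
    split_ifs with h
    · rw [sg, if_pos rfl]; linarith
    · rw [sg, if_neg (by simp)]
      push Not at h
      linarith
  chart_mem_atlas p := ⟨(_, _, _), rfl⟩

/-- projection to the base -/
def prj : C(DX M, M) := ⟨fun p => p.1.1, by fun_prop⟩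

/-- the two copies -/
def cpy (j : Bool) : C(M, DX M) :=
  ⟨fun m => ⟨(m, sg j), by
    refine ⟨?_, Or.inr (abs_sg j)⟩
    exact (abs_sg j).le⟩, by fun_prop⟩

/-- the two open sets -/
def UU (M : Type) [TopologicalSpace M] [ChartedSpace Hf M] (j : Bool) : Set (DX M) :=
  {p | -1 < sg j * p.1.2}

theorem flow_mem (j : Bool) {p : DX M} (hp : p ∈ UU M j) (t : unitInterval) :
    (p.1.1, (1 - (t : ℝ)) * p.1.2 + t * sg j) ∈ DS M ∧
      -1 < sg j * ((1 - (t : ℝ)) * p.1.2 + t * sg j) := by
  obtain ⟨⟨m, s⟩, hs1, hs2⟩ := p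
  change |s| ≤ 1 at hs1
  change m ∈ bd M ∨ |s| = 1 at hs2
  change -1 < sg j * s at hp
  have ht0 : (0 : ℝ) ≤ t := t.2.1
  have ht1 : (t : ℝ) ≤ 1 := t.2.2
  have e : sg j * ((1 - (t : ℝ)) * s + t * sg j) = (1 - t) * (sg j * s) + t := by
    have := sg_sq j
    linear_combination (t : ℝ) * this
  have h7 : sg j * s ≤ 1 := by
    have h8 := hs1
    rw [← abs_sg_mul j] at h8
    exact (abs_le.1 h8).2
  have hlow : -1 < (1 - (t : ℝ)) * (sg j * s) + t := by nlinarith
  have hup : (1 - (t : ℝ)) * (sg j * s) + t ≤ 1 := by nlinarith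
  refine ⟨⟨?_, ?_⟩, ?_⟩
  · change |(1 - (t : ℝ)) * s + t * sg j| ≤ 1
    rw [← abs_sg_mul j, e, abs_le]
    exact ⟨hlow.le, hup⟩
  · change m ∈ bd M ∨ |(1 - (t : ℝ)) * s + t * sg j| = 1
    rcases hs2 with h | h
    · exact Or.inl h
    · right
      rw [← abs_sg_mul j, e]
      have h9 : sg j * s = 1 := by
        rw [← abs_sg_mul j] at h
        rcases abs_eq (zero_le_one' ℝ) |>.1 h with h | h
        · exact h
        · linarith
      rw [h9]
      ring_nf
      exact abs_one
  · change -1 < sg j * ((1 - (t : ℝ)) * s + t * sg j)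
    rw [e]
    exact hlow

/-- the double as a space covered by two open sets -/
def dbl (M : Type) [TopologicalSpace M] [ChartedSpace Hf M] : Dbl (DX M) M where
  r := prj
  i := cpy
  U := UU M
  op j := by
    have h2 : Continuous fun p : DX M => sg j * p.1.2 := by fun_prop
    exact isOpen_lt continuous_const h2
  cov p := by
    by_cases h : 0 ≤ p.1.2
    · refine ⟨true, ?_⟩
      change -1 < sg true * p.1.2
      rw [sg, if_pos rfl]; linarith
    · refine ⟨false, ?_⟩
      change -1 < sg false * p.1.2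
      push Not at h
      rw [sg, if_neg (by simp)]; linarith
  F j := ⟨fun q => ⟨⟨(q.1.1.1.1, (1 - (q.2 : ℝ)) * q.1.1.1.2 + q.2 * sg j),
    (flow_mem j q.1.2 q.2).1⟩, (flow_mem j q.1.2 q.2).2⟩, by fun_prop⟩
  F0 j x := by
    apply Subtype.ext
    apply Subtype.ext
    apply Prod.ext
    · rfl
    · change (1 - ((0 : unitInterval) : ℝ)) * x.1.1.2 + ((0 : unitInterval) : ℝ) * sg j = x.1.1.2
      rw [Set.Icc.coe_zero]
      ring
  F1 j x := by
    apply Subtype.ext
    apply Prod.ext
    · rfl
    · change (1 - ((1 : unitInterval) : ℝ)) * x.1.1.2 + ((1 : unitInterval) : ℝ) * sg j = sg j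
      rw [Set.Icc.coe_one]
      ring
  ri j m := rfl
  iU j m := by
    change -1 < sg j * sg j
    rw [sg_sq]
    norm_num

theorem mem_V {p : DX M} (h : p ∈ (dbl M).V) : p.1.1 ∈ bd M := by
  obtain ⟨h1, h2⟩ := h
  change -1 < sg true * p.1.2 at h1
  change -1 < sg false * p.1.2 at h2
  rw [sg, if_pos rfl] at h1
  rw [sg, if_neg (by simp)] at h2
  rcases p.2.2 with h | h
  · exact h
  · rcases abs_eq (zero_le_one' ℝ) |>.1 h with h | h <;> linarith

theorem mem_V_iff {m : M} {s : ℝ} (h : (m, s) ∈ DS M) :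
    (⟨(m, s), h⟩ : DX M) ∈ (dbl M).V ↔ -1 < s ∧ s < 1 := by
  change (-1 < sg true * s ∧ -1 < sg false * s) ↔ _
  rw [sg, if_pos rfl, sg, if_neg (by simp)]
  constructor
  · rintro ⟨h1, h2⟩
    constructor <;> linarith
  · rintro ⟨h1, h2⟩
    constructor <;> linarith

theorem DX_pathConnected [PathConnectedSpace M] (hne : (bd M).Nonempty) :
    PathConnectedSpace (DX M) := by
  obtain ⟨b, hb⟩ := hne
  have hm : ∀ s : ℝ, |s| ≤ 1 → (b, s) ∈ DS M := fun s hs => ⟨hs, Or.inl hb⟩
  have h1 : ∀ (j : Bool) (m m' : M), Joined (cpy j m) (cpy j m') := fun j m m' =>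
    ⟨(PathConnectedSpace.somePath m m').map (cpy j).continuous⟩
  have h2 : ∀ (j : Bool) (p : DX M), p ∈ UU M j → Joined p (cpy j p.1.1) := by
    intro j p hp
    refine ⟨⟨⟨fun t => ((dbl M).F j (⟨p, hp⟩, t)).1, by fun_prop⟩, ?_, ?_⟩⟩
    · exact congrArg Subtype.val ((dbl M).F0 j ⟨p, hp⟩)
    · exact (dbl M).F1 j ⟨p, hp⟩
  have hb0 : (⟨(b, 0), hm 0 (by simp)⟩ : DX M) ∈ UU M true := by
    change -1 < sg true * 0
    simp
  have hb1 : (⟨(b, 0), hm 0 (by simp)⟩ : DX M) ∈ UU M false := by
    change -1 < sg false * 0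
    simp
  have h3 : Joined (cpy true b) (cpy false b) := (h2 true _ hb0).symm.trans (h2 false _ hb1)
  have h4 : ∀ p : DX M, Joined (cpy true b) p := by
    intro p
    obtain ⟨j, hj⟩ := (dbl M).cov p
    cases j
    · exact h3.trans ((h1 false b p.1.1).trans (h2 false p hj).symm)
    · exact (h1 true b p.1.1).trans (h2 true p hj).symm
  exact ⟨⟨cpy true b⟩, fun p q => (h4 p).symm.trans (h4 q)⟩

/-- duality data on the collared double -/
theorem DX_dua [CompactSpace M] [T2Space M] [PathConnectedSpace M] (hne : (bd M).Nonempty) :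
    Nonempty (dbl M).Dua := by
  have := DX_pathConnected hne
  obtain ⟨b, hb⟩ := hne
  have : SecondCountableTopology (DX M) :=
    ChartedSpace.secondCountable_of_sigmaCompact (EuclideanSpace ℝ (Fin 3)) (DX M)
  refine (dbl M).exists_dua (cpy false b) {p | p.1.2 < 1} ?_ ?_ ?_
  · have h2 : Continuous fun p : DX M => p.1.2 := by fun_prop
    exact isOpen_lt h2 continuous_const
  · change sg false < 1
    rw [sg, if_neg (by simp)]
    norm_num
  · intro m h
    change sg true < 1 at h
    rw [sg, if_pos rfl] at h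
    exact lt_irrefl _ h

end Pool.Agent.L7h59.M3
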