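import Pool.Agent.L7h59.M3.Coch

/-! A space covered by two open sets which retract onto copies of a space. -/

set_option autoImplicit false
set_option linter.unusedVariables false

namespace Pool.Agent.L7h59.M3

open Set Topology
open Pool.Agent.Helper158.PD Pool.Agent.Helper158.TC
open Pool.Agent.Helper922.HB.Sc (Sing sface altd vert)

section ext

variable {X : Type} [TopologicalSpace X]

/-- the inclusion of a subset -/
def io (U : Set X) : C(U, X) := ⟨Subtype.val, continuous_subtype_val⟩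

/-- corestriction of a simplex -/
def cores (U : Set X) {n : ℕ} (σ : Sing X n) (h : range σ ⊆ U) : Sing U n :=
  ⟨fun x => ⟨σ x, h ⟨x, rfl⟩⟩, Continuous.subtype_mk σ.continuous _⟩

theorem range_io (U : Set X) {n : ℕ} (σ : Sing U n) : range ((io U).comp σ) ⊆ U := by
  rintro _ ⟨x, rfl⟩
  exact (σ x).2

theorem cores_io (U : Set X) {n : ℕ} (σ : Sing U n) (h : range ((io U).comp σ) ⊆ U) :
    cores U ((io U).comp σ) h = σ := rfl

theorem io_cores (U : Set X) {n : ℕ} (σ : Sing X n) (h : range σ ⊆ U) :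
    (io U).comp (cores U σ h) = σ := rfl

open Classical in
/-- extension by zero -/
noncomputable def ext0 (U : Set X) (n : ℕ) : Co U n →ₗ[F2] Co X n where
  toFun v σ := if h : range σ ⊆ U then v (cores U σ h) else 0
  map_add' a b := by
    funext σ
    simp only [Pi.add_apply]
    split_ifs <;> simp
  map_smul' r a := by
    funext σ
    simp only [Pi.smul_apply, RingHom.id_apply]
    split_ifs <;> simp

theorem ext0_of (U : Set X) {n : ℕ} (v : Co U n) {σ : Sing X n} (h : range σ ⊆ U) :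
    ext0 U n v σ = v (cores U σ h) := dif_pos h

theorem ext0_not (U : Set X) {n : ℕ} (v : Co U n) {σ : Sing X n} (h : ¬ range σ ⊆ U) :
    ext0 U n v σ = 0 := dif_neg h

theorem pull_ext0 (U : Set X) {n : ℕ} (v : Co U n) : pull (io U) n (ext0 U n v) = v := by
  funext σ
  rw [pull_apply, ext0_of U v (range_io U σ)]
  rfl

theorem dl_ext0 (U : Set X) {n : ℕ} (v : Co U n) {σ : Sing X (n + 1)} (h : range σ ⊆ U) :
    dl n (ext0 U n v) σ = dl n v (cores U σ h) := by
  have h1 : σ = (io U).comp (cores U σ h) := rfl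
  have h2 : dl n (ext0 U n v) σ = pull (io U) (n + 1) (dl n (ext0 U n v)) (cores U σ h) := rfl
  rw [h2, ← dl_pull, pull_ext0]

/-- agreement of cochains on the simplices of a subset -/
def On (U : Set X) {n : ℕ} (a b : Co X n) : Prop := ∀ σ : Sing X n, range σ ⊆ U → a σ = b σ

theorem on_iff {U : Set X} {n : ℕ} {a b : Co X n} :
    On U a b ↔ pull (io U) n a = pull (io U) n b := by
  constructor
  · intro h
    funext σ
    exact h _ (range_io U σ)
  · intro h σ hσ
    exact congrFun h (cores U σ hσ)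

theorem On.dl {U : Set X} {n : ℕ} {a b : Co X n} (h : On U a b) : On U (dl n a) (dl n b) := by
  rw [on_iff] at h ⊢
  rw [← dl_pull, ← dl_pull, h]

theorem On.mono {U V : Set X} {n : ℕ} {a b : Co X n} (h : On U a b) (hV : V ⊆ U) : On V a b :=
  fun σ hσ => h σ (hσ.trans hV)

theorem On.refl {U : Set X} {n : ℕ} (a : Co X n) : On U a a := fun _ _ => rfl

theorem On.symm {U : Set X} {n : ℕ} {a b : Co X n} (h : On U a b) : On U b a :=
  fun σ hσ => (h σ hσ).symm

theorem On.trans {U : Set X} {n : ℕ} {a b c : Co X n} (h : On U a b) (h' : On U b c) :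
    On U a c := fun σ hσ => (h σ hσ).trans (h' σ hσ)

theorem On.add {U : Set X} {n : ℕ} {a b a' b' : Co X n} (h : On U a b) (h' : On U a' b') :
    On U (a + a') (b + b') := by
  intro σ hσ
  rw [Pi.add_apply, Pi.add_apply, h σ hσ, h' σ hσ]

theorem On.cup {U : Set X} {p q r : ℕ} (hr : p + q = r) {a a' : Co X p} {b b' : Co X q}
    (h : On U a a') (h' : On U b b') : On U (cup hr a b) (cup hr a' b') := by
  intro σ hσ
  rw [cup_apply, cup_apply, h _ ((range_sub _ σ).trans hσ), h' _ ((range_sub _ σ).trans hσ)]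

end ext

theorem co_add_self {X : Type} [TopologicalSpace X] {n : ℕ} (a : Co X n) : a + a = 0 := by
  funext σ
  exact CharTwo.add_self_eq_zero _

theorem co_eq_of_add {X : Type} [TopologicalSpace X] {n : ℕ} {a b : Co X n} (h : a + b = 0) :
    a = b := by
  have h1 : a + b + b = b := by rw [h, zero_add]
  rwa [add_assoc, co_add_self, add_zero] at h1

/-- a space covered by two open sets which retract onto copies of `M` -/
structure Dbl (X M : Type) [TopologicalSpace X] [TopologicalSpace M] where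
  r : C(X, M)
  i : Bool → C(M, X)
  U : Bool → Set X
  op : ∀ j, IsOpen (U j)
  cov : ∀ x, ∃ j, x ∈ U j
  F : ∀ j, C(U j × unitInterval, U j)
  F0 : ∀ j x, F j (x, 0) = x
  F1 : ∀ j x, (F j (x, 1) : X) = i j (r x)
  ri : ∀ j m, r (i j m) = m
  iU : ∀ j m, i j m ∈ U j

namespace Dbl

variable {X M : Type} [TopologicalSpace X] [TopologicalSpace M] (D : Dbl X M)

/-- the intersection -/
def V : Set X := D.U true ∩ D.U false

theorem V_sub (j : Bool) : D.V ⊆ D.U j := by
  cases j
  · exact inter_subset_right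
  · exact inter_subset_left

theorem mem_V {x : X} {j : Bool} (h : x ∈ D.U j) (h' : x ∈ D.U (!j)) : x ∈ D.V := by
  cases j
  · exact ⟨h', h⟩
  · exact ⟨h, h'⟩

theorem sub_V {S : Set X} {j : Bool} (h : S ⊆ D.U j) (h' : S ⊆ D.U (!j)) : S ⊆ D.V :=
  fun x hx => D.mem_V (h hx) (h' hx)

theorem r_comp_i (j : Bool) : D.r.comp (D.i j) = ContinuousMap.id M :=
  ContinuousMap.ext (D.ri j)

theorem pull_i_r (j : Bool) {n : ℕ} (u : Co M n) : pull (D.i j) n (pull D.r n u) = u := by
  rw [pull_pull, r_comp_i, pull_id]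

/-- the copy inside `U j` -/
def iu (j : Bool) : C(M, D.U j) := ⟨fun m => ⟨D.i j m, D.iU j m⟩, by fun_prop⟩

/-- simplices contained in one of the two sets -/
theorem small {n : ℕ} (u : Co X (n + 1)) (hu : u ∈ Cy X (n + 1)) (h : ∀ j, On (D.U j) u 0) :
    u ∈ Bd X (n + 1) := by
  refine small_zero (range D.U) ?_ ?_ u hu ?_
  · rintro _ ⟨j, rfl⟩
    exact D.op j
  · intro x
    obtain ⟨j, hj⟩ := D.cov x
    exact ⟨_, ⟨j, rfl⟩, hj⟩
  · rintro σ ⟨_, ⟨j, rfl⟩, hσ⟩
    exact h j σ hσ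

theorem ext {n : ℕ} (u : Co X n) (h : ∀ j, On (D.U j) (dl n u) 0) :
    ∃ u' ∈ Cy X n, ∀ j, On (D.U j) u' u := by
  obtain ⟨u', h1, h2⟩ := ext_small (range D.U) (by
    rintro _ ⟨j, rfl⟩
    exact D.op j) (fun x => by
    obtain ⟨j, hj⟩ := D.cov x
    exact ⟨_, ⟨j, rfl⟩, hj⟩) u (by
    rintro σ ⟨_, ⟨j, rfl⟩, hσ⟩
    exact h j σ hσ)
  exact ⟨u', h1, fun j σ hσ => h2 σ ⟨_, ⟨j, rfl⟩, hσ⟩⟩

/-- homotopy formula on `U j` for cocycles of `U j` -/
theorem htpyU (j : Bool) {n : ℕ} (u : Co (D.U j) (n + 1)) (hu : u ∈ Cy (D.U j) (n + 1)) :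
    u + pull ((D.iu j).comp (D.r.comp (io (D.U j)))) (n + 1) u ∈ Bd (D.U j) (n + 1) := by
  obtain ⟨v, hv, -⟩ := prism (D.F j) u hu
  refine ⟨v, ?_⟩
  funext σ
  rw [hv]
  have h0 : (D.F j).comp (σ.prodMk (ContinuousMap.const _ 0)) = σ := by
    ext x
    exact congrArg Subtype.val (D.F0 j (σ x))
  have h1 : (D.F j).comp (σ.prodMk (ContinuousMap.const _ 1)) =
      ((D.iu j).comp (D.r.comp (io (D.U j)))).comp σ := by
    ext x
    exact D.F1 j (σ x)
  rw [h0, h1, add_comm]
  rfl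

/-- a class which vanishes on a copy is a coboundary near the copy -/
theorem KL (j : Bool) {n : ℕ} (a : Co X (n + 1)) (ha : a ∈ Cy X (n + 1))
    (h : pull (D.i j) (n + 1) a ∈ Bd M (n + 1)) : ∃ φ : Co X n, On (D.U j) a (dl n φ) := by
  obtain ⟨w, hw⟩ := h
  obtain ⟨v, hv⟩ := D.htpyU j (pull (io (D.U j)) (n + 1) a) (pull_Cy _ ha)
  refine ⟨ext0 (D.U j) n v + pull D.r n w, ?_⟩
  rw [on_iff, map_add, map_add, ← dl_pull, pull_ext0, hv]
  have h1 : pull ((D.iu j).comp (D.r.comp (io (D.U j)))) (n + 1)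
      (pull (io (D.U j)) (n + 1) a) = pull (io (D.U j)) (n + 1) (dl n (pull D.r n w)) := by
    rw [dl_pull, hw]
    rfl
  rw [h1, add_assoc, co_add_self, add_zero]

/-- **locality**: products of classes vanishing on different copies vanish -/
theorem loc (j : Bool) {p q r : ℕ} (hr : p + 1 + (q + 1) = r) {a : Co X (p + 1)} {b : Co X (q + 1)}
    (ha : a ∈ Cy X (p + 1)) (hb : b ∈ Cy X (q + 1)) (ha' : pull (D.i j) (p + 1) a ∈ Bd M (p + 1))
    (hb' : pull (D.i (!j)) (q + 1) b ∈ Bd M (q + 1)) : cup hr a b ∈ Bd X r := by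
  obtain ⟨φ, hφ⟩ := D.KL j a ha ha'
  obtain ⟨ψ, hψ⟩ := D.KL (!j) b hb hb'
  have hφd : dl p φ ∈ Bd X (p + 1) := ⟨φ, rfl⟩
  have hψd : dl q ψ ∈ Bd X (q + 1) := ⟨ψ, rfl⟩
  have h1 : cup hr (a + dl p φ) (b + dl q ψ) ∈ Bd X r := by
    obtain ⟨r', rfl⟩ : ∃ r', r = r' + 1 := ⟨p + q + 1, by omega⟩
    refine D.small _ (cup_Cy hr (Submodule.add_mem _ ha (Bd_le_Cy _ hφd))
      (Submodule.add_mem _ hb (Bd_le_Cy _ hψd))) ?_
    intro k σ hσ
    rw [cup_apply]
    by_cases hk : k = j
    · subst hk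
      have : (a + dl p φ) (sub (front hr) σ) = 0 := by
        rw [Pi.add_apply, hφ _ ((range_sub _ σ).trans hσ)]
        exact CharTwo.add_self_eq_zero _
      rw [this, zero_mul]; rfl
    · have hk' : k = !j := by cases k <;> cases j <;> simp_all
      subst hk'
      have : (b + dl q ψ) (sub (back hr) σ) = 0 := by
        rw [Pi.add_apply, hψ _ ((range_sub _ σ).trans hσ)]
        exact CharTwo.add_self_eq_zero _
      rw [this, mul_zero]; rfl
  have h2 : cup hr a b = cup hr (a + dl p φ) (b + dl q ψ) + cup hr a (dl q ψ) +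
      cup hr (dl p φ) (b + dl q ψ) := by
    simp only [map_add, LinearMap.add_apply]
    have e : ∀ x y z w : Co X r, x = x + z + (y + w) + y + (z + w) := by
      intro x y z w
      have e1 : x + z + (y + w) + y + (z + w) = x + (z + z) + (y + y) + (w + w) := by abel
      rw [e1, co_add_self, co_add_self, co_add_self]; simp
    exact e _ _ _ _
  rw [h2]
  exact Submodule.add_mem _ (Submodule.add_mem _ h1 (cup_Bd_right hr ha hψd))
    (cup_Bd_left hr hφd (Submodule.add_mem _ hb (Bd_le_Cy _ hψd)))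

end Dbl

end Pool.Agent.L7h59.M3
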