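import Pool.Agent.L7h59.M3.Coh

/-! Consequences of duality on the double. -/

set_option autoImplicit false
set_option linter.unusedVariables false

namespace Pool.Agent.L7h59.M3

open Set Topology
open Pool.Agent.Helper158.PD Pool.Agent.Helper158.TC
open Pool.Agent.Helper922.HB.Sc (Sing sface altd vert)

/-- abbreviations for the products which occur -/
abbrev h11 : 1 + 1 = 2 := rfl
abbrev h12 : 1 + 2 = 3 := rfl
abbrev h21 : 2 + 1 = 3 := rfl

namespace Dbl

variable {X M : Type} [TopologicalSpace X] [TopologicalSpace M] (D : Dbl X M)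

/-- restriction to a copy -/
noncomputable abbrev iH (j : Bool) (p : ℕ) : Hc X p →ₗ[F2] Hc M p := pullH (D.i j) p

/-- pullback under the retraction -/
noncomputable abbrev rH (p : ℕ) : Hc M p →ₗ[F2] Hc X p := pullH D.r p

theorem iH_rH (j : Bool) {p : ℕ} (z : Hc M p) : D.iH j p (D.rH p z) = z := by
  rw [pullH_pullH, r_comp_i, pullH_id]

theorem locH (j : Bool) {p q r : ℕ} (hr : p + 1 + (q + 1) = r) {a : Hc X (p + 1)}
    {b : Hc X (q + 1)} (ha : D.iH j (p + 1) a = 0) (hb : D.iH (!j) (q + 1) b = 0) :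
    cupH hr a b = 0 := by
  obtain ⟨a, ha', rfl⟩ := cls_surj a
  obtain ⟨b, hb', rfl⟩ := cls_surj b
  rw [cupH_cls, cls_eq_zero]
  exact D.loc j hr ha' hb' ((pullH_eq_zero _ ha').1 ha) ((pullH_eq_zero _ hb').1 hb)

theorem iH_corr (j : Bool) {p : ℕ} (b : Hc X p) : D.iH j p (b + D.rH p (D.iH j p b)) = 0 := by
  rw [map_add, iH_rH, hc_add_self]

theorem replR (j : Bool) {p q r : ℕ} (hr : p + 1 + (q + 1) = r) {a : Hc X (p + 1)}
    (b : Hc X (q + 1)) (ha : D.iH j (p + 1) a = 0) :
    cupH hr a b = cupH hr a (D.rH (q + 1) (D.iH (!j) (q + 1) b)) := by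
  apply hc_eq_of_add
  rw [← map_add]
  exact D.locH j hr ha (D.iH_corr (!j) b)

theorem replL (j : Bool) {p q r : ℕ} (hr : p + 1 + (q + 1) = r) (b : Hc X (p + 1))
    {a : Hc X (q + 1)} (ha : D.iH j (q + 1) a = 0) :
    cupH hr b a = cupH hr (D.rH (p + 1) (D.iH (!j) (p + 1) b)) a := by
  apply hc_eq_of_add
  rw [← LinearMap.add_apply, ← map_add]
  refine D.locH (!j) hr (D.iH_corr (!j) b) ?_
  rwa [Bool.not_not]

/-- duality data -/
structure Dua where
  I : Hc X 3 →ₗ[F2] F2
  nd12 : ∀ x : Hc X 1, (∀ b : Hc X 2, I (cupH h12 x b) = 0) → x = 0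
  nd21 : ∀ x : Hc X 2, (∀ b : Hc X 1, I (cupH h21 x b) = 0) → x = 0
  fin : ∀ p, Module.Finite F2 (Hc X p)
  iso : ∀ z : Hc M 3, I (D.rH 3 z) = 0

variable {D} (Q : D.Dua)

namespace Dua

/-- pairing -/
noncomputable def B12 : Hc X 1 →ₗ[F2] Hc X 2 →ₗ[F2] F2 := (cupH h12).compr₂ Q.I

/-- pairing -/
noncomputable def B21 : Hc X 2 →ₗ[F2] Hc X 1 →ₗ[F2] F2 := (cupH h21).compr₂ Q.I

theorem B12_apply (x : Hc X 1) (b : Hc X 2) : Q.B12 x b = Q.I (cupH h12 x b) := rfl
theorem B21_apply (x : Hc X 2) (b : Hc X 1) : Q.B21 x b = Q.I (cupH h21 x b) := rfl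

include Q in
theorem finrank_eq : Module.finrank F2 (Hc X 1) = Module.finrank F2 (Hc X 2) := by
  have := Q.fin 1
  have := Q.fin 2
  apply le_antisymm
  · have h1 : Function.Injective Q.B12 := by
      rw [← LinearMap.ker_eq_bot, LinearMap.ker_eq_bot']
      intro x hx
      exact Q.nd12 x (fun b => LinearMap.congr_fun hx b)
    have h2 := LinearMap.finrank_le_finrank_of_injective h1
    rwa [Subspace.dual_finrank_eq (K := F2) (V := Hc X 2)] at h2
  · have h1 : Function.Injective Q.B21 := by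
      rw [← LinearMap.ker_eq_bot, LinearMap.ker_eq_bot']
      intro x hx
      exact Q.nd21 x (fun b => LinearMap.congr_fun hx b)
    have h2 := LinearMap.finrank_le_finrank_of_injective h1
    rwa [Subspace.dual_finrank_eq (K := F2) (V := Hc X 1)] at h2

theorem B21_surj : Function.Surjective Q.B21 := by
  have := Q.fin 1
  have := Q.fin 2
  have h1 : Function.Injective Q.B21 := by
    rw [← LinearMap.ker_eq_bot, LinearMap.ker_eq_bot']
    intro x hx
    exact Q.nd21 x (fun b => LinearMap.congr_fun hx b)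
  refine (LinearMap.injective_iff_surjective_of_finrank_eq_finrank ?_).1 h1
  rw [← Q.finrank_eq]
  exact (Subspace.dual_finrank_eq (K := F2) (V := Hc X 1)).symm

theorem nd_right {x : Hc X 1} (h : ∀ b : Hc X 2, Q.I (cupH h21 b x) = 0) : x = 0 := by
  rw [← Module.forall_dual_apply_eq_zero_iff F2 x]
  intro f
  obtain ⟨b, rfl⟩ := Q.B21_surj f
  exact h b

theorem surj_right (l : Hc X 2 →ₗ[F2] F2) : ∃ x : Hc X 1, ∀ b : Hc X 2,
    Q.I (cupH h21 b x) = l b := by
  have := Q.fin 1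
  have := Q.fin 2
  have h1 : Function.Injective Q.B21.flip := by
    rw [← LinearMap.ker_eq_bot, LinearMap.ker_eq_bot']
    intro x hx
    exact Q.nd_right (fun b => LinearMap.congr_fun hx b)
  have h2 : Function.Surjective Q.B21.flip := by
    refine (LinearMap.injective_iff_surjective_of_finrank_eq_finrank ?_).1 h1
    rw [Q.finrank_eq]
    exact (Subspace.dual_finrank_eq (K := F2) (V := Hc X 2)).symm
  obtain ⟨x, hx⟩ := h2 l
  exact ⟨x, fun b => LinearMap.congr_fun hx b⟩

theorem dualC (j : Bool) {z : Hc M 1}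
    (h : ∀ b : Hc X 2, D.iH j 2 b = 0 → Q.I (cupH h21 b (D.rH 1 z)) = 0) : z = 0 := by
  have h1 : D.rH 1 z = 0 := by
    apply Q.nd_right
    intro b
    have e : b = D.rH 2 (D.iH j 2 b) + (b + D.rH 2 (D.iH j 2 b)) := by
      rw [add_comm b, ← add_assoc, hc_add_self, zero_add]
    rw [e, map_add, LinearMap.add_apply, map_add, h _ (D.iH_corr j b), add_zero,
      ← pullH_cupH]
    exact Q.iso _
  rw [← D.iH_rH j z, h1, map_zero]

/-- every functional on the cohomology of the base is represented by a relative class -/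
theorem rep_dual (l : Hc M 2 →ₗ[F2] F2) : ∃ x : Hc X 1, D.iH true 1 x = 0 ∧
    ∀ h : Hc M 2, Q.I (cupH h21 (D.rH 2 h) x) = l h := by
  obtain ⟨x, hx⟩ := Q.surj_right (l.comp (D.iH false 2))
  refine ⟨x, ?_, ?_⟩
  · apply Q.dualC false
    intro b hb
    have h1 := D.replR false (show 1 + 1 + (0 + 1) = 3 from rfl) x hb
    change cupH h21 b x = cupH h21 b (D.rH 1 (D.iH true 1 x)) at h1
    rw [← h1, hx b, LinearMap.comp_apply, hb, map_zero]
  · intro h
    rw [hx, LinearMap.comp_apply, iH_rH]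

end Dua

variable (D)

/-- classes vanishing on both copies -/
noncomputable def Z2 : Submodule F2 (Hc X 2) := LinearMap.ker (D.iH true 2) ⊓ LinearMap.ker (D.iH false 2)

/-- relative classes of degree one -/
noncomputable def P1 : Submodule F2 (Hc X 1) := LinearMap.ker (D.iH true 1)

/-- image of the relative classes -/
noncomputable def K1 : Submodule F2 (Hc M 1) := (D.P1).map (D.iH false 1)

variable {D}

theorem fin_M (Q : D.Dua) (p : ℕ) : Module.Finite F2 (Hc M p) := by
  have := Q.fin p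
  refine Module.Finite.of_injective (D.rH p) ?_
  intro a b h
  rw [← D.iH_rH true a, h, iH_rH]

theorem Dua.mem_K1 (Q : D.Dua) (y : Hc M 1) :
    y ∈ D.K1 ↔ ∀ ζ ∈ D.Z2, Q.I (cupH h21 ζ (D.rH 1 y)) = 0 := by
  constructor
  · rintro ⟨x, hx, rfl⟩ ζ ⟨h1, h2⟩
    have hx' : D.iH true 1 x = 0 := hx
    have e1 := D.replR true (show 1 + 1 + (0 + 1) = 3 from rfl) x (LinearMap.mem_ker.1 h1)
    have e2 := D.replR false (show 1 + 1 + (0 + 1) = 3 from rfl) x (LinearMap.mem_ker.1 h2)
    change cupH h21 ζ x = cupH h21 ζ (D.rH 1 (D.iH false 1 x)) at e1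
    change cupH h21 ζ x = cupH h21 ζ (D.rH 1 (D.iH true 1 x)) at e2
    rw [← e1, e2, hx', map_zero, map_zero, map_zero]
  · intro h
    let f : LinearMap.ker (D.iH true 2) →ₗ[F2] Hc M 2 :=
      (D.iH false 2).comp (LinearMap.ker (D.iH true 2)).subtype
    let g : LinearMap.ker (D.iH true 2) →ₗ[F2] F2 :=
      ((Q.B21).flip (D.rH 1 y)).comp (LinearMap.ker (D.iH true 2)).subtype
    have hg : g ∈ (LinearMap.ker f).dualAnnihilator := by
      rw [Submodule.mem_dualAnnihilator]
      intro p hp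
      exact h p.1 ⟨p.2, hp⟩
    rw [← LinearMap.range_dualMap_eq_dualAnnihilator_ker] at hg
    obtain ⟨l, hl⟩ := hg
    obtain ⟨x, hx1, hx2⟩ := Q.rep_dual l
    refine ⟨x, hx1, ?_⟩
    apply hc_eq_of_add
    apply Q.dualC true
    intro b hb
    have e1 := D.replL true (show 1 + 1 + (0 + 1) = 3 from rfl) b hx1
    have e2 := D.replR true (show 1 + 1 + (0 + 1) = 3 from rfl) x hb
    change cupH h21 b x = cupH h21 (D.rH 2 (D.iH false 2 b)) x at e1
    change cupH h21 b x = cupH h21 b (D.rH 1 (D.iH false 1 x)) at e2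
    have e3 : Q.I (cupH h21 b (D.rH 1 y)) = l (D.iH false 2 b) :=
      (LinearMap.congr_fun hl ⟨b, hb⟩).symm
    rw [map_add, map_add, map_add, ← e2, e1, hx2, e3]
    exact CharTwo.add_self_eq_zero _

/-- duality between `Z2` and the quotient by `K1` -/
theorem Dua.finrank_Z2 (Q : D.Dua) :
    Module.finrank F2 D.Z2 + Module.finrank F2 D.K1 = Module.finrank F2 (Hc M 1) := by
  have := Q.fin 1
  have := Q.fin 2
  have := fin_M Q 1
  let f : D.Z2 →ₗ[F2] Module.Dual F2 (Hc M 1) :=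
    (LinearMap.lcomp F2 F2 (D.rH 1)).comp (Q.B21.comp D.Z2.subtype)
  have hf : ∀ (ζ : D.Z2) (y : Hc M 1), f ζ y = Q.I (cupH h21 ζ.1 (D.rH 1 y)) := fun ζ y => rfl
  have hinj : Function.Injective f := by
    rw [← LinearMap.ker_eq_bot, LinearMap.ker_eq_bot']
    intro ζ hζ
    apply Subtype.ext
    apply Q.nd21
    intro b
    have e := D.replR true (show 1 + 1 + (0 + 1) = 3 from rfl) b (LinearMap.mem_ker.1 ζ.2.1)
    change cupH h21 ζ.1 b = cupH h21 ζ.1 (D.rH 1 (D.iH false 1 b)) at e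
    rw [e, ← hf, hζ]
    rfl
  have h1 : Module.finrank F2 (LinearMap.range f) = Module.finrank F2 D.Z2 :=
    LinearMap.finrank_range_of_inj hinj
  have h2 : LinearMap.range f ≤ D.K1.dualAnnihilator := by
    rintro _ ⟨ζ, rfl⟩
    rw [Submodule.mem_dualAnnihilator]
    intro y hy
    rw [hf]
    exact (Q.mem_K1 y).1 hy ζ.1 ζ.2
  have h3 : (LinearMap.range f).dualCoannihilator ≤ D.K1 := by
    intro y hy
    rw [Q.mem_K1]
    intro ζ hζ
    rw [Submodule.mem_dualCoannihilator] at hy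
    exact hy (f ⟨ζ, hζ⟩) ⟨_, rfl⟩
  have h4 := Submodule.finrank_mono h2
  have h5 := Submodule.finrank_mono h3
  have h6 := Subspace.finrank_add_finrank_dualCoannihilator_eq (LinearMap.range f)
  have h7 := Subspace.finrank_add_finrank_dualAnnihilator_eq D.K1
  omega

end Dbl

end Pool.Agent.L7h59.M3
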