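import Pool.Agent.L7h59.M3.Pres

/-! The group: a graph of two products glued along squares. -/

set_option autoImplicit false
set_option linter.unusedVariables false
set_option linter.unusedSectionVars false

namespace Pool.Agent.L7h59.M3.Grp

open Set

/-- the free group of rank five, with basis `a₁, a₂, b₁, b₂, c` -/
abbrev F5 : Type := FreeGroup (Fin 5)

/-- basis -/
def xx (i : Fin 5) : F5 := FreeGroup.of i

/-- images of the basis under the monodromy -/
def img : Fin 5 → F5 := ![xx 0, xx 1, xx 4 * xx 2 * (xx 4)⁻¹, xx 4 * xx 3 * (xx 4)⁻¹, (xx 4)⁻¹]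

/-- the monodromy -/
def ph : F5 →* F5 := FreeGroup.lift img

theorem ph_xx (i : Fin 5) : ph (xx i) = img i := FreeGroup.lift_apply_of

theorem ph_ph : ph.comp ph = MonoidHom.id F5 := by
  apply FreeGroup.ext_hom
  intro i
  change ph (ph (xx i)) = xx i
  rw [ph_xx]
  have h4 : ph (xx 4) = (xx 4)⁻¹ := ph_xx 4
  have h2 : ph (xx 2) = xx 4 * xx 2 * (xx 4)⁻¹ := ph_xx 2
  have h3 : ph (xx 3) = xx 4 * xx 3 * (xx 4)⁻¹ := ph_xx 3
  fin_cases i
  · exact ph_xx 0
  · exact ph_xx 1
  · change ph (xx 4 * xx 2 * (xx 4)⁻¹) = xx 2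
    rw [map_mul, map_mul, map_inv, h4, h2]
    group
  · change ph (xx 4 * xx 3 * (xx 4)⁻¹) = xx 3
    rw [map_mul, map_mul, map_inv, h4, h3]
    group
  · change ph (xx 4)⁻¹ = xx 4
    rw [map_inv, h4]
    group

theorem ph_ph_apply (x : F5) : ph (ph x) = x := DFunLike.congr_fun ph_ph x

/-- the monodromy as an automorphism -/
def pe : MulAut F5 := { ph with invFun := ph, left_inv := ph_ph_apply, right_inv := ph_ph_apply }

theorem pe_apply (x : F5) : pe x = ph x := rfl

/-- the action -/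
def th : Multiplicative ℤ →* MulAut F5 := zpowersHom (MulAut F5) pe

theorem th_one : th (Multiplicative.ofAdd 1) = pe := by
  change pe ^ (1 : ℤ) = pe
  exact zpow_one pe

theorem th_two : th (Multiplicative.ofAdd 2) = 1 := by
  change pe ^ (2 : ℤ) = 1
  have : (2 : ℤ) = ((2 : ℕ) : ℤ) := rfl
  rw [this, zpow_natCast, pow_two]
  ext x
  exact ph_ph_apply x

/-- the group -/
abbrev GG : Type := F5 ⋊[th] Multiplicative ℤ

/-- embedding of the fibre -/
abbrev li : F5 →* GG := SemidirectProduct.inl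
/-- the stable letter -/
def tt : GG := SemidirectProduct.inr (Multiplicative.ofAdd 1)

theorem tt_conj (x : F5) : tt * li x * tt⁻¹ = li (ph x) := by
  have h := SemidirectProduct.inl_aut (φ := th) (Multiplicative.ofAdd 1) x
  rw [th_one] at h
  exact h.symm

theorem tt_mul (x : F5) : tt * li x = li (ph x) * tt := by
  rw [← tt_conj]; group

/-- torus generators -/
def T : Fin 2 → GG := ![tt, tt * li (xx 4)]
/-- other generators -/
def Ag : Fin 4 → GG := ![li (xx 0), li (xx 1), li (xx 2), li (xx 3)]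
/-- the pieces -/
def pj : Fin 4 → Fin 2 := ![0, 0, 1, 1]

theorem comm_GG (x : Fin 4) : Ag x * T (pj x) = T (pj x) * Ag x := by
  have h0 : ph (xx 0) = xx 0 := ph_xx 0
  have h1 : ph (xx 1) = xx 1 := ph_xx 1
  have h2 : ph (xx 2) = xx 4 * xx 2 * (xx 4)⁻¹ := ph_xx 2
  have h3 : ph (xx 3) = xx 4 * xx 3 * (xx 4)⁻¹ := ph_xx 3
  have h4 : ph (xx 4) = (xx 4)⁻¹ := ph_xx 4
  fin_cases x
  · change li (xx 0) * tt = tt * li (xx 0)
    rw [tt_mul, h0]
  · change li (xx 1) * tt = tt * li (xx 1)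
    rw [tt_mul, h1]
  · change li (xx 2) * (tt * li (xx 4)) = tt * li (xx 4) * li (xx 2)
    have e1 : li (xx 2) * (tt * li (xx 4)) = li (xx 2 * ph (xx 4)) * tt := by
      rw [tt_mul, ← mul_assoc, ← map_mul]
    have e2 : tt * li (xx 4) * li (xx 2) = li (ph (xx 4 * xx 2)) * tt := by
      rw [mul_assoc, ← map_mul, tt_mul]
    rw [e1, e2, map_mul ph, h4, h2]
    congr 2
    group
  · change li (xx 3) * (tt * li (xx 4)) = tt * li (xx 4) * li (xx 3)
    have e1 : li (xx 3) * (tt * li (xx 4)) = li (xx 3 * ph (xx 4)) * tt := by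
      rw [tt_mul, ← mul_assoc, ← map_mul]
    have e2 : tt * li (xx 4) * li (xx 3) = li (ph (xx 4 * xx 3)) * tt := by
      rw [mul_assoc, ← map_mul, tt_mul]
    rw [e1, e2, map_mul ph, h4, h3]
    congr 2
    group

theorem sq_aux : tt * li (xx 4) * (tt * li (xx 4)) = tt * tt := by
  have h4 : ph (xx 4) = (xx 4)⁻¹ := ph_xx 4
  have h5 : tt * li (xx 4) * (tt * li (xx 4)) = tt * (li (xx 4) * (tt * li (xx 4))) := by group
  rw [h5, tt_mul, ← mul_assoc (li (xx 4)), ← map_mul, h4, mul_inv_cancel, map_one, one_mul]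

theorem sq_GG (i j : Fin 2) : T i * T i = T j * T j := by
  fin_cases i <;> fin_cases j
  · rfl
  · exact sq_aux.symm
  · exact sq_aux
  · rfl

theorem gen_GG : Subgroup.closure (range T ∪ range Ag) = ⊤ := by
  set C := Subgroup.closure (range T ∪ range Ag) with hC
  have hT : ∀ i, T i ∈ C := fun i => Subgroup.subset_closure (Or.inl ⟨i, rfl⟩)
  have hA : ∀ i, Ag i ∈ C := fun i => Subgroup.subset_closure (Or.inr ⟨i, rfl⟩)
  have h4 : li (xx 4) ∈ C := by
    have h := C.mul_mem (C.inv_mem (hT 0)) (hT 1)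
    have e : (T 0)⁻¹ * T 1 = li (xx 4) := by
      change tt⁻¹ * (tt * li (xx 4)) = li (xx 4)
      group
    rwa [e] at h
  have hli : ∀ x : F5, li x ∈ C := by
    have h5 : (⊤ : Subgroup F5) ≤ C.comap li := by
      rw [← FreeGroup.closure_range_of, Subgroup.closure_le]
      rintro _ ⟨i, rfl⟩
      change li (xx i) ∈ C
      fin_cases i
      · exact hA 0
      · exact hA 1
      · exact hA 2
      · exact hA 3
      · exact h4
    exact fun x => h5 (Subgroup.mem_top x)
  rw [eq_top_iff]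
  intro g _
  rw [← SemidirectProduct.inl_left_mul_inr_right g]
  refine C.mul_mem (hli _) ?_
  have h6 : (SemidirectProduct.inr g.right : GG) = tt ^ (Multiplicative.toAdd g.right) := by
    rw [tt, ← map_zpow]
    congr 1
    apply Multiplicative.toAdd.injective
    simp
  rw [h6]
  exact C.zpow_mem (hT 0) _

/-- homomorphisms from the group -/
theorem lift_GG {K : Type*} [Group K] (τ : Fin 2 → K) (α : Fin 4 → K)
    (h1 : ∀ x, α x * τ (pj x) = τ (pj x) * α x) (h2 : ∀ i j, τ i * τ i = τ j * τ j) :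
    ∃ f : GG →* K, (∀ j, f (T j) = τ j) ∧ ∀ x, f (Ag x) = α x := by
  set fn : F5 →* K := FreeGroup.lift ![α 0, α 1, α 2, α 3, (τ 0)⁻¹ * τ 1] with hfn
  have fx : ∀ i, fn (xx i) = (![α 0, α 1, α 2, α 3, (τ 0)⁻¹ * τ 1] : Fin 5 → K) i :=
    fun i => FreeGroup.lift_apply_of
  have f0 : fn (xx 0) = α 0 := fx 0
  have f1 : fn (xx 1) = α 1 := fx 1
  have f2 : fn (xx 2) = α 2 := fx 2
  have f3 : fn (xx 3) = α 3 := fx 3
  have f4 : fn (xx 4) = (τ 0)⁻¹ * τ 1 := fx 4
  have c0 : α 0 * τ 0 = τ 0 * α 0 := h1 0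
  have c1 : α 1 * τ 0 = τ 0 * α 1 := h1 1
  have c2 : α 2 * τ 1 = τ 1 * α 2 := h1 2
  have c3 : α 3 * τ 1 = τ 1 * α 3 := h1 3
  have s : τ 0 * τ 0 = τ 1 * τ 1 := h2 0 1
  have key : ∀ b, b * τ 1 = τ 1 * b →
      (τ 0)⁻¹ * τ 1 * b * ((τ 0)⁻¹ * τ 1)⁻¹ = τ 0 * b * (τ 0)⁻¹ := by
    intro b hb
    have e1 : (τ 0)⁻¹ * τ 1 * b * ((τ 0)⁻¹ * τ 1)⁻¹ = (τ 0)⁻¹ * (τ 1 * b * (τ 1)⁻¹) * τ 0 := by
      group
    have e2 : τ 1 * b * (τ 1)⁻¹ = b := by rw [← hb]; group
    have e3 : b * (τ 0 * τ 0) = τ 0 * τ 0 * b := by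
      rw [s, ← mul_assoc, hb, mul_assoc, hb, mul_assoc]
    rw [e1, e2]
    calc (τ 0)⁻¹ * b * τ 0 = (τ 0)⁻¹ * (b * (τ 0 * τ 0)) * (τ 0)⁻¹ := by group
      _ = (τ 0)⁻¹ * (τ 0 * τ 0 * b) * (τ 0)⁻¹ := by rw [e3]
      _ = τ 0 * b * (τ 0)⁻¹ := by group
  have hconj : ∀ x : F5, fn (ph x) = τ 0 * fn x * (τ 0)⁻¹ := by
    intro x
    have h3 : fn.comp ph = (MulAut.conj (τ 0)).toMonoidHom.comp fn := by
      apply FreeGroup.ext_hom
      intro i
      change fn (ph (xx i)) = τ 0 * fn (xx i) * (τ 0)⁻¹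
      rw [ph_xx]
      fin_cases i
      · change fn (xx 0) = τ 0 * fn (xx 0) * (τ 0)⁻¹
        rw [f0, ← c0]; group
      · change fn (xx 1) = τ 0 * fn (xx 1) * (τ 0)⁻¹
        rw [f1, ← c1]; group
      · change fn (xx 4 * xx 2 * (xx 4)⁻¹) = τ 0 * fn (xx 2) * (τ 0)⁻¹
        rw [map_mul, map_mul, map_inv, f4, f2]
        exact key _ c2
      · change fn (xx 4 * xx 3 * (xx 4)⁻¹) = τ 0 * fn (xx 3) * (τ 0)⁻¹
        rw [map_mul, map_mul, map_inv, f4, f3]
        exact key _ c3
      · change fn (xx 4)⁻¹ = τ 0 * fn (xx 4) * (τ 0)⁻¹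
        rw [map_inv, f4]
        calc ((τ 0)⁻¹ * τ 1)⁻¹ = (τ 1)⁻¹ * (τ 0 * τ 0) * (τ 0)⁻¹ := by group
          _ = (τ 1)⁻¹ * (τ 1 * τ 1) * (τ 0)⁻¹ := by rw [s]
          _ = τ 0 * ((τ 0)⁻¹ * τ 1) * (τ 0)⁻¹ := by group
    exact DFunLike.congr_fun h3 x
  let fg : Multiplicative ℤ →* K := zpowersHom K (τ 0)
  have fg1 : fg (Multiplicative.ofAdd 1) = τ 0 := zpow_one (τ 0)
  have hz : ∀ g : Multiplicative ℤ, fn.comp (th g).toMonoidHom =
      (MulAut.conj (fg g)).toMonoidHom.comp fn := by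
    have hs : (⊤ : Subgroup (Multiplicative ℤ)) ≤
        { carrier := {g | ∀ x, fn (th g x) = fg g * fn x * (fg g)⁻¹}
          mul_mem' := by
            intro a b ha hb x
            rw [map_mul, map_mul]
            change fn (th a (th b x)) = _
            rw [ha, hb]
            group
          one_mem' := by
            intro x
            rw [map_one, map_one]
            change fn x = _
            group
          inv_mem' := by
            intro a ha x
            have h3 := ha (th a⁻¹ x)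
            have h4 : th a (th a⁻¹ x) = x := by
              rw [map_inv]
              exact MulAut.apply_inv_self F5 (th a) x
            rw [h4] at h3
            rw [map_inv fg, h3]
            group } := by
      intro g _
      have h3 : g = (Multiplicative.ofAdd 1) ^ (Multiplicative.toAdd g) := by
        apply Multiplicative.toAdd.injective
        simp
      rw [h3]
      refine Subgroup.zpow_mem _ ?_ _
      intro x
      rw [th_one, fg1]
      exact hconj x
    intro g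
    exact MonoidHom.ext fun x => hs (Subgroup.mem_top g) x
  refine ⟨SemidirectProduct.lift fn fg hz, ?_, ?_⟩
  · intro j
    fin_cases j
    · change SemidirectProduct.lift fn fg hz (SemidirectProduct.inr _) = _
      rw [SemidirectProduct.lift_inr, fg1]
      rfl
    · change SemidirectProduct.lift fn fg hz (SemidirectProduct.inr _ * SemidirectProduct.inl _) = _
      rw [map_mul, SemidirectProduct.lift_inr, SemidirectProduct.lift_inl, fg1, f4]
      change _ = τ 1
      group
  · intro x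
    fin_cases x
    · change SemidirectProduct.lift fn fg hz (SemidirectProduct.inl (xx 0)) = _
      rw [SemidirectProduct.lift_inl, f0]; rfl
    · change SemidirectProduct.lift fn fg hz (SemidirectProduct.inl (xx 1)) = _
      rw [SemidirectProduct.lift_inl, f1]; rfl
    · change SemidirectProduct.lift fn fg hz (SemidirectProduct.inl (xx 2)) = _
      rw [SemidirectProduct.lift_inl, f2]; rfl
    · change SemidirectProduct.lift fn fg hz (SemidirectProduct.inl (xx 3)) = _
      rw [SemidirectProduct.lift_inl, f3]; rfl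

/-- the presentation of the group -/
def presG : Pres GG pj where
  t := T
  a := Ag
  comm := comm_GG
  sq := sq_GG
  gen := gen_GG
  lift τ α h1 h2 := lift_GG τ α h1 h2

end Pool.Agent.L7h59.M3.Grp
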