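import Pool.Agent.L7h59.M3.Grp
import Pool.Agent.L7h59.M3.Cover2

/-! The subgroup of index two and its presentation. -/

set_option autoImplicit false
set_option linter.unusedVariables false
set_option linter.unusedSectionVars false

namespace Pool.Agent.L7h59.M3.Grp

open Set
open Pool.Agent.Helper158.PD

/-- monomial two-by-two matrices -/
@[ext] structure Wr (K : Type) where
  x : K
  y : K
  s : F2

namespace Wr

variable {K : Type} [Group K]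

instance : Mul (Wr K) := ⟨fun a b => ⟨a.x * (if a.s = 0 then b.x else b.y),
  a.y * (if a.s = 0 then b.y else b.x), a.s + b.s⟩⟩
instance : One (Wr K) := ⟨⟨1, 1, 0⟩⟩
instance : Inv (Wr K) := ⟨fun a => ⟨if a.s = 0 then a.x⁻¹ else a.y⁻¹,
  if a.s = 0 then a.y⁻¹ else a.x⁻¹, a.s⟩⟩

theorem mul_x (a b : Wr K) : (a * b).x = a.x * (if a.s = 0 then b.x else b.y) := rfl
theorem mul_y (a b : Wr K) : (a * b).y = a.y * (if a.s = 0 then b.y else b.x) := rfl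
theorem mul_s (a b : Wr K) : (a * b).s = a.s + b.s := rfl
theorem one_x : (1 : Wr K).x = 1 := rfl
theorem one_y : (1 : Wr K).y = 1 := rfl
theorem one_s : (1 : Wr K).s = 0 := rfl
theorem inv_x (a : Wr K) : (a⁻¹).x = if a.s = 0 then a.x⁻¹ else a.y⁻¹ := rfl
theorem inv_y (a : Wr K) : (a⁻¹).y = if a.s = 0 then a.y⁻¹ else a.x⁻¹ := rfl
theorem inv_s (a : Wr K) : (a⁻¹).s = a.s := rfl

theorem sdec (a : F2) : a = 0 ∨ a = 1 := by revert a; decide

theorem s10 : (1 : F2) ≠ 0 := by decide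
theorem s11 : (1 : F2) + 1 = 0 := by decide

instance : Group (Wr K) := Group.ofLeftAxioms
  (by
    rintro ⟨x, y, s⟩ ⟨x', y', s'⟩ ⟨x'', y'', s''⟩
    ext
    · rcases sdec s with rfl | rfl <;> rcases sdec s' with rfl | rfl <;>
        simp [mul_x, mul_y, mul_s, mul_assoc, s11]
    · rcases sdec s with rfl | rfl <;> rcases sdec s' with rfl | rfl <;>
        simp [mul_x, mul_y, mul_s, mul_assoc, s11]
    · simp only [mul_s, add_assoc])
  (by
    rintro ⟨x, y, s⟩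
    ext <;> simp [mul_x, mul_y, mul_s, one_x, one_y, one_s])
  (by
    rintro ⟨x, y, s⟩
    rcases sdec s with rfl | rfl <;> ext <;>
      simp [mul_x, mul_y, mul_s, one_x, one_y, one_s, inv_x, inv_y, inv_s, s11])

end Wr

/-- the sign of `a₁` -/
theorem exists_fG : ∃ f : GG →* Hs, (∀ j, f (T j) = 1) ∧
    ∀ x, f (Ag x) = ⟨if x = 0 then 1 else 0, 0, 0⟩ :=
  lift_GG (K := Hs) (fun _ => 1) (fun x => ⟨if x = 0 then 1 else 0, 0, 0⟩)
    (fun x => by rw [mul_one, one_mul]) (fun _ _ => rfl)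

/-- the sign of `a₁` -/
noncomputable def fG : GG →* Hs := exists_fG.choose

theorem fG_T (j : Fin 2) : fG (T j) = 1 := exists_fG.choose_spec.1 j
theorem fG_A (x : Fin 4) : fG (Ag x) = ⟨if x = 0 then 1 else 0, 0, 0⟩ :=
  exists_fG.choose_spec.2 x

theorem p_mul (a b : GG) : (fG (a * b)).p = (fG a).p + (fG b).p := by
  rw [map_mul, Hs.mul_p]
theorem p_inv (a : GG) : (fG a⁻¹).p = (fG a).p := by
  rw [map_inv]; rfl
theorem p_T (j : Fin 2) : (fG (T j)).p = 0 := by rw [fG_T]; rfl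
theorem p_A0 : (fG (Ag 0)).p = 1 := by rw [fG_A]; rfl
theorem p_A {x : Fin 4} (h : x ≠ 0) : (fG (Ag x)).p = 0 := by rw [fG_A]; exact if_neg h

/-- torus generators of the subgroup -/
def T0 : Fin 3 → GG := ![T 0, T 1, Ag 0 * T 1 * (Ag 0)⁻¹]
/-- other generators of the subgroup -/
def A0 : Fin 7 → GG := ![Ag 0 * Ag 0, Ag 1, Ag 0 * Ag 1 * (Ag 0)⁻¹, Ag 2, Ag 3,
  Ag 0 * Ag 2 * (Ag 0)⁻¹, Ag 0 * Ag 3 * (Ag 0)⁻¹]
/-- the pieces -/
def pj' : Fin 7 → Fin 3 := ![0, 0, 0, 1, 1, 2, 2]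

theorem T0_mem (j : Fin 3) : T0 j ∈ Nf fG := by
  rw [mem_Nf]
  fin_cases j
  · exact p_T 0
  · exact p_T 1
  · change (fG (Ag 0 * T 1 * (Ag 0)⁻¹)).p = 0
    rw [p_mul, p_mul, p_inv, p_T, p_A0]
    decide

theorem A0_mem (x : Fin 7) : A0 x ∈ Nf fG := by
  rw [mem_Nf]
  fin_cases x
  · change (fG (Ag 0 * Ag 0)).p = 0
    rw [p_mul, p_A0]
    decide
  · exact p_A (x := 1) (by decide)
  · change (fG (Ag 0 * Ag 1 * (Ag 0)⁻¹)).p = 0
    rw [p_mul, p_mul, p_inv, p_A0, p_A (x := 1) (by decide)]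
    decide
  · exact p_A (x := 2) (by decide)
  · exact p_A (x := 3) (by decide)
  · change (fG (Ag 0 * Ag 2 * (Ag 0)⁻¹)).p = 0
    rw [p_mul, p_mul, p_inv, p_A0, p_A (x := 2) (by decide)]
    decide
  · change (fG (Ag 0 * Ag 3 * (Ag 0)⁻¹)).p = 0
    rw [p_mul, p_mul, p_inv, p_A0, p_A (x := 3) (by decide)]
    decide

theorem comm0 (x : Fin 7) : A0 x * T0 (pj' x) = T0 (pj' x) * A0 x := by
  have c0 : Commute (Ag 0) (T 0) := comm_GG 0
  have c1 : Commute (Ag 1) (T 0) := comm_GG 1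
  have c2 : Commute (Ag 2) (T 1) := comm_GG 2
  have c3 : Commute (Ag 3) (T 1) := comm_GG 3
  have conj : ∀ {b t : GG}, Commute b t →
      Commute (Ag 0 * b * (Ag 0)⁻¹) (Ag 0 * t * (Ag 0)⁻¹) := by
    intro b t h
    change Ag 0 * b * (Ag 0)⁻¹ * (Ag 0 * t * (Ag 0)⁻¹) = Ag 0 * t * (Ag 0)⁻¹ * (Ag 0 * b * (Ag 0)⁻¹)
    calc _ = Ag 0 * (b * t) * (Ag 0)⁻¹ := by group
      _ = Ag 0 * (t * b) * (Ag 0)⁻¹ := by rw [h.eq]
      _ = _ := by group
  fin_cases x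
  · exact (c0.mul_left c0).eq
  · exact c1.eq
  · exact ((c0.mul_left c1).mul_left c0.inv_left).eq
  · exact c2.eq
  · exact c3.eq
  · exact (conj c2).eq
  · exact (conj c3).eq

theorem sq0 (i : Fin 3) : T0 i * T0 i = T 0 * T 0 := by
  have c0 : Ag 0 * T 0 = T 0 * Ag 0 := comm_GG 0
  fin_cases i
  · rfl
  · exact sq_GG 1 0
  · change Ag 0 * T 1 * (Ag 0)⁻¹ * (Ag 0 * T 1 * (Ag 0)⁻¹) = T 0 * T 0
    calc _ = Ag 0 * (T 1 * T 1) * (Ag 0)⁻¹ := by group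
      _ = Ag 0 * (T 0 * T 0) * (Ag 0)⁻¹ := by rw [sq_GG 1 0]
      _ = (Ag 0 * T 0) * T 0 * (Ag 0)⁻¹ := by group
      _ = (T 0 * Ag 0) * T 0 * (Ag 0)⁻¹ := by rw [c0]
      _ = T 0 * (Ag 0 * T 0) * (Ag 0)⁻¹ := by group
      _ = T 0 * (T 0 * Ag 0) * (Ag 0)⁻¹ := by rw [c0]
      _ = T 0 * T 0 := by group

/-- torus generators of the subgroup -/
noncomputable def T' (j : Fin 3) : Nf fG := ⟨T0 j, T0_mem j⟩
/-- other generators of the subgroup -/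
noncomputable def A' (x : Fin 7) : Nf fG := ⟨A0 x, A0_mem x⟩

theorem gen' : Subgroup.closure (range T' ∪ range A') = ⊤ := by
  set C := Subgroup.closure (range T' ∪ range A') with hC
  let H : Subgroup GG := C.map (Nf fG).subtype
  have hT : ∀ i, T0 i ∈ H := fun i => ⟨T' i, Subgroup.subset_closure (Or.inl ⟨i, rfl⟩), rfl⟩
  have hA : ∀ i, A0 i ∈ H := fun i => ⟨A' i, Subgroup.subset_closure (Or.inr ⟨i, rfl⟩), rfl⟩
  have c0 : Ag 0 * T 0 = T 0 * Ag 0 := comm_GG 0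
  -- conjugates of the generators
  have k0 : ∀ g ∈ range T ∪ range Ag, (g ∈ H ∧ Ag 0 * g * (Ag 0)⁻¹ ∈ H) ∨ g = Ag 0 := by
    rintro g (⟨j, rfl⟩ | ⟨x, rfl⟩)
    · left
      fin_cases j
      · refine ⟨hT 0, ?_⟩
        have : Ag 0 * T 0 * (Ag 0)⁻¹ = T 0 := by rw [c0]; group
        change Ag 0 * T 0 * (Ag 0)⁻¹ ∈ H
        rw [this]
        exact hT 0
      · exact ⟨hT 1, hT 2⟩
    · fin_cases x
      · right; rfl
      · left; exact ⟨hA 1, hA 2⟩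
      · left; exact ⟨hA 3, hA 5⟩
      · left; exact ⟨hA 4, hA 6⟩
  have haa : Ag 0 * Ag 0 ∈ H := hA 0
  -- closure under right multiplication
  have step : ∀ h g : GG, g ∈ range T ∪ range Ag → (h ∈ H ∨ h * (Ag 0)⁻¹ ∈ H) →
      (h * g ∈ H ∨ h * g * (Ag 0)⁻¹ ∈ H) := by
    intro h g hg hh
    rcases k0 g hg with ⟨g1, g2⟩ | rfl
    · rcases hh with hh | hh
      · exact Or.inl (H.mul_mem hh g1)
      · right
        have : h * g * (Ag 0)⁻¹ = h * (Ag 0)⁻¹ * (Ag 0 * g * (Ag 0)⁻¹) := by group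
        rw [this]
        exact H.mul_mem hh g2
    · rcases hh with hh | hh
      · right
        have : h * Ag 0 * (Ag 0)⁻¹ = h := by group
        rwa [this]
      · left
        have : h * Ag 0 = h * (Ag 0)⁻¹ * (Ag 0 * Ag 0) := by group
        rw [this]
        exact H.mul_mem hh haa
  have step' : ∀ h g : GG, g ∈ range T ∪ range Ag → (h ∈ H ∨ h * (Ag 0)⁻¹ ∈ H) →
      (h * g⁻¹ ∈ H ∨ h * g⁻¹ * (Ag 0)⁻¹ ∈ H) := by
    intro h g hg hh
    rcases k0 g hg with ⟨g1, g2⟩ | rfl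
    · rcases hh with hh | hh
      · exact Or.inl (H.mul_mem hh (H.inv_mem g1))
      · right
        have : h * g⁻¹ * (Ag 0)⁻¹ = h * (Ag 0)⁻¹ * (Ag 0 * g * (Ag 0)⁻¹)⁻¹ := by group
        rw [this]
        exact H.mul_mem hh (H.inv_mem g2)
    · rcases hh with hh | hh
      · right
        have : h * (Ag 0)⁻¹ * (Ag 0)⁻¹ = h * (Ag 0 * Ag 0)⁻¹ := by group
        rw [this]
        exact H.mul_mem hh (H.inv_mem haa)
      · exact Or.inl hh
  have all : ∀ g : GG, g ∈ H ∨ g * (Ag 0)⁻¹ ∈ H := by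
    intro g
    have hg : g ∈ Subgroup.closure (range T ∪ range Ag) := by rw [gen_GG]; trivial
    induction hg using Subgroup.closure_induction_right with
    | one => exact Or.inl H.one_mem
    | mul_right x hx y hy ih => exact step x y hy ih
    | mul_inv_cancel x hx y hy ih => exact step' x y hy ih
  rw [eq_top_iff]
  intro g _
  rcases all g.1 with h | h
  · obtain ⟨g', hg', h2⟩ := h
    have : g' = g := Subtype.ext h2
    rwa [← this]
  · exfalso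
    obtain ⟨g', hg', h2⟩ := h
    have h3 : (fG (g.1 * (Ag 0)⁻¹)).p = 0 := by
      rw [← h2]
      exact g'.2
    rw [p_mul, p_inv, p_A0] at h3
    have h4 : (fG g.1).p = 0 := g.2
    rw [h4, zero_add] at h3
    exact absurd h3 (by decide)

theorem lift' {K : Type} [Group K] (τ : Fin 3 → K) (α : Fin 7 → K)
    (h1 : ∀ x, α x * τ (pj' x) = τ (pj' x) * α x) (h2 : ∀ i j, τ i * τ i = τ j * τ j) :
    ∃ f : Nf fG →* K, (∀ j, f (T' j) = τ j) ∧ ∀ x, f (A' x) = α x := by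
  have r0 : α 0 * τ 0 = τ 0 * α 0 := h1 0
  have r1 : α 1 * τ 0 = τ 0 * α 1 := h1 1
  have r2 : α 2 * τ 0 = τ 0 * α 2 := h1 2
  have r3 : α 3 * τ 1 = τ 1 * α 3 := h1 3
  have r4 : α 4 * τ 1 = τ 1 * α 4 := h1 4
  have r5 : α 5 * τ 2 = τ 2 * α 5 := h1 5
  have r6 : α 6 * τ 2 = τ 2 * α 6 := h1 6
  have s1 : τ 0 * τ 0 = τ 1 * τ 1 := h2 0 1
  have s2 : τ 0 * τ 0 = τ 2 * τ 2 := h2 0 2
  obtain ⟨Ψ, e1, e2⟩ := lift_GG (K := Wr K) ![⟨τ 0, τ 0, 0⟩, ⟨τ 1, τ 2, 0⟩]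
    ![⟨1, α 0, 1⟩, ⟨α 1, α 2, 0⟩, ⟨α 3, α 5, 0⟩, ⟨α 4, α 6, 0⟩] (by
      intro x
      fin_cases x
      · change (⟨1, α 0, 1⟩ : Wr K) * ⟨τ 0, τ 0, 0⟩ = ⟨τ 0, τ 0, 0⟩ * ⟨1, α 0, 1⟩
        ext
        · simp [Wr.mul_x]
        · simp [Wr.mul_y, r0]
        · simp [Wr.mul_s]
      · change (⟨α 1, α 2, 0⟩ : Wr K) * ⟨τ 0, τ 0, 0⟩ = ⟨τ 0, τ 0, 0⟩ * ⟨α 1, α 2, 0⟩
        ext
        · simp [Wr.mul_x, r1]
        · simp [Wr.mul_y, r2]
        · simp [Wr.mul_s]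
      · change (⟨α 3, α 5, 0⟩ : Wr K) * ⟨τ 1, τ 2, 0⟩ = ⟨τ 1, τ 2, 0⟩ * ⟨α 3, α 5, 0⟩
        ext
        · simp [Wr.mul_x, r3]
        · simp [Wr.mul_y, r5]
        · simp [Wr.mul_s]
      · change (⟨α 4, α 6, 0⟩ : Wr K) * ⟨τ 1, τ 2, 0⟩ = ⟨τ 1, τ 2, 0⟩ * ⟨α 4, α 6, 0⟩
        ext
        · simp [Wr.mul_x, r4]
        · simp [Wr.mul_y, r6]
        · simp [Wr.mul_s]) (by
      have k : (⟨τ 0, τ 0, 0⟩ : Wr K) * ⟨τ 0, τ 0, 0⟩ = ⟨τ 1, τ 2, 0⟩ * ⟨τ 1, τ 2, 0⟩ := by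
        ext
        · simp [Wr.mul_x, s1]
        · simp [Wr.mul_y, s2]
        · simp [Wr.mul_s]
      intro i j
      fin_cases i <;> fin_cases j
      · rfl
      · exact k
      · exact k.symm
      · rfl)
  have t0 : Ψ (T 0) = ⟨τ 0, τ 0, 0⟩ := e1 0
  have t1 : Ψ (T 1) = ⟨τ 1, τ 2, 0⟩ := e1 1
  have a0 : Ψ (Ag 0) = ⟨1, α 0, 1⟩ := e2 0
  have a1 : Ψ (Ag 1) = ⟨α 1, α 2, 0⟩ := e2 1
  have a2 : Ψ (Ag 2) = ⟨α 3, α 5, 0⟩ := e2 2
  have a3 : Ψ (Ag 3) = ⟨α 4, α 6, 0⟩ := e2 3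
  have hs : ∀ g : GG, (Ψ g).s = (fG g).p := by
    intro g
    have hg : g ∈ Subgroup.closure (range T ∪ range Ag) := by rw [gen_GG]; trivial
    induction hg using Subgroup.closure_induction with
    | mem x hx =>
      rcases hx with ⟨j, rfl⟩ | ⟨x, rfl⟩
      · rw [p_T]
        fin_cases j
        · exact congrArg Wr.s t0
        · exact congrArg Wr.s t1
      · fin_cases x
        · exact (congrArg Wr.s a0).trans p_A0.symm
        · exact (congrArg Wr.s a1).trans (p_A (x := 1) (by decide)).symm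
        · exact (congrArg Wr.s a2).trans (p_A (x := 2) (by decide)).symm
        · exact (congrArg Wr.s a3).trans (p_A (x := 3) (by decide)).symm
    | one => rw [map_one, map_one]; rfl
    | mul x y _ _ hx hy => rw [map_mul, Wr.mul_s, hx, hy, p_mul]
    | inv x _ hx => rw [map_inv, Wr.inv_s, hx, p_inv]
  have hs0 : ∀ g : Nf fG, (Ψ g.1).s = 0 := fun g => (hs g.1).trans g.2
  let ψ : Nf fG →* K :=
    { toFun := fun g => (Ψ g.1).x
      map_one' := by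
        change (Ψ 1).x = 1
        rw [map_one]; rfl
      map_mul' := by
        intro g h
        change (Ψ (g.1 * h.1)).x = _
        rw [map_mul, Wr.mul_x, if_pos (hs0 g)] }
  have hψ : ∀ g : Nf fG, ψ g = (Ψ g.1).x := fun g => rfl
  have cj : ∀ g : GG, (Ψ g).s = 0 → (Ψ (Ag 0 * g * (Ag 0)⁻¹)).x = (Ψ g).y := by
    intro g hg
    rw [map_mul, map_mul, map_inv, a0]
    simp [Wr.mul_x, Wr.inv_y, Wr.mul_s, hg]
  refine ⟨ψ, ?_, ?_⟩
  · intro j
    rw [hψ]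
    fin_cases j
    · exact congrArg Wr.x t0
    · exact congrArg Wr.x t1
    · change (Ψ (Ag 0 * T 1 * (Ag 0)⁻¹)).x = _
      rw [cj _ (congrArg Wr.s t1)]
      exact congrArg Wr.y t1
  · intro x
    rw [hψ]
    fin_cases x
    · change (Ψ (Ag 0 * Ag 0)).x = _
      rw [map_mul, a0]
      simp [Wr.mul_x]
    · exact congrArg Wr.x a1
    · change (Ψ (Ag 0 * Ag 1 * (Ag 0)⁻¹)).x = _
      rw [cj _ (congrArg Wr.s a1)]
      exact congrArg Wr.y a1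
    · exact congrArg Wr.x a2
    · exact congrArg Wr.x a3
    · change (Ψ (Ag 0 * Ag 2 * (Ag 0)⁻¹)).x = _
      rw [cj _ (congrArg Wr.s a2)]
      exact congrArg Wr.y a2
    · change (Ψ (Ag 0 * Ag 3 * (Ag 0)⁻¹)).x = _
      rw [cj _ (congrArg Wr.s a3)]
      exact congrArg Wr.y a3

/-- the presentation of the subgroup -/
noncomputable def presN : Pres (Nf fG) pj' where
  t := T'
  a := A'
  comm x := Subtype.ext (comm0 x)
  sq i j := Subtype.ext ((sq0 i).trans (sq0 j).symm)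
  gen := gen'
  lift τ α h1 h2 := lift' τ α h1 h2

theorem big : Alg.Dat.Big pj := by
  refine ⟨⟨0, 1, by decide⟩, ?_⟩
  unfold pj
  decide

theorem big' : Alg.Dat.Big pj' := by
  refine ⟨⟨0, 1, by decide⟩, ?_⟩
  unfold pj'
  decide

end Pool.Agent.L7h59.M3.Grp
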