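import Pool.Agent.L7h59.M3.Dbl

/-! Mayer-Vietoris for the two open sets. -/

set_option autoImplicit false
set_option linter.unusedVariables false

namespace Pool.Agent.L7h59.M3

open Set Topology
open Pool.Agent.Helper158.PD Pool.Agent.Helper158.TC
open Pool.Agent.Helper922.HB.Sc (Sing sface altd vert)

/-! ### zero-cocycles -/

section zero

variable {A : Type} [TopologicalSpace A]

/-- the constant simplex -/
def pt (x : A) : Sing A 0 := ContinuousMap.const _ x

theorem eq_pt (σ : Sing A 0) : σ = pt (σ (vert 0 0)) := by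
  ext x
  have : x = vert 0 0 := Subsingleton.elim (α := stdSimplex ℝ (Fin 1)) _ _
  rw [this]; rfl

theorem comp_pt {B : Type} [TopologicalSpace B] (f : C(A, B)) (x : A) : f.comp (pt x) = pt (f x) :=
  rfl

theorem face_zero {x y : A} (γ : Path x y) : sface 0 0 (pathSx γ) = pt y := by
  rw [eq_pt (sface 0 0 (pathSx γ))]
  congr 1
  have h : (vert 0 0 : stdSimplex ℝ (Fin 1)) = stdSimplex.vertex (S := ℝ) (0 : Fin 1) :=
    Subsingleton.elim (α := stdSimplex ℝ (Fin 1)) _ _
  rw [h]
  show pathSx γ (stdSimplex.map _ (stdSimplex.vertex (S := ℝ) (0 : Fin 1))) = y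
  rw [stdSimplex.map_vertex]
  exact eol_pathSx_one γ

theorem face_one {x y : A} (γ : Path x y) : sface 0 1 (pathSx γ) = pt x := by
  rw [eq_pt (sface 0 1 (pathSx γ))]
  congr 1
  have h : (vert 0 0 : stdSimplex ℝ (Fin 1)) = stdSimplex.vertex (S := ℝ) (0 : Fin 1) :=
    Subsingleton.elim (α := stdSimplex ℝ (Fin 1)) _ _
  rw [h]
  show pathSx γ (stdSimplex.map _ (stdSimplex.vertex (S := ℝ) (0 : Fin 1))) = x
  rw [stdSimplex.map_vertex]
  exact eol_pathSx_zero γ

theorem zero_path {u : Co A 0} (hu : u ∈ Cy A 0) {x y : A} (γ : Path x y) :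
    u (pt x) = u (pt y) := by
  have h1 : dl 0 u = 0 := hu
  have h2 := congrFun h1 (pathSx γ)
  rw [dl_apply, Fin.sum_univ_two] at h2
  change u (sface 0 0 (pathSx γ)) + u (sface 0 1 (pathSx γ)) = 0 at h2
  rw [face_zero, face_one] at h2
  have h3 : ∀ a b : F2, a + b = 0 → b = a := by decide
  exact h3 _ _ h2

end zero

namespace Dbl

variable {X M : Type} [TopologicalSpace X] [TopologicalSpace M] (D : Dbl X M)

/-- the inclusion of the intersection -/
abbrev iV : C(D.V, X) := io D.V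

/-- restriction from `M` to the intersection -/
def rV : C(D.V, M) := D.r.comp D.iV

/-- the connecting relation -/
def Del {n : ℕ} (v : Co D.V n) (c : Co X (n + 1)) : Prop :=
  ∃ φ : Bool → Co X n, (∀ j, On (D.U j) c (dl n (φ j))) ∧ pull D.iV n (φ true + φ false) = v

theorem Del.add {n : ℕ} {v v' : Co D.V n} {c c' : Co X (n + 1)} (h : D.Del v c)
    (h' : D.Del v' c') : D.Del (v + v') (c + c') := by
  obtain ⟨φ, h1, h2⟩ := h
  obtain ⟨φ', h1', h2'⟩ := h'
  refine ⟨φ + φ', fun j => ?_, ?_⟩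
  · have := (h1 j).add (h1' j)
    rw [← map_add] at this
    exact this
  · rw [← h2, ← h2', ← map_add]
    congr 1
    simp only [Pi.add_apply]
    abel

theorem Del.exists {n : ℕ} (v : Co D.V n) (hv : v ∈ Cy D.V n) :
    ∃ c ∈ Cy X (n + 1), On (D.U true) c (dl n (ext0 D.V n v)) ∧ On (D.U false) c 0 := by
  set c0 : Co X (n + 1) := ext0 (D.U true) (n + 1)
    (pull (io (D.U true)) (n + 1) (dl n (ext0 D.V n v))) with hc0
  have h1 : On (D.U true) c0 (dl n (ext0 D.V n v)) := by
    rw [on_iff, hc0, pull_ext0]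
  have h2 : On (D.U false) c0 0 := by
    intro σ hσ
    by_cases h : range σ ⊆ D.U true
    · rw [h1 σ h, dl_ext0 D.V v (D.sub_V (j := true) h hσ)]
      have : dl n v = 0 := hv
      rw [this]; rfl
    · rw [hc0, ext0_not _ _ h]; rfl
  obtain ⟨c, hc, h3⟩ := D.ext c0 (by
    intro j
    cases j
    · have := h2.dl
      rwa [map_zero] at this
    · have := h1.dl
      rwa [dl_dl] at this)
  exact ⟨c, hc, (h3 true).trans h1, (h3 false).trans h2⟩

theorem Del.of_exists {n : ℕ} {v : Co D.V n} {c : Co X (n + 1)}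
    (h1 : On (D.U true) c (dl n (ext0 D.V n v))) (h2 : On (D.U false) c 0) : D.Del v c := by
  refine ⟨fun j => if j then ext0 D.V n v else 0, ?_, ?_⟩
  · intro j
    cases j
    · simpa using h2
    · simpa using h1
  · simp [pull_ext0]

theorem uniq_zero {n : ℕ} {c : Co X (n + 1)} (hc : c ∈ Cy X (n + 1)) (φ : Bool → Co X n)
    (h1 : ∀ j, On (D.U j) c (dl n (φ j))) (h2 : pull D.iV n (φ true + φ false) = 0) :
    c ∈ Bd X (n + 1) := by
  classical
  let ψ : Co X n := fun σ => if range σ ⊆ D.U true then φ true σ else φ false σ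
  have h3 : ∀ j, On (D.U j) ψ (φ j) := by
    intro j σ hσ
    cases j
    · change (if range σ ⊆ D.U true then φ true σ else φ false σ) = _
      split_ifs with h
      · have h4 := congrFun h2 (cores D.V σ (D.sub_V (j := true) h hσ))
        change φ true σ + φ false σ = 0 at h4
        have h5 : ∀ a b : F2, a + b = 0 → a = b := by decide
        exact h5 _ _ h4
      · rfl
    · exact if_pos hσ
  have h4 : c + dl n ψ ∈ Bd X (n + 1) := by
    refine D.small _ (Submodule.add_mem _ hc (Bd_le_Cy _ ⟨ψ, rfl⟩)) ?_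
    intro j
    have h5 := (h1 j).add (h3 j).dl
    rwa [co_add_self] at h5
  have h5 : c = (c + dl n ψ) + dl n ψ := by rw [add_assoc, co_add_self, add_zero]
  rw [h5]
  exact Submodule.add_mem _ h4 ⟨ψ, rfl⟩

/-- uniqueness of the connecting class -/
theorem Del.uniq {n : ℕ} {c : Co X (n + 1)} (hc : c ∈ Cy X (n + 1)) {v : Co D.V n}
    (hv : v ∈ Bd D.V n) (h : D.Del v c) : c ∈ Bd X (n + 1) := by
  obtain ⟨φ, h1, h2⟩ := h
  cases n with
  | zero =>
    have h3 : v = 0 := hv
    exact D.uniq_zero hc φ h1 (h2.trans h3)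
  | succ n =>
    obtain ⟨η, hη⟩ := hv
    refine D.uniq_zero hc (fun j => if j then φ true + dl n (ext0 D.V n η) else φ false) ?_ ?_
    · intro j
      cases j
      · exact h1 false
      · simp only [if_true]
        rw [map_add, dl_dl, add_zero]
        exact h1 true
    · simp only [if_true, Bool.false_eq_true, if_false]
      have e : φ true + dl n (ext0 D.V n η) + φ false =
          (φ true + φ false) + dl n (ext0 D.V n η) := by abel
      rw [e, map_add, h2, ← dl_pull, pull_ext0, hη, co_add_self]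

/-- the kernel of the connecting map -/
theorem Del.ker {n : ℕ} {c : Co X (n + 2)} (hc : c ∈ Bd X (n + 2)) {v : Co D.V (n + 1)}
    (h : D.Del v c) : ∃ y ∈ Cy M (n + 1), v + pull D.rV (n + 1) y ∈ Bd D.V (n + 1) := by
  obtain ⟨φ, h1, h2⟩ := h
  obtain ⟨ψ, hψ⟩ := hc
  have h3 : ∀ j, pull (io (D.U j)) (n + 1) (φ j + ψ) ∈ Cy (D.U j) (n + 1) := by
    intro j
    change dl (n + 1) (pull (io (D.U j)) (n + 1) (φ j + ψ)) = 0
    rw [dl_pull, map_add, map_add, hψ, ← on_iff.1 (h1 j), co_add_self]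
  have h4 := fun j => D.htpyU j _ (h3 j)
  let k : ∀ j, C(D.V, D.U j) := fun j => ⟨fun x => ⟨x.1, D.V_sub j x.2⟩, by fun_prop⟩
  have h5 := fun j => pull_Bd (k j) (h4 j)
  let y : Bool → Co M (n + 1) := fun j =>
    pull (D.iu j) (n + 1) (pull (io (D.U j)) (n + 1) (φ j + ψ))
  have h6 : ∀ j, pull D.iV (n + 1) (φ j + ψ) + pull D.rV (n + 1) (y j) ∈ Bd D.V (n + 1) := h5
  refine ⟨y true + y false, Submodule.add_mem _ (pull_Cy _ (h3 true)) (pull_Cy _ (h3 false)), ?_⟩
  have h7 := Submodule.add_mem _ (h6 true) (h6 false)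
  have e : v + pull D.rV (n + 1) (y true + y false) =
      pull D.iV (n + 1) (φ true + ψ) + pull D.rV (n + 1) (y true) +
        (pull D.iV (n + 1) (φ false + ψ) + pull D.rV (n + 1) (y false)) := by
    rw [← h2, map_add, map_add, map_add, map_add]
    have e1 : ∀ a b c d p : Co D.V (n + 1), a + b + (c + d) = a + p + c + (b + p + d) := by
      intro a b c d p
      have e2 : a + p + c + (b + p + d) = a + b + (c + d) + (p + p) := by abel
      rw [e2, co_add_self, add_zero]
    exact e1 _ _ _ _ _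
  rw [e]
  exact h7

/-- the image of the connecting map -/
theorem Del.of_im {n : ℕ} {c : Co X (n + 1)} (hc : c ∈ Cy X (n + 1))
    (h : ∀ j, pull (D.i j) (n + 1) c ∈ Bd M (n + 1)) : ∃ v ∈ Cy D.V n, D.Del v c := by
  choose φ hφ using fun j => D.KL j c hc (h j)
  refine ⟨pull D.iV n (φ true + φ false), ?_, φ, hφ, rfl⟩
  change dl n (pull D.iV n (φ true + φ false)) = 0
  rw [dl_pull, map_add, map_add, ← on_iff.1 ((hφ true).mono (D.V_sub true)),
    ← on_iff.1 ((hφ false).mono (D.V_sub false)), co_add_self]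

theorem Del.im {n : ℕ} {c : Co X (n + 1)} {v : Co D.V n} (h : D.Del v c) (j : Bool) :
    pull (D.i j) (n + 1) c ∈ Bd M (n + 1) := by
  obtain ⟨φ, h1, h2⟩ := h
  refine ⟨pull (D.i j) n (φ j), ?_⟩
  rw [dl_pull]
  funext σ
  refine (h1 j ((D.i j).comp σ) ?_).symm
  rintro _ ⟨x, rfl⟩
  exact D.iU j _

/-- classes of `M` which vanish on the intersection -/
theorem ker_res {n : ℕ} {y : Co M (n + 1)} (hy : y ∈ Cy M (n + 1))
    (h : pull D.rV (n + 1) y ∈ Bd D.V (n + 1)) : ∃ x ∈ Cy X (n + 1),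
      pull (D.i true) (n + 1) x ∈ Bd M (n + 1) ∧ pull (D.i false) (n + 1) x + y ∈ Bd M (n + 1) := by
  obtain ⟨η, hη⟩ := h
  set b : Co X (n + 1) := pull D.r (n + 1) y + dl n (ext0 D.V n η) with hb
  have hb0 : pull D.iV (n + 1) b = 0 := by
    rw [hb, map_add, ← dl_pull, pull_ext0, hη]
    exact co_add_self _
  have hbc : dl (n + 1) b = 0 := by
    have : dl (n + 1) y = 0 := hy
    rw [hb, map_add, dl_dl, add_zero, dl_pull, this, map_zero]
  set a0 : Co X (n + 1) := ext0 (D.U false) (n + 1) (pull (io (D.U false)) (n + 1) b) with ha0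
  have h1 : On (D.U false) a0 b := by rw [on_iff, ha0, pull_ext0]
  have h2 : On (D.U true) a0 0 := by
    intro σ hσ
    by_cases h : range σ ⊆ D.U false
    · rw [h1 σ h]
      exact congrFun hb0 (cores D.V σ (D.sub_V (j := true) hσ h))
    · rw [ha0, ext0_not _ _ h]; rfl
  obtain ⟨x, hx, h3⟩ := D.ext a0 (by
    intro j
    cases j
    · have := h1.dl
      rwa [hbc] at this
    · have := h2.dl
      rwa [map_zero] at this)
  have hr : ∀ j (σ : Sing M (n + 1)), range ((D.i j).comp σ) ⊆ D.U j := by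
    rintro j σ _ ⟨x, rfl⟩
    exact D.iU j _
  refine ⟨x, hx, ?_, ?_⟩
  · have : pull (D.i true) (n + 1) x = 0 := by
      funext σ
      exact ((h3 true).trans h2) _ (hr true σ)
    rw [this]
    exact zero_mem _
  · refine ⟨pull (D.i false) n (ext0 D.V n η), ?_⟩
    have : pull (D.i false) (n + 1) x = pull (D.i false) (n + 1) b := by
      funext σ
      exact ((h3 false).trans h1) _ (hr false σ)
    rw [this, hb, map_add, pull_i_r, dl_pull]
    rw [add_comm y, add_assoc, co_add_self, add_zero]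

theorem ker_res' {n : ℕ} {x : Co X (n + 1)} (hx : x ∈ Cy X (n + 1))
    (h : pull (D.i true) (n + 1) x ∈ Bd M (n + 1)) :
    pull D.rV (n + 1) (pull (D.i false) (n + 1) x) ∈ Bd D.V (n + 1) := by
  obtain ⟨φ, hφ⟩ := D.KL true x hx h
  have h1 : pull D.iV (n + 1) x ∈ Bd D.V (n + 1) := by
    refine ⟨pull D.iV n φ, ?_⟩
    rw [dl_pull]
    exact (on_iff.1 (hφ.mono (D.V_sub true))).symm
  have h2 := D.htpyU false (pull (io (D.U false)) (n + 1) x) (pull_Cy _ hx)
  let k : C(D.V, D.U false) := ⟨fun x => ⟨x.1, D.V_sub false x.2⟩, by fun_prop⟩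
  have h3 : pull D.iV (n + 1) x + pull D.rV (n + 1) (pull (D.i false) (n + 1) x) ∈
      Bd D.V (n + 1) := pull_Bd k h2
  have h4 := Submodule.add_mem _ h1 h3
  rwa [← add_assoc, co_add_self, zero_add] at h4

/-- products with connecting classes of degree one -/
theorem Del.cup {f : Co D.V 0} {z : Co X 1} (hz : z ∈ Cy X 1)
    (h1 : On (D.U true) z (dl 0 (ext0 D.V 0 f))) (h2 : On (D.U false) z 0) {a : Co X 1}
    (ha : a ∈ Cy X 1)
    (h3 : cup (show 0 + 1 = 1 from rfl) f (pull D.iV 1 a) ∈ Bd D.V 1) :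
    cup (show 1 + 1 = 2 from rfl) z a ∈ Bd X 2 := by
  refine Del.uniq D (cup_Cy _ hz ha) h3 ?_
  refine ⟨fun j => if j then Pool.Agent.Helper158.PD.cup (show 0 + 1 = 1 from rfl)
    (ext0 D.V 0 f) a else 0, ?_, ?_⟩
  · intro j
    have hda : dl 1 a = 0 := ha
    cases j
    · simp only [Bool.false_eq_true, if_false, map_zero]
      have := h2.cup (show 1 + 1 = 2 from rfl) (On.refl a)
      rwa [map_zero, LinearMap.zero_apply] at this
    · simp only [if_true]
      rw [leibniz, hda, map_zero, add_zero]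
      exact h1.cup (show 1 + 1 = 2 from rfl) (On.refl a)
  · simp only [if_true, Bool.false_eq_true, if_false, add_zero]
    rw [pull_cup, pull_ext0]

end Dbl

end Pool.Agent.L7h59.M3
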