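import Pool.Agent.L7h59.M3.DX
import Pool.Agent.L7h59.M3.Closed

/-! The case of empty boundary and the structure theorem for a compact manifold. -/

set_option autoImplicit false
set_option linter.unusedVariables false
set_option linter.unusedSectionVars false

namespace Pool.Agent.L7h59.M3

open Set Topology
open Pool.Agent.Helper158.PD Pool.Agent.Helper158.TC

variable {M : Type} [TopologicalSpace M] [ChartedSpace Hf M]

/-- charts in space of a manifold without boundary points -/
noncomputable def nch (h : bd M = ∅) (e : OpenPartialHomeomorph M Hf) :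
    OpenPartialHomeomorph M E3 where
  toFun m := (e m).1
  invFun u := e.symm (rho u)
  source := e.source
  target := {u | 0 < u 0 ∧ rho u ∈ e.target}
  map_source' := by
    intro m hm
    have h1 : m ∉ bd M := by rw [h]; exact notMem_empty m
    rw [mem_bd e hm] at h1
    refine ⟨lt_of_le_of_ne (e m).2 (Ne.symm h1), ?_⟩
    change rho (e m).1 ∈ e.target
    rw [rho_coe]
    exact e.map_source hm
  map_target' := by
    rintro u ⟨h1, h2⟩
    exact e.map_target h2
  left_inv' := by
    intro m hm
    change e.symm (rho (e m).1) = m
    rw [rho_coe, e.left_inv hm]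
  right_inv' := by
    rintro u ⟨h1, h2⟩
    change (e (e.symm (rho u))).1 = u
    rw [e.right_inv h2, rho_val h1.le]
  open_source := e.open_source
  open_target := by
    have h2 : Continuous fun u : E3 => u 0 := PiLp.continuous_apply 2 _ 0
    exact (isOpen_lt continuous_const h2).inter (e.open_target.preimage continuous_rho)
  continuousOn_toFun := continuous_subtype_val.comp_continuousOn e.continuousOn
  continuousOn_invFun := e.symm.continuousOn.comp continuous_rho.continuousOn (fun u hu => hu.2)

/-- a manifold without boundary points -/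
@[reducible] noncomputable def ncs (h : bd M = ∅) : ChartedSpace E3 M where
  atlas := range fun x : M => nch h (chartAt Hf x)
  chartAt x := nch h (chartAt Hf x)
  mem_chart_source x := mem_chart_source Hf x
  chart_mem_atlas x := ⟨x, rfl⟩

/-- the group of a compact manifold with a big presentation has boundary -/
theorem bd_nonempty [CompactSpace M] [T2Space M] [PathConnectedSpace M] {x₀ : M} {Γ : Type}
    [Group Γ] {J A : Type} [Fintype J] [Fintype A] [DecidableEq J] [DecidableEq A] {π : A → J}
    (L : Lab M x₀ Γ) (R : Pres Γ π) (hπ : Alg.Dat.Big π) : (bd M).Nonempty := by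
  by_contra hne
  rw [not_nonempty_iff_eq_empty] at hne
  have := ncs hne
  have : SecondCountableTopology M :=
    ChartedSpace.secondCountable_of_sigmaCompact (EuclideanSpace ℝ (Fin 3)) M
  obtain ⟨Q⟩ := exists_clo M
  exact Q.absurd_closed L R hπ

/-- **the structure theorem** -/
theorem main_struct [CompactSpace M] [T2Space M] [PathConnectedSpace M] {x₀ : M} {Γ : Type}
    [Group Γ] {J A : Type} [Fintype J] [Fintype A] [DecidableEq J] [DecidableEq A] {π : A → J}
    (L : Lab M x₀ Γ) (R : Pres Γ π) (hπ : Alg.Dat.Big π) :
    Module.Finite F2 (Hc (dbl M).V 1) ∧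
    Module.finrank F2 (Hc (dbl M).V 1) = 2 * Fintype.card J ∧
      ∀ y : Hc M 1, (co L R y).2 = 0 → (dbl M).res 1 y = 0 := by
  obtain ⟨Q⟩ := DX_dua (bd_nonempty L R hπ)
  exact ⟨Q.finrank_V.1, Dbl.struct Q L R hπ⟩

end Pool.Agent.L7h59.M3
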