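import Pool.Agent.L7h59.M3.Comp

/-! Reduction to a path component. -/

set_option autoImplicit false
set_option linter.unusedVariables false
set_option linter.unusedSectionVars false

namespace Pool.Agent.L7h59.M3

open Set Topology
open Pool.Agent.Helper158.PD Pool.Agent.Helper158.TC
open Pool.Agent.Helper922.HB.Sc (Sing sface altd vert)

variable {M : Type} [TopologicalSpace M]

theorem joined_path {a b : M} (γ : Path a b) (t : unitInterval) : Joined a (γ t) :=
  ⟨(γ.subpath 0 t).cast γ.source.symm rfl⟩

/-- corestriction of a path to a path component -/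
def corP {x : M} {a b : pathComponent x} (γ : Path a.1 b.1) : Path a b where
  toFun t := ⟨γ t, Joined.trans a.2 (joined_path γ t)⟩
  continuous_toFun := by fun_prop
  source' := Subtype.ext γ.source
  target' := Subtype.ext γ.target

/-- corestriction of a homotopy -/
theorem corH {x : M} {a b : pathComponent x} {γ γ' : Path a b}
    (h : (γ.map (continuous_subtype_val)).Homotopic (γ'.map (continuous_subtype_val))) :
    γ.Homotopic γ' := by
  obtain ⟨H⟩ := h
  have h0 : ∀ t, H (0, t) = (γ t).1 := fun t => H.map_zero_left t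
  have h1 : ∀ t, H (1, t) = (γ' t).1 := fun t => H.map_one_left t
  have hm : ∀ p : unitInterval × unitInterval, H p ∈ pathComponent x := by
    rintro ⟨s, t⟩
    have h2 : Joined x (H (0, t)) := by rw [h0]; exact (γ t).2
    let δ : Path (H (0, t)) (H (1, t)) := ⟨⟨fun s => H (s, t), by fun_prop⟩, rfl, rfl⟩
    exact h2.trans (joined_path δ s)
  refine ⟨⟨⟨⟨fun p => ⟨H p, hm p⟩, by fun_prop⟩, ?_, ?_⟩, ?_⟩⟩
  · intro t; exact Subtype.ext (h0 t)
  · intro t; exact Subtype.ext (h1 t)
  · intro s t ht
    apply Subtype.ext
    exact H.prop' s t ht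

theorem exists_comp [T2Space M] [CompactSpace M] [ChartedSpace Hf M] (x : M) {G : Type} [Group G]
    (e : FundamentalGroup M x ≃* G) : ∃ (M' : Type) (_ : TopologicalSpace M') (_ : T2Space M')
      (_ : CompactSpace M') (_ : PathConnectedSpace M') (_ : ChartedSpace Hf M') (x' : M'),
      Nonempty (Lab M' x' G) := by
  have hloc : LocallyPathConnectedSpace M := ChartedSpace.locallyPathConnectedSpace Hf M
  let U : TopologicalSpace.Opens M := ⟨pathComponent x, IsOpen.pathComponent x⟩
  have h1 : CompactSpace (pathComponent x) :=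
    isCompact_iff_compactSpace.1 (IsClosed.pathComponent x).isCompact
  have h2 : PathConnectedSpace (pathComponent x) :=
    isPathConnected_iff_pathConnectedSpace.1 isPathConnected_pathComponent
  have h3 : ChartedSpace Hf (pathComponent x) := inferInstanceAs (ChartedSpace Hf U)
  refine ⟨pathComponent x, inferInstance, inferInstance, h1, h2, h3, ⟨x, mem_pathComponent_self x⟩, ?_⟩
  let ι : C(pathComponent x, M) := ⟨Subtype.val, continuous_subtype_val⟩
  let φ : FundamentalGroup (pathComponent x) ⟨x, mem_pathComponent_self x⟩ →* FundamentalGroup M x :=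
    FundamentalGroup.map ι ⟨x, mem_pathComponent_self x⟩
  have hφ : ∀ γ : Path (⟨x, mem_pathComponent_self x⟩ : pathComponent x) ⟨x, mem_pathComponent_self x⟩,
      φ (FundamentalGroup.fromPath (Path.Homotopic.Quotient.mk γ)) =
      FundamentalGroup.fromPath (Path.Homotopic.Quotient.mk (γ.map continuous_subtype_val)) := fun γ => rfl
  have hb : Function.Bijective φ := by
    constructor
    · intro a b hab
      obtain ⟨γ, rfl⟩ := Path.Homotopic.Quotient.mk_surjective a
      obtain ⟨γ', rfl⟩ := Path.Homotopic.Quotient.mk_surjective b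
      have h4 : (Path.Homotopic.Quotient.mk (γ.map continuous_subtype_val) :
        Path.Homotopic.Quotient x x) = Path.Homotopic.Quotient.mk (γ'.map continuous_subtype_val) := hab
      exact Path.Homotopic.Quotient.eq.2 (corH (Path.Homotopic.Quotient.eq.1 h4))
    · intro a
      obtain ⟨γ, rfl⟩ := Path.Homotopic.Quotient.mk_surjective a
      exact ⟨FundamentalGroup.fromPath (Path.Homotopic.Quotient.mk (corP (x := x)
        (a := ⟨x, mem_pathComponent_self x⟩) (b := ⟨x, mem_pathComponent_self x⟩) γ)), rfl⟩
  obtain ⟨c, k1, k2, k3⟩ := exists_label (⟨x, mem_pathComponent_self x⟩ : pathComponent x)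
    ((MulEquiv.ofBijective φ hb).trans e)
  exact ⟨⟨c, k1, k2, k3⟩⟩

end Pool.Agent.L7h59.M3
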