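import Pool.Agent.L7h59.M3.Coh
import Pool.Agent.L7h59.M3.Alg

/-! Classes of degree one and their products from the fundamental group. -/

set_option autoImplicit false
set_option linter.unusedVariables false
set_option linter.unusedSectionVars false

namespace Pool.Agent.L7h59.M3

open Set Topology
open Pool.Agent.Helper158.PD Pool.Agent.Helper158.TC
open Pool.Agent.Helper922.HB.Sc (Sing sface altd vert)

/-- the Heisenberg group mod 2 -/
@[ext] structure Hs where
  p : F2
  q : F2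
  r : F2

namespace Hs

instance : Mul Hs := ⟨fun x y => ⟨x.p + y.p, x.q + y.q, x.r + y.r + x.p * y.q⟩⟩
instance : One Hs := ⟨⟨0, 0, 0⟩⟩
instance : Inv Hs := ⟨fun x => ⟨x.p, x.q, x.r + x.p * x.q⟩⟩

theorem mul_p (x y : Hs) : (x * y).p = x.p + y.p := rfl
theorem mul_q (x y : Hs) : (x * y).q = x.q + y.q := rfl
theorem mul_r (x y : Hs) : (x * y).r = x.r + y.r + x.p * y.q := rfl
theorem one_p : (1 : Hs).p = 0 := rfl
theorem one_q : (1 : Hs).q = 0 := rfl
theorem one_r : (1 : Hs).r = 0 := rfl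

instance : Group Hs := Group.ofLeftAxioms
  (by
    intro x y z
    ext
    · simp only [mul_p]; ring
    · simp only [mul_q]; ring
    · simp only [mul_r, mul_p, mul_q]; ring)
  (by
    intro x
    ext
    · simp only [mul_p, one_p]; ring
    · simp only [mul_q, one_q]; ring
    · simp only [mul_r, one_p, one_r]; ring)
  (by
    rintro ⟨p, q, r⟩
    have h1 : ∀ x : F2, x + x = 0 := by decide
    have h2 : ∀ p q r : F2, r + p * q + r + p * q = 0 := by decide
    ext
    · exact h1 p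
    · exact h1 q
    · exact h2 p q r)

end Hs

/-- generators and relations, tested on the Heisenberg group -/
structure Pres (Γ : Type) [Group Γ] {J A : Type} (π : A → J) where
  t : J → Γ
  a : A → Γ
  comm : ∀ x, a x * t (π x) = t (π x) * a x
  sq : ∀ i j, t i * t i = t j * t j
  gen : Subgroup.closure (range t ∪ range a) = ⊤
  lift : ∀ (τ : J → Hs) (α : A → Hs), (∀ x, α x * τ (π x) = τ (π x) * α x) →
    (∀ i j, τ i * τ i = τ j * τ j) → ∃ f : Γ →* Hs, (∀ j, f (t j) = τ j) ∧ ∀ x, f (a x) = α x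

/-- a label of the one-simplices -/
structure Lab (M : Type) [TopologicalSpace M] (x₀ : M) (Γ : Type) [Group Γ] where
  c : Sing M 1 → Γ
  h1 : ∀ τ : Sing M 2, c (sface 1 1 τ) = c (sface 1 2 τ) * c (sface 1 0 τ)
  h2 : ∀ g : Γ, ∃ γ : Path x₀ x₀, c (pathSx γ) = g
  h3 : ∀ γ γ' : Path x₀ x₀, c (pathSx γ) = c (pathSx γ') → γ.Homotopic γ'

section

variable {M : Type} [TopologicalSpace M] {x₀ : M} {Γ : Type} [Group Γ] (L : Lab M x₀ Γ)

/-- the cocycle of a homomorphism -/
def hc (f : Γ →* Hs) : Co M 1 := fun σ => (f (L.c σ)).p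
/-- the cocycle of a homomorphism -/
def hc' (f : Γ →* Hs) : Co M 1 := fun σ => (f (L.c σ)).q

theorem hc_mem (f : Γ →* Hs) : hc L f ∈ Cy M 1 := by
  change dl 1 _ = 0
  funext τ
  rw [dl_apply, Fin.sum_univ_three]
  change (f (L.c (sface 1 0 τ))).p + (f (L.c (sface 1 1 τ))).p + (f (L.c (sface 1 2 τ))).p = 0
  rw [L.h1, map_mul, Hs.mul_p]
  generalize (f (L.c (sface 1 0 τ))).p = x
  generalize (f (L.c (sface 1 2 τ))).p = y
  revert x y
  decide

theorem hc'_mem (f : Γ →* Hs) : hc' L f ∈ Cy M 1 := by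
  change dl 1 _ = 0
  funext τ
  rw [dl_apply, Fin.sum_univ_three]
  change (f (L.c (sface 1 0 τ))).q + (f (L.c (sface 1 1 τ))).q + (f (L.c (sface 1 2 τ))).q = 0
  rw [L.h1, map_mul, Hs.mul_q]
  generalize (f (L.c (sface 1 0 τ))).q = x
  generalize (f (L.c (sface 1 2 τ))).q = y
  revert x y
  decide

theorem hc_cup (f : Γ →* Hs) : cup (show 1 + 1 = 2 from rfl) (hc L f) (hc' L f) ∈ Bd M 2 := by
  refine ⟨fun σ => (f (L.c σ)).r, ?_⟩
  funext τ
  rw [dl_apply, Fin.sum_univ_three, cup_one_one]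
  change (f (L.c (sface 1 0 τ))).r + (f (L.c (sface 1 1 τ))).r + (f (L.c (sface 1 2 τ))).r =
    (f (L.c (sface 1 2 τ))).p * (f (L.c (sface 1 0 τ))).q
  rw [L.h1, map_mul, Hs.mul_r]
  generalize (f (L.c (sface 1 0 τ))).r = x
  generalize (f (L.c (sface 1 2 τ))).r = y
  generalize (f (L.c (sface 1 2 τ))).p * (f (L.c (sface 1 0 τ))).q = z
  revert x y z
  decide

/-- evaluation on a loop -/
noncomputable def evl (γ : Path x₀ x₀) : Hc M 1 →ₗ[F2] F2 :=
  Submodule.liftQ _ ((LinearMap.proj (pathSx γ)).comp (Cy M 1).subtype) (by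
    intro a ha
    obtain ⟨b, hb⟩ : a.1 ∈ Bd M 1 := ha
    change a.1 (pathSx γ) = 0
    rw [← hb, dl_apply, Fin.sum_univ_two, betti_one_le_face]
    exact CharTwo.add_self_eq_zero _)

theorem evl_cls (γ : Path x₀ x₀) {u : Co M 1} (hu : u ∈ Cy M 1) : evl γ (cls u hu) = u (pathSx γ) :=
  rfl

/-- a loop with a given label -/
noncomputable def lp (g : Γ) : Path x₀ x₀ := (L.h2 g).choose

theorem lp_spec (g : Γ) : L.c (pathSx (lp L g)) = g := (L.h2 g).choose_spec

/-- exact two-cocycles of the group -/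
theorem exact_fun (ξ : Γ → Γ → F2) (hξ1 : ∀ g, ξ g 1 = 0) (hξ2 : ∀ g, ξ 1 g = 0)
    (h : (fun τ : Sing M 2 => ξ (L.c (sface 1 2 τ)) (L.c (sface 1 0 τ))) ∈ Bd M 2) :
    ∃ κ : Γ → F2, ∀ g g', κ (g * g') = κ g + κ g' + ξ g g' := by
  change (fun τ : Sing M 2 => ξ (L.c (sface 1 2 τ)) (L.c (sface 1 0 τ))) ∈
    LinearMap.range (dl (X := M) 1) at h
  obtain ⟨b, hb⟩ := h
  have hτ : ∀ τ : Sing M 2, b (sface 1 0 τ) + (b (sface 1 1 τ) + b (sface 1 2 τ)) =
      ξ (L.c (sface 1 2 τ)) (L.c (sface 1 0 τ)) := by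
    intro τ
    have e := congrFun hb τ
    rw [dl_apply] at e
    rw [Fin.sum_univ_succ, Fin.sum_univ_succ, Fin.sum_univ_succ, Finset.univ_eq_empty,
      Finset.sum_empty, add_zero] at e
    exact e
  have crefl : ∀ x : M, L.c (pathSx (Path.refl x)) = 1 := by
    intro x
    obtain ⟨τ, t2, t0, t1⟩ := exists_cst x
    have e := L.h1 τ
    rw [t2, t0, t1] at e
    exact left_eq_mul.1 e
  have brefl : ∀ x : M, b (pathSx (Path.refl x)) = 0 := by
    intro x
    obtain ⟨τ, t2, t0, t1⟩ := exists_cst x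
    have e := hτ τ
    rw [t2, t0, t1, crefl, hξ1] at e
    revert e
    generalize b (pathSx (Path.refl x)) = u
    revert u
    decide
  have btrans : ∀ {x y z : M} (γ : Path x y) (η : Path y z),
      b (pathSx (γ.trans η)) = b (pathSx γ) + b (pathSx η) + ξ (L.c (pathSx γ)) (L.c (pathSx η)) := by
    intro x y z γ η
    obtain ⟨τ, t2, t0, t1⟩ := exists_tri γ η
    have e := hτ τ
    rw [t2, t0, t1] at e
    revert e
    generalize b (pathSx (γ.trans η)) = u
    generalize b (pathSx γ) = v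
    generalize b (pathSx η) = w
    generalize ξ (L.c (pathSx γ)) (L.c (pathSx η)) = s
    revert u v w s
    decide
  have ctrans : ∀ {x y z : M} (γ : Path x y) (η : Path y z),
      L.c (pathSx (γ.trans η)) = L.c (pathSx γ) * L.c (pathSx η) := by
    intro x y z γ η
    obtain ⟨τ, t2, t0, t1⟩ := exists_tri γ η
    have e := L.h1 τ
    rw [t2, t0, t1] at e
    exact e
  have bhom : ∀ {x y : M} {γ γ' : Path x y}, γ.Homotopic γ' →
      b (pathSx γ) = b (pathSx γ') := by
    intro x y γ γ' hh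
    obtain ⟨τ₁, τ₂, a2, a0, b2, b0, hd⟩ := exists_sq hh
    have e1 := hτ τ₁
    have e2 := hτ τ₂
    rw [a2, a0, brefl, crefl, hξ1, hd] at e1
    rw [b2, b0, brefl, crefl, hξ2] at e2
    revert e1 e2
    generalize b (pathSx γ) = u
    generalize b (pathSx γ') = v
    generalize b (sface 1 1 τ₂) = w
    revert u v w
    decide
  refine ⟨fun g => b (pathSx (lp L g)), fun g g' => ?_⟩
  have hh : (lp L (g * g')).Homotopic ((lp L g).trans (lp L g')) := by
    apply L.h3
    rw [ctrans, lp_spec, lp_spec, lp_spec]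
  beta_reduce
  rw [bhom hh, btrans, lp_spec, lp_spec]

end

end Pool.Agent.L7h59.M3
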