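import Pool.Agent.L7h59.M3.NoBd

/-! Local primitives of one-cocycles on manifolds with boundary. -/

set_option autoImplicit false
set_option linter.unusedVariables false
set_option linter.unusedSectionVars false

namespace Pool.Agent.L7h59.M3

open Set Topology
open Pool.Agent.Helper158.PD Pool.Agent.Helper158.TC
open Pool.Agent.Helper922.HB.Sc (Sing sface altd vert)

/-- paths and composition -/
theorem comp_pathSx {A B : Type} [TopologicalSpace A] [TopologicalSpace B] (q : C(A, B))
    {a a' : A} (γ' : Path a a') {x y : B} (γ : Path x y) (h : ∀ t, q (γ' t) = γ t) :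
    q.comp (pathSx γ') = pathSx γ := by
  refine ContinuousMap.ext fun s => ?_
  have hu : s.1 1 ∈ Icc (0 : ℝ) 1 := mem_Icc_of_mem_stdSimplex s.2 1
  change q (γ'.extend (s.1 1)) = γ.extend (s.1 1)
  rw [Path.extend_apply γ' hu, Path.extend_apply γ hu]
  exact h _

/-- local primitives of a cocycle -/
structure Prim {M : Type} [TopologicalSpace M] (u : Co M 1) where
  W : M → Set M
  op : ∀ i, IsOpen (W i)
  mem : ∀ i, i ∈ W i
  f : M → M → F2
  ff : ∀ i, f i i = 0
  ex : ∀ i {x y : M} (γ : Path x y), (∀ t, γ t ∈ W i) → u (pathSx γ) = f i x + f i y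

/-- cocycles on convex sets -/
theorem conv_exact {S : Set E3} (hS : Convex ℝ S) (i : S) {v : Co S 1} (hv : v ∈ Cy S 1) :
    ∃ g : S → F2, g i = 0 ∧ ∀ {x y : S} (γ : Path x y), v (pathSx γ) = g x + g y := by
  have h1 : ContractibleSpace S := hS.contractibleSpace ⟨i, i.2⟩
  have h2 : SimplyConnectedSpace S := SimplyConnectedSpace.ofContractible S
  refine ⟨fun x => v (pathSx (PathConnectedSpace.somePath i x)), ?_, ?_⟩
  · beta_reduce
    rw [cocycle_homotopic hv (SimplyConnectedSpace.paths_homotopic _ (Path.refl i)),
      cocycle_refl hv]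
  · intro x y γ
    have h3 := cocycle_trans hv (PathConnectedSpace.somePath i x) γ
    rw [cocycle_homotopic hv (SimplyConnectedSpace.paths_homotopic
      ((PathConnectedSpace.somePath i x).trans γ) (PathConnectedSpace.somePath i y))] at h3
    beta_reduce
    rw [h3]
    have h4 : ∀ a b : F2, b = a + (a + b) := by decide
    exact h4 _ _

/-- local primitives exist -/
theorem exists_prim {M : Type} [TopologicalSpace M] [ChartedSpace Hf M] {u : Co M 1}
    (hu : u ∈ Cy M 1) : Nonempty (Prim u) := by
  have key : ∀ i : M, ∃ W : Set M, IsOpen W ∧ i ∈ W ∧ ∃ f : M → F2, f i = 0 ∧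
      ∀ {x y : M} (γ : Path x y), (∀ t, γ t ∈ W) → u (pathSx γ) = f x + f y := by
    classical
    intro i
    set e := chartAt Hf i with he
    have hi : i ∈ e.source := mem_chart_source Hf i
    have hT : {y : E3 | rho y ∈ e.target} ∈ 𝓝 (e i).1 := by
      refine (e.open_target.preimage continuous_rho).mem_nhds ?_
      change rho (e i).1 ∈ e.target
      rw [rho_coe]
      exact e.map_source hi
    obtain ⟨r, hr, hball⟩ := Metric.mem_nhds_iff.1 hT
    let S : Set E3 := {y : E3 | 0 ≤ y 0} ∩ Metric.ball (e i).1 r
    have hS : Convex ℝ S := by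
      refine Convex.inter ?_ (convex_ball _ _)
      intro y hy z hz a b ha hb hab
      change 0 ≤ (a • y + b • z) 0
      have : (a • y + b • z) 0 = a * y 0 + b * z 0 := rfl
      rw [this]
      exact add_nonneg (mul_nonneg ha hy) (mul_nonneg hb hz)
    let q : C(S, M) := ⟨fun y => e.symm (rho y.1), by
      refine e.symm.continuousOn.comp_continuous (continuous_rho.comp continuous_subtype_val) ?_
      intro y
      exact hball y.2.2⟩
    let W : Set M := e.source ∩ e ⁻¹' {y : Hf | y.1 ∈ Metric.ball (e i).1 r}
    have hW : IsOpen W := by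
      refine e.isOpen_inter_preimage ?_
      exact Metric.isOpen_ball.preimage continuous_subtype_val
    have hiW : i ∈ W := ⟨hi, Metric.mem_ball_self hr⟩
    have hWS : ∀ x ∈ W, (e x).1 ∈ S := fun x hx => ⟨(e x).2, hx.2⟩
    obtain ⟨g, hg0, hg⟩ := conv_exact hS (⟨(e i).1, hWS i hiW⟩ : S) (pull_Cy q hu)
    refine ⟨W, hW, hiW, fun x => if h : x ∈ W then g ⟨(e x).1, hWS x h⟩ else 0, ?_, ?_⟩
    · beta_reduce
      rw [dif_pos hiW, hg0]
    · intro x y γ hγ
      have hx : x ∈ W := by have := hγ 0; rwa [γ.source] at this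
      have hy : y ∈ W := by have := hγ 1; rwa [γ.target] at this
      beta_reduce
      rw [dif_pos hx, dif_pos hy]
      let γ' : Path (⟨(e x).1, hWS x hx⟩ : S) ⟨(e y).1, hWS y hy⟩ :=
        { toFun := fun t => ⟨(e (γ t)).1, hWS _ (hγ t)⟩
          continuous_toFun := by
            refine Continuous.subtype_mk ?_ _
            exact continuous_subtype_val.comp
              (e.continuousOn.comp_continuous γ.continuous fun t => (hγ t).1)
          source' := by
            apply Subtype.ext
            change (e (γ 0)).1 = _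
            rw [γ.source]
          target' := by
            apply Subtype.ext
            change (e (γ 1)).1 = _
            rw [γ.target] }
      rw [← hg γ']
      change _ = u (q.comp (pathSx γ'))
      rw [comp_pathSx q γ' γ]
      intro t
      change e.symm (rho (e (γ t)).1) = γ t
      rw [rho_coe, e.left_inv (hγ t).1]
  choose W h1 h2 f h3 h4 using key
  exact ⟨⟨W, h1, h2, f, h3, fun i {x y} γ hγ => h4 i γ hγ⟩⟩

end Pool.Agent.L7h59.M3
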