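import Pool.Agent.L7h59.M3.Pres

/-! Coordinates of classes of degree one and the product formula. -/

set_option autoImplicit false
set_option linter.unusedVariables false
set_option linter.unusedSectionVars false

namespace Pool.Agent.L7h59.M3

open Set Topology
open Pool.Agent.Helper158.PD Pool.Agent.Helper158.TC
open Pool.Agent.Helper922.HB.Sc (Sing sface altd vert)
open Alg (H ea ej bet)

variable {M : Type} [TopologicalSpace M] [PathConnectedSpace M] {x₀ : M} {Γ : Type} [Group Γ]
  {J A : Type} [Fintype J] [Fintype A] [DecidableEq J] [DecidableEq A] {π : A → J}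
  (L : Lab M x₀ Γ) (R : Pres Γ π)

/-- coordinates of a class -/
noncomputable def co : Hc M 1 →ₗ[F2] H J A :=
  (LinearMap.pi fun x => evl (lp L (R.a x))).prod (LinearMap.pi fun j => evl (lp L (R.t j)))

theorem co_inj {y : Hc M 1} (h : co L R y = 0) : y = 0 := by
  obtain ⟨u, hu, rfl⟩ := cls_surj y
  rw [cls_eq_zero]
  refine exact_of_gens L.h1 L.h2 L.h3 _ R.gen hu ?_
  rintro g (⟨j, rfl⟩ | ⟨x, rfl⟩) γ hγ
  · rw [cocycle_homotopic hu (L.h3 γ (lp L (R.t j)) (by rw [hγ, lp_spec]))]
    exact congrFun (congrArg Prod.snd h) j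
  · rw [cocycle_homotopic hu (L.h3 γ (lp L (R.a x)) (by rw [hγ, lp_spec]))]
    exact congrFun (congrArg Prod.fst h) x

theorem co_hc (f : Γ →* Hs) : co L R (cls (hc L f) (hc_mem L f)) =
    (fun x => (f (R.a x)).p, fun j => (f (R.t j)).p) := by
  apply Prod.ext
  · funext x
    change (f (L.c (pathSx (lp L (R.a x))))).p = _
    rw [lp_spec]
  · funext j
    change (f (L.c (pathSx (lp L (R.t j))))).p = _
    rw [lp_spec]

theorem co_hc' (f : Γ →* Hs) : co L R (cls (hc' L f) (hc'_mem L f)) =
    (fun x => (f (R.a x)).q, fun j => (f (R.t j)).q) := by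
  apply Prod.ext
  · funext x
    change (f (L.c (pathSx (lp L (R.a x))))).q = _
    rw [lp_spec]
  · funext j
    change (f (L.c (pathSx (lp L (R.t j))))).q = _
    rw [lp_spec]

theorem co_surj : Function.Surjective (co L R) := by
  intro y
  obtain ⟨f, h1, h2⟩ := R.lift (fun j => ⟨y.2 j, 0, 0⟩) (fun x => ⟨y.1 x, 0, 0⟩) (by
    intro x
    ext
    · simp only [Hs.mul_p]; ring
    · simp only [Hs.mul_q]
    · simp only [Hs.mul_r]; ring) (by
    intro i j
    have h : ∀ x : F2, x + x = 0 := by decide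
    ext
    · simp only [Hs.mul_p, h]
    · simp only [Hs.mul_q]
    · simp only [Hs.mul_r]; ring)
  refine ⟨cls (hc L f) (hc_mem L f), ?_⟩
  rw [co_hc]
  apply Prod.ext
  · funext x
    change (f (R.a x)).p = _
    rw [h2]
  · funext j
    change (f (R.t j)).p = _
    rw [h1]

/-- coordinates as an equivalence -/
noncomputable def coE : Hc M 1 ≃ₗ[F2] H J A :=
  LinearEquiv.ofBijective (co L R) ⟨by
    rw [← LinearMap.ker_eq_bot, LinearMap.ker_eq_bot']
    exact fun y hy => co_inj L R hy, co_surj L R⟩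

/-- the class with given coordinates -/
noncomputable def El : H J A →ₗ[F2] Hc M 1 := (coE L R).symm.toLinearMap

theorem co_El (y : H J A) : co L R (El L R y) = y := (coE L R).apply_symm_apply y

theorem El_co (y : Hc M 1) : El L R (co L R y) = y := (coE L R).symm_apply_apply y

theorem El_of {y : Hc M 1} {w : H J A} (h : co L R y = w) : El L R w = y := by
  rw [← h, El_co]

/-- products which vanish -/
theorem cup_lift (τ : J → Hs) (α : A → Hs) (h1 : ∀ x, α x * τ (π x) = τ (π x) * α x)
    (h2 : ∀ i j, τ i * τ i = τ j * τ j) :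
    cupH (show 1 + 1 = 2 from rfl) (El L R (fun x => (α x).p, fun j => (τ j).p))
      (El L R (fun x => (α x).q, fun j => (τ j).q)) = 0 := by
  obtain ⟨f, h3, h4⟩ := R.lift τ α h1 h2
  have e1 : El L R (fun x => (α x).p, fun j => (τ j).p) = cls (hc L f) (hc_mem L f) := by
    apply El_of
    rw [co_hc]
    simp only [h3, h4]
  have e2 : El L R (fun x => (α x).q, fun j => (τ j).q) = cls (hc' L f) (hc'_mem L f) := by
    apply El_of
    rw [co_hc']
    simp only [h3, h4]
  rw [e1, e2, cupH_cls, cls_eq_zero]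
  exact hc_cup L f

/-- the product of two classes given by coordinates -/
noncomputable def pr (y w : H J A) : Hc M 2 := cupH (show 1 + 1 = 2 from rfl) (El L R y) (El L R w)

theorem pr_ea_ea (a b : A) : pr L R (ea (J := J) a) (ea b) = 0 := by
  have h := cup_lift L R (fun _ => 1) (fun x => ⟨Pi.single (M := fun _ => F2) a 1 x,
    Pi.single (M := fun _ => F2) b 1 x, 0⟩) (fun x => by rw [mul_one, one_mul]) (fun i j => rfl)
  exact h

theorem pr_ea_ej {a : A} {j : J} (h : π a ≠ j) : pr L R (ea (J := J) a) (ej j) = 0 := by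
  have h := cup_lift L R (fun i => ⟨0, Pi.single (M := fun _ => F2) j 1 i, 0⟩)
    (fun x => ⟨Pi.single (M := fun _ => F2) a 1 x, 0, 0⟩) (by
      intro x
      have : Pi.single (M := fun _ => F2) a 1 x * Pi.single (M := fun _ => F2) j 1 (π x) = 0 := by
        by_cases hx : x = a
        · subst hx
          rw [Pi.single_eq_of_ne h, mul_zero]
        · rw [Pi.single_eq_of_ne hx, zero_mul]
      ext
      · simp only [Hs.mul_p]; ring
      · simp only [Hs.mul_q]; ring
      · simp only [Hs.mul_r, this]; ring) (by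
      intro i j
      have h : ∀ x : F2, x + x = 0 := by decide
      ext
      · simp only [Hs.mul_p]
      · simp only [Hs.mul_q, h]
      · simp only [Hs.mul_r]; ring)
  exact h

theorem pr_ej_ej {i j : J} (h : i ≠ j) : pr L R (A := A) (ej i) (ej j) = 0 := by
  have h := cup_lift L R (fun k => ⟨Pi.single (M := fun _ => F2) i 1 k,
    Pi.single (M := fun _ => F2) j 1 k, 0⟩) (fun _ => 1) (fun x => by rw [mul_one, one_mul]) (by
      intro k k'
      have h2 : ∀ x : F2, x + x = 0 := by decide
      have h3 : ∀ k, Pi.single (M := fun _ => F2) i 1 k * Pi.single (M := fun _ => F2) j 1 k = 0 := by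
        intro k
        by_cases hk : k = i
        · subst hk
          rw [Pi.single_eq_of_ne h, mul_zero]
        · rw [Pi.single_eq_of_ne hk, zero_mul]
      ext
      · simp only [Hs.mul_p, h2]
      · simp only [Hs.mul_q, h2]
      · simp only [Hs.mul_r, h3])
  exact h

theorem pr_comm (y w : H J A) : pr L R y w = pr L R w y := cupH_comm _ _

theorem dec_J (y : J → F2) : ((0, y) : H J A) = ∑ j, y j • ej j := by
  apply Prod.ext
  · rw [Prod.fst_sum]
    refine (Finset.sum_eq_zero fun j _ => ?_).symm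
    simp [ej]
  · rw [Prod.snd_sum]
    funext k
    rw [Finset.sum_apply, Finset.sum_eq_single k]
    · simp [ej]
    · intro j _ hj
      simp [ej, Pi.single_eq_of_ne hj.symm]
    · intro h; exact absurd (Finset.mem_univ _) h

theorem dec_A (y : A → F2) : ((y, 0) : H J A) = ∑ a, y a • ea a := by
  apply Prod.ext
  · rw [Prod.fst_sum]
    funext k
    rw [Finset.sum_apply, Finset.sum_eq_single k]
    · simp [ea]
    · intro j _ hj
      simp [ea, Pi.single_eq_of_ne hj.symm]
    · intro h; exact absurd (Finset.mem_univ _) h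
  · rw [Prod.snd_sum]
    refine (Finset.sum_eq_zero fun j _ => ?_).symm
    simp [ea]

theorem dec (y : H J A) : y = ∑ a, y.1 a • ea a + ∑ j, y.2 j • ej j := by
  rw [← dec_A, ← dec_J]
  simp

/-- torus classes -/
noncomputable def Ta (a : A) : Hc M 2 := pr L R (ea a) (ej (π a))
/-- square classes -/
noncomputable def Sj (j : J) : Hc M 2 := pr L R (ej j) (ej j)

theorem pr_add (y y' w : H J A) : pr L R (y + y') w = pr L R y w + pr L R y' w := by
  unfold pr
  rw [map_add, map_add, LinearMap.add_apply]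

theorem pr_sum {ι : Type*} (s : Finset ι) (y : ι → H J A) (w : H J A) :
    pr L R (∑ i ∈ s, y i) w = ∑ i ∈ s, pr L R (y i) w := by
  unfold pr
  rw [map_sum, map_sum, LinearMap.sum_apply]

theorem pr_smul (c : F2) (y w : H J A) : pr L R (c • y) w = c • pr L R y w := by
  unfold pr
  rw [map_smul, map_smul, LinearMap.smul_apply]

theorem pr_ea_right (a : A) (w : H J A) : pr L R (ea a) w = w.2 (π a) • Ta L R a := by
  conv_lhs => rw [dec w, pr_comm, pr_add, pr_sum, pr_sum]
  have h1 : ∀ b, pr L R (w.1 b • ea b) (ea a) = 0 := by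
    intro b
    rw [pr_smul, pr_ea_ea, smul_zero]
  have h2 : ∀ j, pr L R (w.2 j • ej j) (ea a) = if j = π a then w.2 (π a) • Ta L R a else 0 := by
    intro j
    rw [pr_smul, pr_comm]
    by_cases h : j = π a
    · subst h
      rw [if_pos rfl]; rfl
    · rw [pr_ea_ej L R (Ne.symm h), smul_zero, if_neg h]
  simp only [h1, h2, Finset.sum_const_zero, zero_add, Finset.sum_ite_eq', Finset.mem_univ, if_true]

theorem pr_ej_right (j : J) (w : H J A) : pr L R (ej j) w =
    ∑ a, (if π a = j then w.1 a • Ta L R a else 0) + w.2 j • Sj L R j := by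
  conv_lhs => rw [dec w, pr_comm, pr_add, pr_sum, pr_sum]
  congr 1
  · refine Finset.sum_congr rfl fun a _ => ?_
    rw [pr_smul]
    by_cases h : π a = j
    · subst h
      rw [if_pos rfl]; rfl
    · rw [pr_ea_ej L R h, smul_zero, if_neg h]
  · rw [Finset.sum_eq_single j]
    · rw [pr_smul]; rfl
    · intro i _ hi
      rw [pr_smul, pr_ej_ej L R hi, smul_zero]
    · intro h; exact absurd (Finset.mem_univ _) h

/-- the product formula -/
theorem pr_formula (y w : H J A) : pr L R y w =
    ∑ a, (y.1 a * w.2 (π a) + y.2 (π a) * w.1 a) • Ta L R a + ∑ j, (y.2 j * w.2 j) • Sj L R j := by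
  conv_lhs => rw [dec y, pr_add, pr_sum, pr_sum]
  have h1 : ∀ a, pr L R (y.1 a • ea a) w = (y.1 a * w.2 (π a)) • Ta L R a := by
    intro a
    rw [pr_smul, pr_ea_right, smul_smul]
  have h2 : ∀ j, pr L R (y.2 j • ej j) w =
      ∑ a, (if π a = j then (y.2 j * w.1 a) • Ta L R a else 0) + (y.2 j * w.2 j) • Sj L R j := by
    intro j
    rw [pr_smul, pr_ej_right, smul_add, smul_smul, Finset.smul_sum]
    congr 1
    refine Finset.sum_congr rfl fun a _ => ?_
    by_cases h : π a = j
    · rw [if_pos h, if_pos h, smul_smul]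
    · rw [if_neg h, if_neg h, smul_zero]
  simp only [h1, h2, Finset.sum_add_distrib, add_smul]
  rw [Finset.sum_comm (s := Finset.univ) (t := Finset.univ)
    (f := fun j a => if π a = j then (y.2 j * w.1 a) • Ta L R a else 0)]
  have h3 : ∀ a, ∑ j, (if π a = j then (y.2 j * w.1 a) • Ta L R a else 0) =
      (y.2 (π a) * w.1 a) • Ta L R a := by
    intro a
    rw [Finset.sum_ite_eq]
    simp
  simp only [h3]
  abel

/-- the square of the class of the projection to the integers vanishes -/
theorem sum_Sj : ∑ j, Sj L R j = 0 := by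
  have h := cup_lift L R (fun k => ⟨1, 1, 0⟩) (fun _ => 1) (fun x => by rw [mul_one, one_mul])
    (fun _ _ => rfl)
  have h1 : pr L R ((0, fun _ => 1) : H J A) (0, fun _ => 1) = 0 := h
  rw [pr_formula] at h1
  simpa using h1

/-- a functional with given values on products -/
theorem bet_functional (l : Hc M 2 →ₗ[F2] F2) (y w : H J A) :
    l (pr L R y w) = bet π (fun a => l (Ta L R a), fun j => l (Sj L R j)) y w := by
  rw [pr_formula, map_add, map_sum, map_sum, bet]
  congr 1
  · refine Finset.sum_congr rfl fun a _ => ?_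
    rw [map_smul, smul_eq_mul, mul_comm]
  · refine Finset.sum_congr rfl fun a _ => ?_
    rw [map_smul, smul_eq_mul, mul_comm]

/-- independence of the products -/
theorem indep_prod {lam : A → F2} {mu : J → F2}
    (h : ∑ a, lam a • Ta L R a + ∑ j, mu j • Sj L R j = 0) :
    (∀ a, lam a = 0) ∧ ∀ i j, mu i = mu j := by
  classical
  -- homomorphisms with first coordinate a basis class
  have hA : ∀ a, ∃ f : Γ →* Hs, (∀ j, (f (R.t j)).p = 0) ∧ ∀ x, (f (R.a x)).p = Pi.single (M := fun _ => F2) a 1 x := by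
    intro a
    obtain ⟨f, h1, h2⟩ := R.lift (fun _ => 1) (fun x => ⟨Pi.single (M := fun _ => F2) a 1 x, 0, 0⟩)
      (fun x => by rw [mul_one, one_mul]) (fun _ _ => rfl)
    exact ⟨f, fun j => by rw [h1]; rfl, fun x => by rw [h2]⟩
  have hJ : ∀ j, ∃ f : Γ →* Hs, (∀ i, (f (R.t i)).p = Pi.single (M := fun _ => F2) j 1 i) ∧ ∀ x, (f (R.a x)).p = 0 := by
    intro j
    obtain ⟨f, h1, h2⟩ := R.lift (fun i => ⟨Pi.single (M := fun _ => F2) j 1 i, 0, 0⟩) (fun _ => 1)
      (fun x => by rw [mul_one, one_mul]) (by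
        intro i j
        have h : ∀ x : F2, x + x = 0 := by decide
        ext
        · simp only [Hs.mul_p, h]
        · simp only [Hs.mul_q]
        · simp only [Hs.mul_r]; ring)
    exact ⟨f, fun i => by rw [h1], fun x => by rw [h2]; rfl⟩
  choose fa fa1 fa2 using hA
  choose fj fj1 fj2 using hJ
  have eA : ∀ a, El L R (ea a) = cls (hc L (fa a)) (hc_mem L (fa a)) := by
    intro a
    apply El_of
    rw [co_hc]
    apply Prod.ext
    · funext x; exact fa2 a x
    · funext j; exact fa1 a j
  have eJ : ∀ j, El L R (ej j) = cls (hc L (fj j)) (hc_mem L (fj j)) := by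
    intro j
    apply El_of
    rw [co_hc]
    apply Prod.ext
    · funext x; exact fj2 j x
    · funext i; exact fj1 j i
  let ξ : Γ → Γ → F2 := fun g g' => ∑ a, lam a * ((fa a g).p * (fj (π a) g').p) +
    ∑ j, mu j * ((fj j g).p * (fj j g').p)
  have hξ : (fun τ : Sing M 2 => ξ (L.c (sface 1 2 τ)) (L.c (sface 1 0 τ))) ∈ Bd M 2 := by
    have e1 : ∀ a, Ta L R a = cls (cup (show 1 + 1 = 2 from rfl) (hc L (fa a)) (hc L (fj (π a))))
        (cup_Cy _ (hc_mem L _) (hc_mem L _)) := by
      intro a
      change cupH _ (El L R (ea a)) (El L R (ej (π a))) = _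
      rw [eA, eJ, cupH_cls]
    have e2 : ∀ j, Sj L R j = cls (cup (show 1 + 1 = 2 from rfl) (hc L (fj j)) (hc L (fj j)))
        (cup_Cy _ (hc_mem L _) (hc_mem L _)) := by
      intro j
      change cupH _ (El L R (ej j)) (El L R (ej j)) = _
      rw [eJ, cupH_cls]
    have hs : ∀ {ι : Type} [Fintype ι] (c : ι → F2) (u : ι → Co M 2) (hu : ∀ i, u i ∈ Cy M 2),
        ∃ hh : ∑ i, c i • u i ∈ Cy M 2, cls (∑ i, c i • u i) hh = ∑ i, c i • cls (u i) (hu i) := by
      intro ι _ c u hu
      refine ⟨Submodule.sum_mem _ fun i _ => Submodule.smul_mem _ _ (hu i), ?_⟩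
      change (Submodule.Quotient.mk _ : Hc M 2) = _
      have : (⟨∑ i, c i • u i, Submodule.sum_mem _ fun i _ => Submodule.smul_mem _ _ (hu i)⟩ :
        Cy M 2) = ∑ i, c i • ⟨u i, hu i⟩ := by
        apply Subtype.ext
        rw [Submodule.coe_sum]
        rfl
      rw [this]
      exact map_sum (Submodule.mkQ _) _ _
    obtain ⟨g1, g1'⟩ := hs lam (fun a => cup (show 1 + 1 = 2 from rfl) (hc L (fa a)) (hc L (fj (π a))))
      (fun a => cup_Cy _ (hc_mem L _) (hc_mem L _))
    obtain ⟨g2, g2'⟩ := hs mu (fun j => cup (show 1 + 1 = 2 from rfl) (hc L (fj j)) (hc L (fj j)))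
      (fun a => cup_Cy _ (hc_mem L _) (hc_mem L _))
    simp only [e1, e2] at h
    rw [← g1', ← g2', ← cls_add, cls_eq_zero] at h
    convert h using 1
    funext τ
    rw [Pi.add_apply, Finset.sum_apply, Finset.sum_apply]
    change ∑ a, _ + ∑ j, _ = _
    congr 1
    · refine Finset.sum_congr rfl fun a _ => ?_
      rw [Pi.smul_apply, smul_eq_mul, cup_one_one]
      rfl
    · refine Finset.sum_congr rfl fun a _ => ?_
      rw [Pi.smul_apply, smul_eq_mul, cup_one_one]
      rfl
  obtain ⟨κ, hκ⟩ := exact_fun L ξ (by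
    intro g
    simp only [ξ, map_one, Hs.one_p, mul_zero, Finset.sum_const_zero, add_zero]) (by
    intro g
    simp only [ξ, map_one, Hs.one_p, mul_zero, zero_mul, Finset.sum_const_zero, add_zero]) hξ
  constructor
  · intro a
    have h1 := hκ (R.a a) (R.t (π a))
    have h2 := hκ (R.t (π a)) (R.a a)
    rw [R.comm a, h2] at h1
    have h3 : ξ (R.a a) (R.t (π a)) = lam a := by
      simp only [ξ, fa2, fj1, fj2, zero_mul, mul_zero, Finset.sum_const_zero, add_zero]
      rw [Finset.sum_eq_single a]
      · simp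
      · intro b _ hb
        simp [Pi.single_eq_of_ne hb.symm]
      · intro h; exact absurd (Finset.mem_univ _) h
    have h4 : ξ (R.t (π a)) (R.a a) = 0 := by
      simp only [ξ, fa1, fj1, fj2, zero_mul, mul_zero, Finset.sum_const_zero, add_zero]
    rw [h3, h4] at h1
    have h5 : ∀ x y z : F2, x + y + 0 = y + x + z → z = 0 := by decide
    exact h5 _ _ _ h1
  · intro i j
    have h3 : ∀ i, ξ (R.t i) (R.t i) = mu i := by
      intro i
      simp only [ξ, fa1, fj1, zero_mul, mul_zero, Finset.sum_const_zero, zero_add]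
      rw [Finset.sum_eq_single i]
      · simp
      · intro b _ hb
        simp [Pi.single_eq_of_ne hb.symm]
      · intro h; exact absurd (Finset.mem_univ _) h
    have h1 := hκ (R.t i) (R.t i)
    have h2 := hκ (R.t j) (R.t j)
    rw [R.sq i j, h2, h3, h3] at h1
    have h5 : ∀ x y z w : F2, x + x + z = y + y + w → w = z := by decide
    exact h5 _ _ _ _ h1

end Pool.Agent.L7h59.M3
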