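import Pool.Agent.L7h59.M3.Ring
import Pool.Agent.L7h59.M3.Conn

/-! The structure theorem for the double. -/

set_option autoImplicit false
set_option linter.unusedVariables false
set_option linter.unusedSectionVars false

namespace Pool.Agent.L7h59.M3

open Set Topology
open Pool.Agent.Helper158.PD Pool.Agent.Helper158.TC
open Pool.Agent.Helper922.HB.Sc (Sing sface altd vert)
open Alg (H ea ej bet)

section one

variable {A : Type} [TopologicalSpace A]

theorem one_mem : (fun _ => 1 : Co A 0) ∈ Cy A 0 := by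
  change dl 0 (fun _ => (1 : F2)) = 0
  funext τ
  rw [dl_apply, Fin.sum_univ_two]
  rfl

theorem sub_id {r : ℕ} (f : Fin (r + 1) → Fin (r + 1)) (hf : ∀ i, f i = i) (σ : Sing A r) :
    sub f σ = σ := by
  have : f = id := funext hf
  subst this
  ext x
  change σ (stdSimplex.map id x) = σ x
  rw [stdSimplex.map_id_apply]

theorem one_cup {r : ℕ} (v : Hc A r) (h : 0 + r = r) :
    cupH h (cls (fun _ => 1) one_mem) v = v := by
  obtain ⟨v, hv, rfl⟩ := cls_surj v
  rw [cupH_cls]
  apply Dbl.cls_congr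
  funext σ
  rw [cup_apply, one_mul]
  rw [sub_id]
  intro i
  apply Fin.ext
  change 0 + (i : ℕ) = i
  omega

end one

namespace Dbl

variable {X M : Type} [TopologicalSpace X] [TopologicalSpace M] (D : Dbl X M)

theorem sum_idm [Fintype (Cy D.V 0 → F2)] :
    ∑ S : Cy D.V 0 → F2, D.idm S = cls (fun _ => 1) one_mem := by
  classical
  have h2 : (fun _ => 1 : Co D.V 0) = ∑ S : Cy D.V 0 → F2, D.ind S := by
    funext σ
    rw [Finset.sum_apply, Finset.sum_eq_single (D.kap (σ (vert 0 0)))]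
    · exact (if_pos rfl).symm
    · intro S _ hS
      exact if_neg (Ne.symm hS)
    · intro h
      exact absurd (Finset.mem_univ _) h
  have h3 := cls_sum Finset.univ (fun S => D.ind S) (fun S => D.ind_mem S)
  rw [cls_congr h2 _ (Submodule.sum_mem _ fun S _ => D.ind_mem S), h3]
  rfl

variable [PathConnectedSpace M] {D} {x₀ : M} {Γ : Type} [Group Γ]
  {J A : Type} [Fintype J] [Fintype A] [DecidableEq J] [DecidableEq A] {π : A → J}
  (Q : D.Dua) (L : Lab M x₀ Γ) (R : Pres Γ π)

/-- the functional on `H²(M)` of a relative class -/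
noncomputable def fl : Hc X 1 →ₗ[F2] Hc M 2 →ₗ[F2] F2 :=
  ((Q.B21).comp (D.rH 2)).flip

theorem fl_apply (x : Hc X 1) (h : Hc M 2) : fl Q x h = Q.I (cupH h21 (D.rH 2 h) x) := rfl

/-- coordinates of the functional -/
noncomputable def rhoL : Hc X 1 →ₗ[F2] H J A :=
  (LinearMap.pi fun a => ((fl Q).flip (Ta L R a))).prod
    (LinearMap.pi fun j => ((fl Q).flip (Sj L R j)))

theorem rhoL_fst (x : Hc X 1) (a : A) : (rhoL Q L R x).1 a = fl Q x (Ta L R a) := rfl
theorem rhoL_snd (x : Hc X 1) (j : J) : (rhoL Q L R x).2 j = fl Q x (Sj L R j) := rfl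

theorem bet_rho (x : Hc X 1) (y w : H J A) :
    bet π (rhoL Q L R x) y w = fl Q x (pr L R y w) := (bet_functional L R (fl Q x) y w).symm

/-- symmetry of triple products -/
theorem triple (a b c : Hc X 1) : Q.I (cupH h21 (cupH h11 a b) c) =
    Q.I (cupH h21 (cupH h11 a c) b) := by
  rw [cupH_assoc h11 h21 h11 h12, cupH_comm b c, ← cupH_assoc h11 h21 h11 h12]

theorem fl_cup (x : Hc X 1) (y w : Hc M 1) : fl Q x (cupH h11 y w) =
    Q.I (cupH h21 (cupH h11 (D.rH 1 y) x) (D.rH 1 w)) := by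
  rw [fl_apply, pullH_cupH, triple]

theorem rho_zero_sum (x : Hc X 1) : ∑ i, (rhoL Q L R x).2 i = 0 := by
  simp only [rhoL_snd]
  rw [← map_sum, sum_Sj, map_zero]

theorem prod_zero {x : Hc X 1} (hx : D.iH true 1 x = 0) (y : Hc M 1)
    (h : ∀ w : Hc M 1, fl Q x (cupH h11 y w) = 0) : cupH h11 (D.rH 1 y) x = 0 := by
  apply Q.nd21
  intro b
  have e1 : cupH h11 x b = cupH h11 x (D.rH 1 (D.iH false 1 b)) :=
    D.replR true (show 0 + 1 + (0 + 1) = 2 from rfl) b hx
  rw [cupH_assoc h11 h21 h11 h12, e1, ← cupH_assoc h11 h21 h11 h12, ← fl_cup]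
  exact h _

theorem rho_surj (l : H J A) (hl : ∑ i, l.2 i = 0) : ∃ x : Hc X 1, D.iH true 1 x = 0 ∧
    rhoL Q L R x = l := by
  classical
  let Θ : H J A →ₗ[F2] Hc M 2 :=
    (Fintype.linearCombination F2 (Ta L R)).coprod (Fintype.linearCombination F2 (Sj L R))
  have hΘ : ∀ y : H J A, Θ y = ∑ a, y.1 a • Ta L R a + ∑ j, y.2 j • Sj L R j := by
    intro y
    simp only [Θ, LinearMap.coprod_apply, Fintype.linearCombination_apply]
  let g : H J A →ₗ[F2] F2 :=
    (Fintype.linearCombination F2 l.1).coprod (Fintype.linearCombination F2 l.2)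
  have hg : ∀ y : H J A, g y = ∑ a, y.1 a * l.1 a + ∑ j, y.2 j * l.2 j := by
    intro y
    simp only [g, LinearMap.coprod_apply, Fintype.linearCombination_apply, smul_eq_mul]
  have h1 : g ∈ (LinearMap.ker Θ).dualAnnihilator := by
    rw [Submodule.mem_dualAnnihilator]
    intro y hy
    rw [LinearMap.mem_ker, hΘ] at hy
    obtain ⟨h1, h2⟩ := indep_prod L R hy
    rw [hg]
    simp only [h1, zero_mul, Finset.sum_const_zero, zero_add]
    by_cases hJ : Nonempty J
    · obtain ⟨i⟩ := hJ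
      have : ∀ j, y.2 j * l.2 j = y.2 i * l.2 j := fun j => by rw [h2 j i]
      simp only [this]
      rw [← Finset.mul_sum, hl, mul_zero]
    · rw [not_nonempty_iff] at hJ
      exact Finset.sum_of_isEmpty _
  rw [← LinearMap.range_dualMap_eq_dualAnnihilator_ker] at h1
  obtain ⟨φ, hφ⟩ := h1
  obtain ⟨x, hx1, hx2⟩ := Q.rep_dual φ
  refine ⟨x, hx1, ?_⟩
  have h2 : ∀ y, φ (Θ y) = g y := fun y => LinearMap.congr_fun hφ y
  apply Prod.ext
  · funext a
    rw [rhoL_fst, fl_apply, hx2]
    have h3 := h2 (ea a)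
    rw [hΘ, hg] at h3
    simpa [ea, Pi.single_apply] using h3
  · funext j
    rw [rhoL_snd, fl_apply, hx2]
    have h3 := h2 (ej j)
    rw [hΘ, hg] at h3
    simpa [ej, Pi.single_apply] using h3

theorem swap_zero {x x' : Hc X 1} (hx : D.iH true 1 x = 0) (hx' : D.iH true 1 x' = 0)
    (w : Hc M 1) : fl Q x (cupH h11 (D.iH false 1 x') w) =
      fl Q x' (cupH h11 (D.iH false 1 x) w) := by
  have e : ∀ {x x' : Hc X 1}, D.iH true 1 x = 0 → cupH h11 (D.rH 1 (D.iH false 1 x')) x =
      cupH h11 x x' := by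
    intro x x' hx
    have e1 : cupH h11 x x' = cupH h11 x (D.rH 1 (D.iH false 1 x')) :=
      D.replR true (show 0 + 1 + (0 + 1) = 2 from rfl) x' hx
    rw [e1]
    exact cupH_comm _ _
  rw [fl_cup, fl_cup, e hx, e hx', cupH_comm x x']

/-- restriction component by component -/
noncomputable def Phi (L : Lab M x₀ Γ) (R : Pres Γ π) [Fintype (Cy D.V 0 → F2)] :
    ((Cy D.V 0 → F2) → H J A) →ₗ[F2] Hc D.V 1 :=
  ∑ S : Cy D.V 0 → F2, ((cupH (show 0 + 1 = 1 from rfl) (D.idm S)).comp
    ((D.res 1).comp (El L R))).comp (LinearMap.proj S)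

theorem Phi_apply [Fintype (Cy D.V 0 → F2)] (y : (Cy D.V 0 → F2) → H J A) :
    Phi (D := D) L R y = ∑ S : Cy D.V 0 → F2,
      cupH (show 0 + 1 = 1 from rfl) (D.idm S) (D.res 1 (El L R (y S))) := by
  simp only [Phi, LinearMap.sum_apply, LinearMap.comp_apply, LinearMap.proj_apply]

theorem Phi_const [Fintype (Cy D.V 0 → F2)] (y : H J A) :
    Phi (D := D) L R (fun _ => y) = D.res 1 (El L R y) := by
  rw [Phi_apply]
  have h : ∑ S : Cy D.V 0 → F2, cupH (show 0 + 1 = 1 from rfl) (D.idm S) (D.res 1 (El L R y)) =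
      cupH (show 0 + 1 = 1 from rfl) (∑ S : Cy D.V 0 → F2, D.idm S) (D.res 1 (El L R y)) := by
    rw [map_sum, LinearMap.sum_apply]
  rw [h, sum_idm, one_cup]

theorem Phi_zero [Fintype (Cy D.V 0 → F2)] {y : (Cy D.V 0 → F2) → H J A}
    (h : Phi (D := D) L R y = 0) (S : Cy D.V 0 → F2) :
    cupH (show 0 + 1 = 1 from rfl) (D.idm S) (D.res 1 (El L R (y S))) = 0 := by
  classical
  rw [Phi_apply] at h
  have h1 := congrArg (cupH (show 0 + 1 = 1 from rfl) (D.idm S)) h
  rw [map_zero, map_sum, Finset.sum_eq_single S] at h1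
  · rw [← cupH_assoc (show 0 + 0 = 0 from rfl) (show 0 + 1 = 1 from rfl)
      (show 0 + 1 = 1 from rfl) (show 0 + 1 = 1 from rfl), idm_sq] at h1
    exact h1
  · intro T _ hT
    rw [← cupH_assoc (show 0 + 0 = 0 from rfl) (show 0 + 1 = 1 from rfl)
      (show 0 + 1 = 1 from rfl) (show 0 + 1 = 1 from rfl), idm_mul D hT.symm, map_zero,
      LinearMap.zero_apply]
  · intro h; exact absurd (Finset.mem_univ _) h

/-- the data of the structure theorem -/
noncomputable def dat [Fintype (Cy D.V 0 → F2)] :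
    Alg.Dat π (D.P1) (Hc D.V 1) (Cy D.V 0 → F2) where
  ρ := (rhoL Q L R).comp D.P1.subtype
  j := ((co L R).comp (D.iH false 1)).comp D.P1.subtype
  ρ0 x := rho_zero_sum Q L R x.1
  ρs l hl := by
    obtain ⟨x, h1, h2⟩ := rho_surj Q L R l hl
    exact ⟨⟨x, h1⟩, h2⟩
  prod x y h := by
    have h1 : cupH h11 (D.rH 1 (El L R y)) x.1 = 0 := by
      refine prod_zero Q x.2 _ ?_
      intro w
      have h2 := h (co L R w)
      change bet π (rhoL Q L R x.1) y (co L R w) = 0 at h2
      rw [bet_rho] at h2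
      unfold pr at h2
      rwa [El_co] at h2
    have h2 := congrArg (D.iH false 2) h1
    rw [map_zero, pullH_cupH, D.iH_rH false] at h2
    have h3 : pr L R y (co L R (D.iH false 1 x.1)) = 0 := by
      unfold pr
      rw [El_co]
      exact h2
    rw [pr_comm, pr_formula] at h3
    exact indep_prod L R h3
  swap x x' w := by
    change bet π (rhoL Q L R x.1) (co L R (D.iH false 1 x'.1)) w =
      bet π (rhoL Q L R x'.1) (co L R (D.iH false 1 x.1)) w
    rw [bet_rho, bet_rho]
    unfold pr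
    rw [El_co, El_co]
    exact swap_zero Q x.2 x'.2 _
  z S := ⟨D.zz S, D.iH_dH true 0 _⟩
  jz S := by
    change co L R (D.iH false 1 (D.zz S)) = 0
    rw [zz, D.iH_dH false, map_zero]
  zs := by
    apply Subtype.ext
    rw [Submodule.coe_sum]
    exact D.sum_zz
  ker x hx := by
    have h1 : x.1 ∈ Submodule.span F2 (range D.zz) := by
      apply D.span_zz
      rintro (_ | _)
      · exact co_inj L R hx
      · exact x.2
    have h2 : Submodule.span F2 (range D.zz) = (Submodule.span F2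
        (range (fun S => (⟨D.zz S, D.iH_dH true 0 _⟩ : D.P1)))).map D.P1.subtype := by
      rw [Submodule.map_span, ← range_comp]
      rfl
    rw [h2] at h1
    obtain ⟨x', h3, h4⟩ := h1
    have h5 : x' = x := Subtype.ext h4
    rwa [h5] at h3
  Φ := Phi (D := D) L R
  Φz y hy S w := by
    change bet π (rhoL Q L R (D.zz S)) (y S) w = 0
    rw [bet_rho]
    unfold pr
    have h1 := Phi_zero (D := D) L R hy S
    have h2 : cupH h11 (D.zz S) (D.rH 1 (El L R (y S))) = 0 := by
      apply zz_cup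
      rw [pullH_pullH]
      exact h1
    rw [fl_cup, cupH_comm (D.rH 1 (El L R (y S))) (D.zz S)]
    rw [h2, map_zero, LinearMap.zero_apply, map_zero]
  K y := by
    rw [Phi_const, res_eq_zero]
    constructor
    · rintro ⟨x, hx, h⟩
      refine ⟨⟨x, hx⟩, ?_⟩
      change co L R (D.iH false 1 x) = y
      rw [h, co_El]
    · rintro ⟨x, hx⟩
      refine ⟨x.1, x.2, ?_⟩
      exact (El_of L R hx).symm
  dim := by
    have : (Phi (D := D) L R).comp (LinearMap.pi fun _ => LinearMap.id) =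
        (D.res 1).comp (El L R) := LinearMap.ext fun y => Phi_const L R y
    have h2 : LinearMap.range ((Phi (D := D) L R).comp (LinearMap.pi fun _ => LinearMap.id)) =
        LinearMap.range (D.res 1) := by
      rw [this, LinearMap.range_comp_of_range_eq_top]
      rw [LinearMap.range_eq_top]
      exact fun y => ⟨co L R y, El_co L R y⟩
    rw [h2]
    exact Q.finrank_V.2

include Q in
/-- **the structure theorem** -/
theorem struct (hπ : Alg.Dat.Big π) :
    Module.finrank F2 (Hc D.V 1) = 2 * Fintype.card J ∧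
      ∀ y : Hc M 1, (co L R y).2 = 0 → D.res 1 y = 0 := by
  classical
  have := Q.fin 1
  have := Q.finrank_V.1
  have hf : Finite (Cy D.V 0) := D.finite_zero
  have hft : Fintype (Cy D.V 0) := Fintype.ofFinite _
  have hft2 : Fintype (Cy D.V 0 → F2) := Fintype.ofFinite _
  obtain ⟨h1, h2⟩ := (dat Q L R).concl hπ
  refine ⟨h1, fun y hy => ?_⟩
  have h3 := h2 (co L R y) hy
  change Phi (D := D) L R (fun _ => co L R y) = 0 at h3
  rwa [Phi_const, El_co] at h3

end Dbl

end Pool.Agent.L7h59.M3
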