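import Mathlib

/-! Torsion in abelianizations of subgroups of groups with finite order monodromy (a copy of
lemmas from the starting file on finite order monodromy of this problem). -/

set_option autoImplicit false

namespace Pool.Agent.L7h59.M3.Tor

open Subgroup Subgroup.leftTransversals MulAction

/-- The transfer of a homomorphism that extends to the whole group is the power by the index. -/
theorem transfer_restrict {H : Type*} [Group H] (K : Subgroup H) [K.FiniteIndex]
    {A : Type*} [CommGroup A] (Φ : H →* A) (g : H) :
    MonoidHom.transfer (Φ.comp K.subtype) g = Φ g ^ K.index := by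
  classical
  let _ := K.fintypeQuotientOfFiniteIndex
  let T : K.LeftTransversal := default
  rw [MonoidHom.transfer_def (Φ.comp K.subtype) T g]
  have h1 : diff (Φ.comp K.subtype) T (g • T) =
      ∏ q : H ⧸ K, ((Φ (T.2.leftQuotientEquiv q : H))⁻¹ *
        (Φ g * Φ (T.2.leftQuotientEquiv (g⁻¹ • q) : H))) := by
    unfold diff
    refine Finset.prod_congr rfl (fun q _ => ?_)
    simp only [MonoidHom.comp_apply, Subgroup.coe_subtype, map_mul, map_inv]
    rw [smul_apply_eq_smul_apply_inv_smul, smul_eq_mul, map_mul]
  rw [h1, Finset.prod_mul_distrib, Finset.prod_mul_distrib]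
  have h2 : ∏ q : H ⧸ K, Φ (T.2.leftQuotientEquiv (g⁻¹ • q) : H) =
      ∏ q : H ⧸ K, Φ (T.2.leftQuotientEquiv q : H) :=
    Fintype.prod_equiv (MulAction.toPerm g⁻¹) _ _ (fun q => rfl)
  rw [h2, Finset.prod_inv_distrib, Finset.prod_const, Finset.card_univ,
    ← Nat.card_eq_fintype_card, ← Subgroup.index_eq_card]
  rw [mul_comm (Φ g ^ K.index) _, inv_mul_cancel_left]

theorem map_transfer {H : Type*} [Group H] (K : Subgroup H) [K.FiniteIndex]
    {A B : Type*} [CommGroup A] [CommGroup B] (ϕ : K →* A) (i : A →* B) (g : H) :
    i (MonoidHom.transfer ϕ g) = MonoidHom.transfer (i.comp ϕ) g := by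
  classical
  let T : K.LeftTransversal := default
  rw [MonoidHom.transfer_def ϕ T g, MonoidHom.transfer_def (i.comp ϕ) T g]
  unfold diff
  simp only [map_prod, MonoidHom.comp_apply]

/-- If a subgroup `K` of finite index has torsion-free abelianization, every torsion element of
`H^ab` is killed by the index of `K`. -/
theorem ab_torsion_of_index {H : Type*} [Group H] (K : Subgroup H) [K.FiniteIndex]
    (hK : ∀ (y : Abelianization K) (n : ℕ), 0 < n → y ^ n = 1 → y = 1)
    (x : Abelianization H) (n : ℕ) (hn : 0 < n) (hx : x ^ n = 1) : x ^ K.index = 1 := by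
  obtain ⟨h, rfl⟩ : ∃ h : H, Abelianization.of h = x := QuotientGroup.mk'_surjective (commutator H) x
  set V : H →* Abelianization K := MonoidHom.transfer (Abelianization.of : K →* Abelianization K)
    with hV
  have h1 : V h = 1 := by
    refine hK _ n hn ?_
    have h2 : Abelianization.lift V ((Abelianization.of h) ^ n) = 1 := by
      have : (Abelianization.of h) ^ n = 1 := hx
      rw [this, map_one]
    rw [map_pow, Abelianization.lift_apply_of] at h2
    exact h2
  have h3 : Abelianization.map K.subtype (V h) = 1 := by rw [h1, map_one]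
  rw [hV, map_transfer] at h3
  have h4 : (Abelianization.map K.subtype).comp (Abelianization.of : K →* Abelianization K) =
      (Abelianization.of : H →* Abelianization H).comp K.subtype := by
    ext k
    simp
  rw [h4, transfer_restrict] at h3
  exact h3

/-- The abelianization of a free group is torsion-free. -/
theorem free_ab_tf {L : Type*} [Group L] [IsFreeGroup L] (y : Abelianization L) (n : ℕ)
    (hn : 0 < n) (hy : y ^ n = 1) : y = 1 := by
  let e1 : Abelianization L ≃* Abelianization (FreeGroup (IsFreeGroup.Generators L)) :=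
    MulEquiv.abelianizationCongr (IsFreeGroup.toFreeGroup L)
  let e2 : FreeAbelianGroup (IsFreeGroup.Generators L) ≃+
    ((IsFreeGroup.Generators L) →₀ ℤ) := FreeAbelianGroup.equivFinsupp _
  let a : FreeAbelianGroup (IsFreeGroup.Generators L) := Additive.ofMul (e1 y)
  have h1 : n • a = 0 := by
    have : (e1 y) ^ n = 1 := by rw [← map_pow, hy, map_one]
    exact this
  have h2 : n • (e2 a) = 0 := by rw [← map_nsmul, h1, map_zero]
  have h3 : e2 a = 0 := by
    ext i
    have h4 := DFunLike.congr_fun h2 i
    simp only [Finsupp.smul_apply, Finsupp.coe_zero, Pi.zero_apply, smul_eq_zero] at h4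
    rcases h4 with h4 | h4
    · omega
    · simpa using h4
  have h5 : a = 0 := by
    have := e2.injective (h3.trans (map_zero e2).symm)
    exact this
  have h6 : e1 y = 1 := h5
  exact e1.injective (h6.trans (map_one e1).symm)


/-- Main lemma: `G` has a homomorphism `f` to `ℤ` with free kernel and a central element `z`
with `f z = m > 0`.  Then for every subgroup `H` of `G` every torsion element of `H^ab` is killed
by `m`. -/
theorem torsion_killed {G : Type*} [Group G] (f : G →* Multiplicative ℤ)
    (hfree : IsFreeGroup f.ker) (z : G) (hz : z ∈ Subgroup.center G) (m : ℕ) (hm : 0 < m)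
    (hfz : f z = Multiplicative.ofAdd (m : ℤ)) (H : Subgroup G)
    (x : Abelianization H) (n : ℕ) (hn : 0 < n) (hx : x ^ n = 1) : x ^ m = 1 := by
  classical
  -- the additive version of `f`
  set F : G → ℤ := fun g => Multiplicative.toAdd (f g) with hF
  have Fmul : ∀ a b : G, F (a * b) = F a + F b := fun a b => by simp [hF]
  have Fz : F z = m := by simp [hF, hfz]
  have Fzpow : ∀ k : ℤ, F (z ^ k) = k * m := fun k => by
    simp [hF, hfz, map_zpow]
  have zc : ∀ g : G, g * z = z * g := fun g => (Subgroup.mem_center_iff.mp hz g)
  have zc' : ∀ (g : G) (k : ℤ), g * z ^ k = z ^ k * g := fun g k =>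
    ((show Commute g z from zc g).zpow_right k)
  -- the reduction of `f` modulo `m`
  let χ : H →* Multiplicative (ZMod m) :=
    (AddMonoidHom.toMultiplicative (Int.castAddHom (ZMod m))).comp (f.comp H.subtype)
  have : NeZero m := ⟨by omega⟩
  have hχ : ∀ h : H, χ h = 1 ↔ (m : ℤ) ∣ F h := by
    intro h
    have : χ h = Multiplicative.ofAdd ((F h : ℤ) : ZMod m) := rfl
    rw [this]
    rw [← (ZMod.intCast_zmod_eq_zero_iff_dvd (F h) m)]
    exact Iff.rfl
  set K : Subgroup H := χ.ker with hKdef
  have hKi : K.index ∣ m := by
    rw [hKdef, Subgroup.index_ker]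
    have h1 : Nat.card χ.range ∣ Nat.card (Multiplicative (ZMod m)) :=
      Subgroup.card_subgroup_dvd_card _
    have h2 : Nat.card (Multiplicative (ZMod m)) = m := by
      rw [Nat.card_congr Multiplicative.toAdd, Nat.card_zmod]
    rwa [h2] at h1
  have : K.FiniteIndex := ⟨fun h0 => by rw [h0] at hKi; exact absurd (Nat.eq_zero_of_zero_dvd hKi) (by omega)⟩
  have hKm : ∀ k : K, (m : ℤ) ∣ F ((k : H) : G) := fun k => (hχ _).mp k.2
  -- the projection of `K` to the free kernel
  have hpk : ∀ k : K, ((k : H) : G) * z ^ (-(F ((k : H) : G) / m)) ∈ f.ker := by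
    intro k
    rw [MonoidHom.mem_ker]
    apply Multiplicative.toAdd.injective
    change F (((k : H) : G) * z ^ (-(F ((k : H) : G) / m))) = 0
    rw [Fmul, Fzpow]
    have := Int.ediv_mul_cancel (hKm k)
    rw [neg_mul, this]; ring
  let π : K →* f.ker :=
    { toFun := fun k => ⟨((k : H) : G) * z ^ (-(F ((k : H) : G) / m)), hpk k⟩
      map_one' := by
        apply Subtype.ext
        simp [hF]
      map_mul' := by
        intro a b
        apply Subtype.ext
        simp only [Subgroup.coe_mul, Fmul]
        rw [Int.add_ediv_of_dvd_left (hKm a), neg_add, zpow_add]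
        rw [mul_assoc, mul_assoc, ← mul_assoc ((b : H) : G), zc' ((b : H) : G)]
        group }
  have : IsFreeGroup f.ker := hfree
  -- torsion-freeness of `K^ab`
  have htf : ∀ (y : Abelianization K) (n : ℕ), 0 < n → y ^ n = 1 → y = 1 := by
    intro y n hn hy
    obtain ⟨k, rfl⟩ : ∃ k : K, Abelianization.of k = y :=
      QuotientGroup.mk'_surjective (commutator K) y
    have hk : k ^ n ∈ commutator K := by
      rw [← map_pow] at hy
      exact (QuotientGroup.eq_one_iff _).mp hy
    -- image in the free group
    have h1 : (π.rangeRestrict k) ^ n ∈ commutator π.range := by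
      rw [← map_pow]
      have : (commutator K).map π.rangeRestrict ≤ commutator π.range := by
        rw [map_commutator_eq]
        exact Subgroup.commutator_mono le_top le_top
      exact this (Subgroup.mem_map_of_mem _ hk)
    have h2 : Abelianization.of (π.rangeRestrict k) = 1 := by
      apply free_ab_tf _ n hn
      rw [← map_pow]
      exact (QuotientGroup.eq_one_iff _).mpr h1
    have h3 : π.rangeRestrict k ∈ commutator π.range := (QuotientGroup.eq_one_iff _).mp h2
    have h4 : (commutator K).map π.rangeRestrict = commutator π.range := by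
      rw [map_commutator_eq, MonoidHom.range_eq_top.mpr π.rangeRestrict_surjective]
      rfl
    rw [← h4] at h3
    obtain ⟨k', hk', hkk⟩ := h3
    have h5 : π k' = π k := congrArg Subtype.val hkk
    have h6 : ∀ u : K, u ∈ commutator K → F ((u : H) : G) = 0 := by
      intro u hu
      have : commutator K ≤ (f.comp (H.subtype.comp K.subtype)).ker :=
        Abelianization.commutator_subset_ker _
      have h7 := this hu
      rw [MonoidHom.mem_ker] at h7
      change Multiplicative.toAdd (f ((u : H) : G)) = 0
      have h8 : f ((u : H) : G) = 1 := h7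
      rw [h8]; rfl
    have h9 : F ((k' : H) : G) = 0 := h6 k' hk'
    have h10 : F (((k ^ n : K) : H) : G) = 0 := h6 _ hk
    have h11 : ∀ j : ℕ, F (((k ^ j : K) : H) : G) = j * F ((k : H) : G) := by
      intro j
      induction j with
      | zero => simp [hF]
      | succ j ih =>
        rw [pow_succ, Subgroup.coe_mul, Subgroup.coe_mul, Fmul, ih]
        push_cast; ring
    rw [h11 n] at h10
    have h12 : F ((k : H) : G) = 0 := by
      rcases mul_eq_zero.mp h10 with h | h
      · exfalso; have : n = 0 := by exact_mod_cast h
        omega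
      · exact h
    have h13 : k' = k := by
      apply Subtype.ext
      apply Subtype.ext
      have := congrArg Subtype.val h5
      change ((k' : H) : G) * z ^ (-(F ((k' : H) : G) / m)) =
        ((k : H) : G) * z ^ (-(F ((k : H) : G) / m)) at this
      rw [h9, h12] at this
      simpa using this
    rw [← h13]
    exact (QuotientGroup.eq_one_iff _).mpr hk'
  have hfin := ab_torsion_of_index K htf x n hn hx
  obtain ⟨c, hc⟩ := hKi
  rw [hc, pow_mul, hfin, one_pow]


/-- If the torsion of `A` is killed by `m`, then `ℤ/p` is not a direct summand of `A` when `p` is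
a prime not dividing `m`. -/
theorem no_summand {A : Type*} [CommGroup A] (m : ℕ)
    (h : ∀ (x : A) (k : ℕ), 0 < k → x ^ k = 1 → x ^ m = 1) (p : ℕ) (hp : p.Prime)
    (hpm : ¬ p ∣ m) (B : Type*) [AddCommGroup B] : ¬ Nonempty (Additive A ≃+ ZMod p × B) := by
  rintro ⟨e⟩
  set a : Additive A := e.symm ((1 : ZMod p), (0 : B)) with ha
  have h1 : p • a = 0 := by
    rw [ha, ← map_nsmul]
    have : p • ((1 : ZMod p), (0 : B)) = 0 := by
      ext
      · simp
      · simp
    rw [this, map_zero]
  have h2 : m • a = 0 := by
    have := h (Additive.toMul a) p hp.pos h1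
    exact this
  have h3 : m • ((1 : ZMod p), (0 : B)) = 0 := by
    have h4 : e (m • a) = 0 := by rw [h2, map_zero]
    rw [map_nsmul, ha, AddEquiv.apply_symm_apply] at h4
    exact h4
  have h5 : ((m : ℕ) : ZMod p) = 0 := by
    have := congrArg Prod.fst h3
    simpa using this
  rw [ZMod.natCast_eq_zero_iff] at h5
  exact hpm h5

end Pool.Agent.L7h59.M3.Tor
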